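import Pool.Graph.R_seed8.H556R4.SU2f

/-!
# Integrals over the unit ball of the quaternions and the divergence theorem
-/

set_option autoImplicit false
set_option linter.unusedSectionVars false

noncomputable section

namespace Pool.Agent.H859.YM

open MeasureTheory Quaternion Set
open Pool.Agent.H556R4.SU2 (S3 norm_coe' normSq_coe)

instance : SecondCountableTopology S3 := inferInstance

variable [MeasurableSpace S3] [BorelSpace S3] (μ : Measure S3) [IsProbabilityMeasure μ]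
  [μ.IsMulLeftInvariant] [μ.IsMulRightInvariant] [μ.IsInvInvariant]

/-- the radial measure -/
def rad : Measure ℝ := volume.restrict (Icc 0 1)

instance : IsFiniteMeasure rad := by unfold rad; infer_instance

/-- integral over the unit ball, up to the factor which is the surface of the sphere -/
def B (G : ℍ[ℝ] → ℝ) : ℝ := ∫ p : S3 × ℝ, p.2 ^ 3 * G (p.2 • (p.1 : ℍ[ℝ])) ∂(μ.prod rad)

lemma int_of_cont {H : S3 × ℝ → ℝ} (hH : Continuous H) : Integrable H (μ.prod rad) := by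
  have hc : IsCompact ((univ : Set S3) ×ˢ (Icc (0 : ℝ) 1)) := isCompact_univ.prod isCompact_Icc
  have h1 : IntegrableOn H ((univ : Set S3) ×ˢ (Icc (0 : ℝ) 1)) (μ.prod volume) :=
    hH.continuousOn.integrableOn_compact hc
  rw [IntegrableOn, ← Measure.prod_restrict, Measure.restrict_univ] at h1
  exact h1

lemma B_int {G : ℍ[ℝ] → ℝ} (hG : Continuous G) :
    Integrable (fun p : S3 × ℝ => p.2 ^ 3 * G (p.2 • (p.1 : ℍ[ℝ]))) (μ.prod rad) :=
  int_of_cont μ (by fun_prop)

lemma B_eq1 {G : ℍ[ℝ] → ℝ} (hG : Continuous G) :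
    B μ G = ∫ s : S3, ∫ r in (0 : ℝ)..1, r ^ 3 * G (r • (s : ℍ[ℝ])) ∂volume ∂μ := by
  unfold B
  rw [integral_prod _ (B_int μ hG)]
  refine integral_congr_ae (Filter.Eventually.of_forall fun s => ?_)
  simp only [rad]
  rw [intervalIntegral.integral_of_le zero_le_one, integral_Icc_eq_integral_Ioc]

lemma B_add {G H : ℍ[ℝ] → ℝ} (hG : Continuous G) (hH : Continuous H) :
    B μ (fun x => G x + H x) = B μ G + B μ H := by
  unfold B
  rw [← integral_add (B_int μ hG) (B_int μ hH)]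
  refine integral_congr_ae (Filter.Eventually.of_forall fun p => ?_)
  simp only
  ring

lemma B_sub {G H : ℍ[ℝ] → ℝ} (hG : Continuous G) (hH : Continuous H) :
    B μ (fun x => G x - H x) = B μ G - B μ H := by
  unfold B
  rw [← integral_sub (B_int μ hG) (B_int μ hH)]
  refine integral_congr_ae (Filter.Eventually.of_forall fun p => ?_)
  simp only
  ring

lemma B_mul (a : ℝ) (G : ℍ[ℝ] → ℝ) : B μ (fun x => a * G x) = a * B μ G := by
  unfold B
  rw [← integral_const_mul]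
  refine integral_congr_ae (Filter.Eventually.of_forall fun p => ?_)
  simp only
  ring

lemma B_mono {G H : ℍ[ℝ] → ℝ} (hG : Continuous G) (hH : Continuous H)
    (h : ∀ x, ‖x‖ ≤ 1 → G x ≤ H x) : B μ G ≤ B μ H := by
  unfold B
  refine integral_mono_ae (B_int μ hG) (B_int μ hH) ?_
  have h1 : ∀ᵐ p : S3 × ℝ ∂(μ.prod rad), p.2 ∈ Icc (0 : ℝ) 1 := by
    have h2 : ∀ᵐ r ∂rad, r ∈ Icc (0 : ℝ) 1 := ae_restrict_mem measurableSet_Icc
    exact Measure.quasiMeasurePreserving_snd.ae h2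
  filter_upwards [h1] with p hp
  refine mul_le_mul_of_nonneg_left (h _ ?_) (pow_nonneg hp.1 3)
  rw [norm_smul, norm_coe', mul_one, Real.norm_eq_abs, abs_of_nonneg hp.1]
  exact hp.2

lemma B_nonneg {G : ℍ[ℝ] → ℝ} (hG : Continuous G) (h : ∀ x, ‖x‖ ≤ 1 → 0 ≤ G x) : 0 ≤ B μ G := by
  have := B_mono μ continuous_const hG (G := fun _ => 0) h
  refine le_trans (le_of_eq ?_) this
  simp [B]

/-! ## the radial identity -/

lemma radial {G : ℍ[ℝ] → ℝ} (hG : ContDiff ℝ 1 G) :
    ∫ s : S3, G s ∂μ = B μ (fun x => 4 * G x + fderiv ℝ G x x) := by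
  have hc : Continuous (fun x => 4 * G x + fderiv ℝ G x x) := by
    have h1 := hG.continuous
    have h2 := hG.continuous_fderiv (by norm_num)
    fun_prop
  rw [B_eq1 μ hc]
  refine integral_congr_ae (Filter.Eventually.of_forall fun s => ?_)
  simp only
  have hd : ∀ r ∈ uIcc (0 : ℝ) 1, HasDerivAt (fun r : ℝ => r ^ 4 * G (r • (s : ℍ[ℝ])))
      (r ^ 3 * (4 * G (r • (s : ℍ[ℝ])) + fderiv ℝ G (r • (s : ℍ[ℝ])) (r • (s : ℍ[ℝ])))) r := by
    intro r _
    have h1 : HasDerivAt (fun r : ℝ => r • (s : ℍ[ℝ])) ((1 : ℝ) • (s : ℍ[ℝ])) r :=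
      (hasDerivAt_id r).smul_const _
    have h2 : HasFDerivAt G (fderiv ℝ G (r • (s : ℍ[ℝ]))) (r • (s : ℍ[ℝ])) :=
      (hG.differentiable (by norm_num) _).hasFDerivAt
    have h3 := h2.comp_hasDerivAt r h1
    have h4 := (hasDerivAt_pow 4 r).mul h3
    refine h4.congr_deriv ?_
    simp only [Function.comp, one_smul, map_smul, smul_eq_mul]
    push_cast
    ring
  have hcc : Continuous fun r : ℝ => r ^ 3 * (4 * G (r • (s : ℍ[ℝ]))
      + fderiv ℝ G (r • (s : ℍ[ℝ])) (r • (s : ℍ[ℝ]))) := by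
    have := hc.comp (continuous_id.smul continuous_const : Continuous fun r : ℝ => r • (s : ℍ[ℝ]))
    exact (continuous_pow 3).mul this
  rw [intervalIntegral.integral_eq_sub_of_hasDerivAt hd (hcc.intervalIntegrable _ _)]
  simp

/-! ## tangential derivatives have mean zero -/

/-- a point of the one-parameter group -/
def rot (q : ℍ[ℝ]) (hq : normSq q = 1) (hr : q.re = 0) (t : ℝ) : S3 :=
  ⟨(Real.cos t : ℍ[ℝ]) + Real.sin t • q, by
    have h0 : ((Real.cos t : ℍ[ℝ]) * star (Real.sin t • q)).re = 0 := by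
      rw [Quaternion.star_smul, mul_smul_comm, Quaternion.re_smul, Quaternion.coe_mul_eq_smul,
        Quaternion.re_smul, Quaternion.re_star, hr]
      simp
    have h1 : normSq ((Real.cos t : ℍ[ℝ]) + Real.sin t • q) = 1 := by
      rw [normSq_add, Quaternion.normSq_coe, normSq_smul, hq, h0]
      have := Real.sin_sq_add_cos_sq t
      linarith
    rw [mem_sphere_zero_iff_norm, ← sq_eq_sq₀ (norm_nonneg _) zero_le_one, sq,
      ← normSq_eq_norm_mul_self, h1, one_pow]⟩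

lemma rot_coe (q : ℍ[ℝ]) (hq : normSq q = 1) (hr : q.re = 0) (t : ℝ) :
    (rot q hq hr t : ℍ[ℝ]) = (Real.cos t : ℍ[ℝ]) + Real.sin t • q := rfl

lemma tangential {G : ℍ[ℝ] → ℝ} (hG : ContDiff ℝ 1 G) {q : ℍ[ℝ]} (hq : normSq q = 1)
    (hr : q.re = 0) : ∫ s : S3, fderiv ℝ G s ((s : ℍ[ℝ]) * q) ∂μ = 0 := by
  have hfc := hG.continuous_fderiv (by norm_num)
  obtain ⟨C, hC'⟩ := (isCompact_closedBall (0 : ℍ[ℝ]) 1).exists_bound_of_continuousOn
    (f := fun x => ‖fderiv ℝ G x‖) (continuous_norm.comp hfc).continuousOn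
  have hC : ∀ x ∈ Metric.closedBall (0 : ℍ[ℝ]) 1, ‖fderiv ℝ G x‖ ≤ C := fun x hx =>
    (le_abs_self _).trans (hC' x hx)
  have hnq : ‖q‖ = 1 := by
    have := normSq_eq_norm_mul_self q
    rw [hq] at this
    nlinarith [norm_nonneg q]
  have hd : ∀ (s : S3) (t : ℝ), HasDerivAt (fun t : ℝ => G ((s : ℍ[ℝ]) * (rot q hq hr t : ℍ[ℝ])))
      (fderiv ℝ G ((s : ℍ[ℝ]) * (rot q hq hr t : ℍ[ℝ]))
        ((s : ℍ[ℝ]) * ((-Real.sin t : ℝ) • (1 : ℍ[ℝ]) + Real.cos t • q))) t := by
    intro s t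
    have h1 : HasDerivAt (fun t : ℝ => Real.cos t • (1 : ℍ[ℝ]) + Real.sin t • q)
        ((-Real.sin t : ℝ) • (1 : ℍ[ℝ]) + Real.cos t • q) t :=
      ((Real.hasDerivAt_cos t).smul_const _).add ((Real.hasDerivAt_sin t).smul_const _)
    have h2 := h1.const_mul (s : ℍ[ℝ])
    have e : (fun t : ℝ => (s : ℍ[ℝ]) * (Real.cos t • (1 : ℍ[ℝ]) + Real.sin t • q))
        = fun t : ℝ => (s : ℍ[ℝ]) * (rot q hq hr t : ℍ[ℝ]) := by
      funext t
      rw [rot_coe, ← Quaternion.coe_mul_eq_smul, mul_one]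
    rw [e] at h2
    exact ((hG.differentiable (by norm_num) _).hasFDerivAt).comp_hasDerivAt t h2
  have hrc : Continuous fun s : S3 => G ((s : ℍ[ℝ]) * (rot q hq hr 0 : ℍ[ℝ])) := by
    have := hG.continuous
    fun_prop
  have key := hasDerivAt_integral_of_dominated_loc_of_deriv_le (μ := μ) (x₀ := (0 : ℝ))
    (s := univ) (bound := fun _ => C)
    (F := fun t s => G ((s : ℍ[ℝ]) * (rot q hq hr t : ℍ[ℝ])))
    (F' := fun t s => fderiv ℝ G ((s : ℍ[ℝ]) * (rot q hq hr t : ℍ[ℝ]))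
        ((s : ℍ[ℝ]) * ((-Real.sin t : ℝ) • (1 : ℍ[ℝ]) + Real.cos t • q)))
    Filter.univ_mem
    (Filter.Eventually.of_forall fun t => by
      have := hG.continuous
      exact (by fun_prop : Continuous fun s : S3 =>
        G ((s : ℍ[ℝ]) * (rot q hq hr t : ℍ[ℝ]))).aestronglyMeasurable)
    (hrc.integrable_of_hasCompactSupport (HasCompactSupport.of_compactSpace _))
    ((by
      have := hfc
      fun_prop : Continuous fun s : S3 => fderiv ℝ G ((s : ℍ[ℝ]) * (rot q hq hr 0 : ℍ[ℝ]))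
        ((s : ℍ[ℝ]) * ((-Real.sin 0 : ℝ) • (1 : ℍ[ℝ]) + Real.cos 0 • q))).aestronglyMeasurable)
    (Filter.Eventually.of_forall fun s t _ => by
      refine (ContinuousLinearMap.le_opNorm _ _).trans ?_
      have hn : ‖(s : ℍ[ℝ]) * ((-Real.sin t : ℝ) • (1 : ℍ[ℝ]) + Real.cos t • q)‖ = 1 := by
        have e : (-Real.sin t : ℝ) • (1 : ℍ[ℝ]) + Real.cos t • q
            = (rot q hq hr (t + Real.pi / 2) : ℍ[ℝ]) := by
          rw [rot_coe, Real.cos_add_pi_div_two, Real.sin_add_pi_div_two,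
            ← Quaternion.coe_mul_eq_smul, mul_one]
        rw [e, norm_mul, norm_coe', norm_coe', mul_one]
      rw [hn, mul_one]
      refine hC _ ?_
      rw [mem_closedBall_zero_iff, norm_mul, norm_coe', norm_coe', mul_one])
    (integrable_const C)
    (Filter.Eventually.of_forall fun s t _ => hd s t)
  have hconst : (fun t : ℝ => ∫ s : S3, G ((s : ℍ[ℝ]) * (rot q hq hr t : ℍ[ℝ])) ∂μ)
      = fun _ => ∫ s : S3, G s ∂μ := by
    funext t
    have := integral_mul_right_eq_self (μ := μ) (fun s : S3 => G s) (rot q hq hr t)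
    simpa using this
  have h1 := key.2
  rw [hconst] at h1
  have h2 := h1.unique (hasDerivAt_const (0 : ℝ) _)
  simp only [Real.sin_zero, neg_zero, zero_smul, Real.cos_zero, one_smul, zero_add] at h2
  rw [← h2]
  refine integral_congr_ae (Filter.Eventually.of_forall fun s => ?_)
  simp only
  have : (rot q hq hr 0 : ℍ[ℝ]) = 1 := by simp [rot_coe]
  rw [this, mul_one]

end Pool.Agent.H859.YM
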