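import Pool.Agent.H859.YM.FV4

/-!
# Arbitrary boundary conditions
-/

set_option autoImplicit false
set_option linter.unusedSectionVars false

noncomputable section

namespace Pool.Agent.H859.YMG

open MeasureTheory Measure Function Quaternion Filter Topology
open Pool.Agent.H556R4.Dob Pool.Agent.H556R4.SU2 Pool.Agent.V11262.ER

/-- the configuration `V` where `S` holds, and `U` elsewhere -/
def glue (S : Link → Prop) [DecidablePred S] (V U : Link → S3) : Link → S3 :=
  fun e => if S e then V e else U e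

lemma glue_pos {S : Link → Prop} [DecidablePred S] {e : Link} (h : S e) (V U : Link → S3) :
    glue S V U e = V e := if_pos h

lemma glue_neg {S : Link → Prop} [DecidablePred S] {e : Link} (h : ¬ S e) (V U : Link → S3) :
    glue S V U e = U e := if_neg h

lemma continuous_glue (S : Link → Prop) [DecidablePred S] :
    Continuous fun p : (Link → S3) × (Link → S3) => glue S p.1 p.2 := by
  refine continuous_pi fun e => ?_
  by_cases h : S e
  · simp only [glue_pos h]
    exact (continuous_apply e).comp continuous_fst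
  · simp only [glue_neg h]
    exact (continuous_apply e).comp continuous_snd

variable [MeasurableSpace S3] [BorelSpace S3]

lemma measurable_glue (S : Link → Prop) [DecidablePred S] :
    Measurable fun p : (Link → S3) × (Link → S3) => glue S p.1 p.2 := by
  refine measurable_pi_lambda _ fun e => ?_
  by_cases h : S e
  · simp only [glue_pos h]
    exact (measurable_pi_apply e).comp measurable_fst
  · simp only [glue_neg h]
    exact (measurable_pi_apply e).comp measurable_snd

variable (μ : Measure S3) [IsProbabilityMeasure μ]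

instance : IsProbabilityMeasure (hm μ) := by unfold hm; infer_instance

lemma mp_glue (S : Link → Prop) [DecidablePred S] :
    MeasurePreserving (fun p : (Link → S3) × (Link → S3) => glue S p.1 p.2)
      ((hm μ).prod (hm μ)) (hm μ) := by
  refine ⟨measurable_glue S, ?_⟩
  refine eq_infinitePi _ fun s t ht => ?_
  rw [map_apply (measurable_glue S) (MeasurableSet.pi s.countable_toSet fun i _ => ht i)]
  have h : (fun p : (Link → S3) × (Link → S3) => glue S p.1 p.2) ⁻¹' (Set.pi s t)
      = (Set.pi (s.filter S : Finset Link) t) ×ˢ (Set.pi (s.filter (fun e => ¬ S e) : Finset Link) t) := by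
    ext p
    simp only [Set.mem_preimage, Set.mem_pi, Finset.mem_coe, Set.mem_prod, Finset.mem_filter]
    constructor
    · intro hp
      refine ⟨fun e he => ?_, fun e he => ?_⟩
      · have := hp e he.1
        rwa [glue_pos he.2] at this
      · have := hp e he.1
        rwa [glue_neg he.2] at this
    · rintro ⟨h1, h2⟩ e he
      by_cases hS : S e
      · rw [glue_pos hS]; exact h1 e ⟨he, hS⟩
      · rw [glue_neg hS]; exact h2 e ⟨he, hS⟩
  rw [h, prod_prod]
  unfold hm
  rw [infinitePi_pi _ (fun i _ => ht i), infinitePi_pi _ (fun i _ => ht i),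
    Finset.prod_filter_mul_prod_filter_not]

/-- mean over the variables in `S` -/
def cint (S : Link → Prop) [DecidablePred S] (G : (Link → S3) → ℝ) (U : Link → S3) : ℝ :=
  ∫ V, G (glue S V U) ∂(hm μ)

lemma int_glue (S : Link → Prop) [DecidablePred S] {φ : (Link → S3) → ℝ} (hφ : BM φ) :
    ∫ U, φ U ∂(hm μ) = ∫ U, cint μ S φ U ∂(hm μ) := by
  have h := mp_glue μ S
  conv_lhs => rw [← h.map_eq]
  rw [integral_map h.measurable.aemeasurable hφ.meas.aestronglyMeasurable]
  exact integral_prod_symm _ ((hφ.comp h.measurable).integrable _)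

lemma BM.cont {φ : (Link → S3) → ℝ} (hφ : Continuous φ) : BM φ := BM.of_cont hφ

lemma cont_cint (S : Link → Prop) [DecidablePred S] {G : (Link → S3) → ℝ} (hG : Continuous G) :
    Continuous (cint μ S G) := by
  obtain ⟨C, hC⟩ := (BM.cont hG).bdd
  unfold cint
  refine continuous_of_dominated (bound := fun _ => C) (fun U => ?_) (fun U => ?_)
    (integrable_const _) ?_
  · exact (hG.comp ((continuous_glue S).comp (continuous_id.prodMk continuous_const))
      ).aestronglyMeasurable
  · exact Filter.Eventually.of_forall fun V => by rw [Real.norm_eq_abs]; exact hC _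
  · exact Filter.Eventually.of_forall fun V =>
      hG.comp ((continuous_glue S).comp (continuous_const.prodMk continuous_id))

lemma cint_mul (S : Link → Prop) [DecidablePred S] {Ψ G : (Link → S3) → ℝ}
    (hΨ : ∀ V U, Ψ (glue S V U) = Ψ U) (U : Link → S3) :
    cint μ S (fun U => Ψ U * G U) U = Ψ U * cint μ S G U := by
  unfold cint
  simp only [hΨ]
  rw [integral_const_mul]

/-! ## gauge averages -/

lemma gau_gau (γ γ' : Site → S3) (U : Link → S3) : gau γ (gau γ' U) = gau (fun x => γ x * γ' x) U := by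
  funext e
  unfold gau
  simp only [mul_inv_rev, mul_assoc]

lemma continuous_gau : Continuous fun p : (Site → S3) × (Link → S3) => gau p.1 p.2 := by
  refine continuous_pi fun e => ?_
  unfold gau
  have h1 : Continuous fun p : (Site → S3) × (Link → S3) => p.1 e.1 :=
    (continuous_apply e.1).comp continuous_fst
  have h2 : Continuous fun p : (Site → S3) × (Link → S3) => p.1 (e.1 + un e.2) :=
    (continuous_apply _).comp continuous_fst
  have h3 : Continuous fun p : (Site → S3) × (Link → S3) => p.2 e :=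
    (continuous_apply e).comp continuous_snd
  exact (h1.mul h3).mul h2.inv

variable [μ.IsHaarMeasure]

lemma mp_gau (γ : Site → S3) : MeasurePreserving (gau γ) (hm μ) (hm μ) := by
  have := right_inv μ
  have hmeas : ∀ e : Link, Measurable fun a : S3 => γ e.1 * a * (γ (e.1 + un e.2))⁻¹ := fun e =>
    (measurable_const.mul measurable_id).mul measurable_const
  refine ⟨measurable_pi_lambda _ fun e => (hmeas e).comp (measurable_pi_apply e), ?_⟩
  have h := infinitePi_map_pi (μ := fun _ : Link => μ)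
    (f := fun (e : Link) (a : S3) => γ e.1 * a * (γ (e.1 + un e.2))⁻¹) hmeas
  have h2 : ∀ e : Link, μ.map (fun a : S3 => γ e.1 * a * (γ (e.1 + un e.2))⁻¹) = μ := by
    intro e
    have := ((measurePreserving_mul_right μ (γ (e.1 + un e.2))⁻¹).comp
      (measurePreserving_mul_left μ (γ e.1))).map_eq
    exact this
  simp only [h2] at h
  exact h

/-- the Haar measure on the gauge transformations -/
def gm : Measure (Site → S3) := infinitePi fun _ => μ

instance : IsProbabilityMeasure (gm μ) := by unfold gm; infer_instance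

lemma mp_gm (γ' : Site → S3) :
    MeasurePreserving (fun (γ : Site → S3) (x : Site) => γ x * γ' x) (gm μ) (gm μ) := by
  have := right_inv μ
  have hmeas : ∀ x : Site, Measurable fun a : S3 => a * γ' x := fun x =>
    measurable_mul_const (γ' x)
  refine ⟨measurable_pi_lambda _ fun x => (hmeas x).comp (measurable_pi_apply x), ?_⟩
  have h := infinitePi_map_pi (μ := fun _ : Site => μ)
    (f := fun (x : Site) (a : S3) => a * γ' x) hmeas
  have h2 : ∀ x : Site, μ.map (fun a : S3 => a * γ' x) = μ := fun x =>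
    (measurePreserving_mul_right μ (γ' x)).map_eq
  simp only [h2] at h
  exact h

/-- the gauge average -/
def av (Ψ : (Link → S3) → ℝ) (U : Link → S3) : ℝ := ∫ γ, Ψ (gau γ U) ∂(gm μ)

lemma meas_gau : Measurable fun p : (Site → S3) × (Link → S3) => gau p.1 p.2 :=
  continuous_gau.measurable

lemma meas_gau_left {Ψ : (Link → S3) → ℝ} (hΨ : Measurable Ψ) (U : Link → S3) :
    Measurable fun γ : Site → S3 => Ψ (gau γ U) := by
  have h0 : Measurable fun γ : Site → S3 => (γ, U) := measurable_prodMk_right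
  have h1 := meas_gau.comp h0
  exact hΨ.comp h1

lemma av_inv {Ψ : (Link → S3) → ℝ} (hΨ : BM Ψ) : Inv (av μ Ψ) := by
  intro γ' U
  unfold av
  simp only [gau_gau]
  have h := mp_gm μ γ'
  have hm1 := meas_gau_left hΨ.meas U
  have h2 := integral_map (μ := gm μ) h.measurable.aemeasurable hm1.aestronglyMeasurable
  rw [h.map_eq] at h2
  exact h2.symm

lemma av_dep {L : Finset Link} {Ψ : (Link → S3) → ℝ} (hd : Dep L Ψ) : Dep L (av μ Ψ) := by
  intro U V hUV
  unfold av
  congr 1
  funext γ
  refine hd _ _ fun e he => ?_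
  unfold gau
  rw [hUV e he]

lemma av_bm {Ψ : (Link → S3) → ℝ} (hΨ : BM Ψ) : BM (av μ Ψ) := by
  obtain ⟨C, hC⟩ := hΨ.bdd
  refine ⟨?_, C, fun U => ?_⟩
  · have h : StronglyMeasurable fun p : (Link → S3) × (Site → S3) => Ψ (gau p.2 p.1) :=
      (hΨ.meas.comp (meas_gau.comp measurable_swap)).stronglyMeasurable
    exact h.integral_prod_right.measurable
  · have := norm_integral_le_of_norm_le_const (μ := gm μ)
      (f := fun γ => Ψ (gau γ U)) (C := C)
      (Filter.Eventually.of_forall fun U => by rw [Real.norm_eq_abs]; exact hC _)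
    rw [Real.norm_eq_abs, probReal_univ, mul_one] at this
    exact this

lemma int_av {Ψ G : (Link → S3) → ℝ} (hΨ : BM Ψ) (hG : BM G) (hi : Inv G) :
    ∫ U, av μ Ψ U * G U ∂(hm μ) = ∫ U, Ψ U * G U ∂(hm μ) := by
  have h1 : ∀ U, av μ Ψ U * G U = ∫ γ, Ψ (gau γ U) * G (gau γ U) ∂(gm μ) := by
    intro U
    simp only [hi _ U]
    rw [integral_mul_const]
    rfl
  simp only [h1]
  rw [integral_integral_swap]
  · have h2 : ∀ γ : Site → S3, ∫ U, Ψ (gau γ U) * G (gau γ U) ∂(hm μ) = ∫ U, Ψ U * G U ∂(hm μ) := by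
      intro γ
      have h := mp_gau μ γ
      conv_rhs => rw [← h.map_eq]
      rw [integral_map h.measurable.aemeasurable (hΨ.mul hG).meas.aestronglyMeasurable]
    simp only [h2]
    simp
  · exact ((hΨ.mul hG).comp (meas_gau.comp measurable_swap)).integrable _

lemma av_abs {Ψ G : (Link → S3) → ℝ} (hΨ : BM Ψ) (hG : BM G) (hi : Inv G) (hG0 : ∀ U, 0 ≤ G U) :
    ∫ U, |av μ Ψ U| * G U ∂(hm μ) ≤ ∫ U, |Ψ U| * G U ∂(hm μ) := by
  have habs : BM fun U => |Ψ U| := ⟨hΨ.meas.abs, by
    obtain ⟨b, hb⟩ := hΨ.bdd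
    exact ⟨b, fun U => by rw [abs_abs]; exact hb U⟩⟩
  rw [← int_av μ habs hG hi]
  have habs2 : BM fun U => |av μ Ψ U| := ⟨(av_bm μ hΨ).meas.abs, by
    obtain ⟨b, hb⟩ := (av_bm μ hΨ).bdd
    exact ⟨b, fun U => by rw [abs_abs]; exact hb U⟩⟩
  refine integral_mono ((habs2.mul hG).integrable _) (((av_bm μ habs).mul hG).integrable _)
    fun U => mul_le_mul_of_nonneg_right ?_ (hG0 U)
  exact abs_integral_le_integral_abs

/-! ## the estimate for all boundary conditions -/

variable {s : ℝ} (hs0 : 0 < s) (hs : s < 2) (β : Plaq → ℝ)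
    (hβ : ∀ e : Link, ∀ T : Finset Plaq, (∀ p ∈ T, e ∈ lk p) → ∑ p ∈ T, |β p| ≤ s)
    {A : Finset Link} {K : ℝ} (hK : 0 ≤ K) {F : (Link → S3) → ℝ} (hF : Lip K A F) (hi : Inv F)

include hs0 hs hβ hK hF hi

/-- covariance bound for functions `Ψ` which need not be gauge invariant -/
theorem cov_gen (Λ : Finset Plaq) {B : Finset Link} {Ψ : (Link → S3) → ℝ} (hΨ : BM Ψ)
    (hd : Dep B Ψ) {D : ℕ} (hAB : Apart D A B) :
    |∫ U, (F U - exq μ β Λ F) * Ψ U * wt β Λ U ∂(hm μ)|
      ≤ 2 * K * A.card * (s / 2) ^ D * ∫ U, |Ψ U| * wt β Λ U ∂(hm μ) := by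
  have hw := wt_good β Λ
  have hwb : BM (wt β Λ) := ⟨hw.meas, hw.bdd⟩
  have hFb : BM F := BM.cont hF.cont
  have hg : Good B (av μ Ψ) := ⟨(av_bm μ hΨ).meas, (av_bm μ hΨ).bdd, av_dep μ hd, av_inv μ hΨ⟩
  have h1 := cov_fin4 μ hs0 hs β hβ hK hF hi Λ hg hAB
  have hZ := int_wt_pos μ β Λ
  set m := exq μ β Λ F with hmdef
  have e1 : exq μ β Λ (fun U => F U * av μ Ψ U) - m * exq μ β Λ (av μ Ψ)
      = (∫ U, (F U - m) * Ψ U * wt β Λ U ∂(hm μ)) / ∫ U, wt β Λ U ∂(hm μ) := by
    unfold exq
    rw [← mul_div_assoc, ← sub_div]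
    congr 1
    have e2 : ∫ U, F U * av μ Ψ U * wt β Λ U ∂(hm μ) = ∫ U, Ψ U * (F U * wt β Λ U) ∂(hm μ) := by
      rw [← int_av μ hΨ (hFb.mul hwb) (hi.mul' hw.inv)]
      congr 1; funext U; ring
    have e3 : ∫ U, av μ Ψ U * wt β Λ U ∂(hm μ) = ∫ U, Ψ U * wt β Λ U ∂(hm μ) :=
      int_av μ hΨ hwb hw.inv
    rw [e2, e3, ← integral_const_mul, ← integral_sub ((hΨ.mul (hFb.mul hwb)).integrable _)
      (((hΨ.mul hwb).integrable _).const_mul _)]
    congr 1; funext U; ring
  rw [e1] at h1
  have h2 : exq μ β Λ (fun U => |av μ Ψ U|) ≤ (∫ U, |Ψ U| * wt β Λ U ∂(hm μ)) / ∫ U, wt β Λ U ∂(hm μ) := by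
    unfold exq
    exact div_le_div_of_nonneg_right (av_abs μ hΨ hwb hw.inv fun U => (wt_pos _ _ _).le) hZ.le
  have h3 : 0 ≤ 2 * K * A.card * (s / 2) ^ D := by positivity
  have h4 := h1.trans (mul_le_mul_of_nonneg_left h2 h3)
  rw [abs_div, abs_of_pos hZ, ← mul_div_assoc, div_le_div_iff_of_pos_right hZ] at h4
  exact h4

lemma Inv.neg' {F : (Link → S3) → ℝ} (hF : Inv F) : Inv fun U => -F U := fun γ U => by
  show -F (gau γ U) = -F U
  rw [hF]

/-- the one-sided estimate -/
theorem bc_le (Λ : Finset Plaq) (L : Finset Link) (hAL : A ⊆ L) {D : ℕ}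
    (hAB : Apart D A ((Λ.biUnion lk) \ L)) (U : Link → S3) :
    cint μ (· ∈ L) (fun U => (F U - exq μ β Λ F) * wt β Λ U) U
      ≤ 2 * K * A.card * (s / 2) ^ D * cint μ (· ∈ L) (wt β Λ) U := by
  have hw := wt_good β Λ
  have hwb : BM (wt β Λ) := ⟨hw.meas, hw.bdd⟩
  have hFb : BM F := BM.cont hF.cont
  have hwc : Continuous (wt β Λ) := by
    unfold wt
    refine Real.continuous_exp.comp (continuous_finsetSum _ fun p _ => ?_)
    exact continuous_const.mul ((Quaternion.continuous_re.comp continuous_subtype_val).comp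
      (continuous_plq p))
  set m := exq μ β Λ F with hmdef
  set c := 2 * K * A.card * (s / 2) ^ D with hc
  set B := (Λ.biUnion lk) \ L with hB
  set G : (Link → S3) → ℝ := fun U => (F U - m - c) * wt β Λ U with hG
  have hGc : Continuous G := ((hF.cont.sub continuous_const).sub continuous_const).mul hwc
  have hNc := cont_cint μ (· ∈ L) hGc
  have hGd : Dep (L ∪ B) G := by
    intro U V hUV
    have h1 : F U = F V := hF.dep U V fun e he => hUV e (Finset.mem_union_left _ (hAL he))
    have h2 : wt β Λ U = wt β Λ V := hw.dep U V fun e he => by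
      by_cases heL : e ∈ L
      · exact hUV e (Finset.mem_union_left _ heL)
      · exact hUV e (Finset.mem_union_right _ (Finset.mem_sdiff.2 ⟨he, heL⟩))
    show (F U - m - c) * wt β Λ U = (F V - m - c) * wt β Λ V
    rw [h1, h2]
  have hNd : Dep B (cint μ (· ∈ L) G) := by
    intro U V hUV
    unfold cint
    congr 1
    funext W
    refine hGd _ _ fun e he => ?_
    by_cases heL : e ∈ L
    · rw [glue_pos heL, glue_pos heL]
    · rw [glue_neg heL, glue_neg heL]
      rcases Finset.mem_union.1 he with h | h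
      · exact absurd h heL
      · exact hUV e h
  set Ψ : (Link → S3) → ℝ := fun U => max (cint μ (· ∈ L) G U) 0 with hΨ
  have hΨc : Continuous Ψ := hNc.max continuous_const
  have hΨd : Dep B Ψ := fun U V hUV => by
    show max _ _ = max _ _
    rw [hNd U V hUV]
  have hΨ0 : ∀ U, 0 ≤ Ψ U := fun U => le_max_right _ _
  have hΨg : ∀ V U, Ψ (glue (· ∈ L) V U) = Ψ U := fun V U => hΨd _ _ fun e he =>
    glue_neg (Finset.mem_sdiff.1 he).2 V U
  have h1 := cov_gen μ hs0 hs β hβ hK hF hi Λ (BM.cont hΨc) hΨd hAB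
  rw [← hc, ← hmdef] at h1
  have h2 : ∫ U, Ψ U * G U ∂(hm μ) ≤ 0 := by
    have e1 : ∫ U, Ψ U * G U ∂(hm μ) = ∫ U, (F U - m) * Ψ U * wt β Λ U ∂(hm μ)
        - c * ∫ U, |Ψ U| * wt β Λ U ∂(hm μ) := by
      have hb1 : BM fun U => (F U - m) * Ψ U * wt β Λ U :=
        BM.cont (((hF.cont.sub continuous_const).mul hΨc).mul hwc)
      have hb2 : BM fun U => |Ψ U| * wt β Λ U := BM.cont (hΨc.abs.mul hwc)
      rw [← integral_const_mul, ← integral_sub (hb1.integrable _) ((hb2.integrable _).const_mul _)]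
      congr 1
      funext U
      rw [abs_of_nonneg (hΨ0 U), hG]
      ring
    rw [e1]
    have := (le_abs_self _).trans h1
    linarith
  have h3 : ∫ U, Ψ U * G U ∂(hm μ) = ∫ U, Ψ U * Ψ U ∂(hm μ) := by
    have hbm : BM fun U => Ψ U * G U := BM.cont (hΨc.mul hGc)
    rw [int_glue μ (· ∈ L) hbm]
    congr 1
    funext U
    rw [cint_mul μ (· ∈ L) hΨg]
    show Ψ U * cint μ (· ∈ L) G U = Ψ U * Ψ U
    rcases le_total (cint μ (· ∈ L) G U) 0 with h | h
    · have : Ψ U = 0 := max_eq_right h
      rw [this, zero_mul, zero_mul]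
    · have : Ψ U = cint μ (· ∈ L) G U := max_eq_left h
      rw [this]
  have h4 : ∫ U, Ψ U * Ψ U ∂(hm μ) = 0 :=
    le_antisymm (h3 ▸ h2) (integral_nonneg fun U => mul_self_nonneg _)
  have h5 : Ψ U = 0 := by
    have hdd : Dep B fun U => Ψ U * Ψ U := fun U V hUV => by
      show Ψ U * Ψ U = Ψ V * Ψ V
      rw [hΨd U V hUV]
    have e1 := int_ex μ B (fun U => Ψ U * Ψ U) (hΨc.mul hΨc).measurable hdd
    change ∫ U, Ψ U * Ψ U ∂(hm μ) = _ at e1
    rw [h4] at e1
    have hexc : Continuous (ex B : (B → S3) → Link → S3) := by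
      refine continuous_pi fun e => ?_
      by_cases he : e ∈ B
      · simp only [ex_mem B _ he]
        exact continuous_apply _
      · have : (fun u : B → S3 => ex B u e) = fun _ => 1 := by
          funext u; unfold ex; rw [dif_neg he]
        rw [this]
        exact continuous_const
    have hcc : Continuous fun u : B → S3 => Ψ (ex B u) * Ψ (ex B u) :=
      (hΨc.mul hΨc).comp hexc
    have h6 := (integral_eq_zero_iff_of_nonneg (μ := (Pm μ : Measure (B → S3)))
      (fun u => mul_self_nonneg (Ψ (ex B u)))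
      ((BM.of_cont hcc).integrable _)).1 e1.symm
    have h7 : (fun u : B → S3 => Ψ (ex B u) * Ψ (ex B u)) = fun _ => 0 :=
      hcc.ae_eq_iff_eq (Pm μ : Measure (B → S3)) continuous_const |>.1 h6
    have h8 := congrFun h7 (fun e => U e)
    have h9 : Ψ (ex B fun e => U e) = Ψ U := hΨd _ _ fun e he => by rw [ex_mem B _ he]
    simp only [h9] at h8
    exact mul_self_eq_zero.1 h8
  have h6 : cint μ (· ∈ L) G U ≤ 0 := by
    rw [← h5]; exact le_max_left _ _
  have e2 : cint μ (· ∈ L) G U = cint μ (· ∈ L) (fun U => (F U - m) * wt β Λ U) U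
      - c * cint μ (· ∈ L) (wt β Λ) U := by
    unfold cint
    have hb1 : BM fun U => (F U - m) * wt β Λ U :=
      BM.cont ((hF.cont.sub continuous_const).mul hwc)
    have hmg : Measurable fun V => glue (· ∈ L) V U :=
      (measurable_glue (· ∈ L)).comp (measurable_id.prodMk measurable_const)
    rw [← integral_const_mul, ← integral_sub ((hb1.comp hmg).integrable _)
      (((hwb.comp hmg).integrable _).const_mul _)]
    congr 1
    funext V
    rw [hG]
    ring
  rw [e2] at h6
  linarith

end Pool.Agent.H859.YMG
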