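import Pool.Agent.H859.YM.Uniq

/-!
# Existence of the Gibbs measure
-/

set_option autoImplicit false
set_option linter.unusedSectionVars false

noncomputable section

namespace Pool.Agent.H859.YMG

open MeasureTheory Measure Function Quaternion Filter Topology
open Pool.Agent.H556R4.Dob Pool.Agent.H556R4.SU2 Pool.Agent.V11262.ER

variable [MeasurableSpace S3] [BorelSpace S3] (μ : Measure S3) [IsProbabilityMeasure μ]

/-- the measure in finite volume -/
def fvm (β : Plaq → ℝ) (Q : Finset Plaq) : Measure (Link → S3) :=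
  (hm μ).tilted fun U => ∑ p ∈ Q, β p * ((plq U p : S3) : ℍ[ℝ]).re

instance fvm_prob (β : Plaq → ℝ) (Q : Finset Plaq) : IsProbabilityMeasure (fvm μ β Q) := by
  unfold fvm
  refine isProbabilityMeasure_tilted ?_
  exact (BM.cont (wt_cont β Q)).integrable _

lemma int_fvm (β : Plaq → ℝ) (Q : Finset Plaq) (F : (Link → S3) → ℝ) :
    ∫ U, F U ∂(fvm μ β Q) = exq μ β Q F := by
  unfold fvm exq
  rw [integral_tilted, ← integral_div]
  congr 1
  funext U
  rw [smul_eq_mul]
  show wt β Q U / (∫ U, wt β Q U ∂(hm μ)) * F U = _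
  ring

lemma plq_glue {p : Plaq} {L : Finset Link} (h : Disjoint (lk p) L) (V U : Link → S3) :
    (plq (glue (· ∈ L) V U) p : S3) = plq U p := by
  have hm : ∀ e ∈ lk p, glue (· ∈ L) V U e = U e := fun e he =>
    glue_neg (S := (· ∈ L)) (Finset.disjoint_left.1 h he) V U
  unfold plq
  rw [hm _ (mem_lk.2 (Or.inl rfl)), hm _ (mem_lk.2 (Or.inr (Or.inl rfl))),
    hm _ (mem_lk.2 (Or.inr (Or.inr (Or.inl rfl)))), hm _ (mem_lk.2 (Or.inr (Or.inr (Or.inr rfl))))]

lemma wt_glue (β : Plaq → ℝ) {L : Finset Link} {Q Q' : Finset Plaq} (hQQ : Q ⊆ Q')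
    (hQ : ∀ p, p ∉ Q → Disjoint (lk p) L) (V U : Link → S3) :
    wt β Q' (glue (· ∈ L) V U) = wt β Q (glue (· ∈ L) V U) * wt β (Q' \ Q) U := by
  unfold wt
  rw [← Real.exp_add]
  congr 1
  rw [← Finset.sum_sdiff hQQ, add_comm]
  congr 1
  exact Finset.sum_congr rfl fun p hp => by rw [plq_glue (hQ p (Finset.mem_sdiff.1 hp).2)]

lemma spec_mono (β : Plaq → ℝ) {L : Finset Link} {Q Q' : Finset Plaq} (hQQ : Q ⊆ Q')
    (hQ : ∀ p, p ∉ Q → Disjoint (lk p) L) (F : (Link → S3) → ℝ) (U : Link → S3) :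
    spec μ β L Q' F U = spec μ β L Q F U := by
  unfold spec cint
  simp only [wt_glue β hQQ hQ, ← mul_assoc]
  rw [integral_mul_const, integral_mul_const, mul_div_mul_right _ _ (wt_pos _ _ _).ne']

lemma spec_indep (β : Plaq → ℝ) {L : Finset Link} {Q Q' : Finset Plaq}
    (hQ : ∀ p, p ∉ Q → Disjoint (lk p) L) (hQ' : ∀ p, p ∉ Q' → Disjoint (lk p) L)
    (F : (Link → S3) → ℝ) (U : Link → S3) : spec μ β L Q' F U = spec μ β L Q F U := by
  rw [← spec_mono μ β (Finset.subset_union_left (s₁ := Q) (s₂ := Q')) hQ F U,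
    ← spec_mono μ β (Finset.subset_union_right (s₁ := Q) (s₂ := Q')) hQ' F U]

lemma spec_glue (β : Plaq → ℝ) (L : Finset Link) (Q : Finset Plaq) (F : (Link → S3) → ℝ)
    (V U : Link → S3) : spec μ β L Q F (glue (· ∈ L) V U) = spec μ β L Q F U := by
  have h : ∀ W : Link → S3, glue (· ∈ L) W (glue (· ∈ L) V U) = glue (· ∈ L) W U := by
    intro W
    funext e
    by_cases he : e ∈ L
    · rw [glue_pos he, glue_pos he]
    · rw [glue_neg he, glue_neg he, glue_neg he]
  unfold spec cint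
  simp only [h]

lemma fvm_dlr (β : Plaq → ℝ) (L : Finset Link) (Q : Finset Plaq) {F : (Link → S3) → ℝ}
    (hF : Continuous F) : exq μ β Q (spec μ β L Q F) = exq μ β Q F := by
  have hw := wt_cont β Q
  unfold exq
  congr 1
  have b1 : BM fun U => F U * wt β Q U := BM.cont (hF.mul hw)
  have b2 : BM fun U => spec μ β L Q F U * wt β Q U := BM.cont ((cont_spec μ β L Q hF).mul hw)
  rw [int_glue μ (· ∈ L) b1, int_glue μ (· ∈ L) b2]
  congr 1
  funext U
  have h1 := cint_mul μ (· ∈ L) (Ψ := spec μ β L Q F) (G := wt β Q)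
    (fun V U => spec_glue μ β L Q F V U) U
  rw [h1]
  unfold spec
  exact div_mul_cancel₀ _ (cint_wt_pos μ β L Q U).ne'

/-- **Existence.** -/
theorem exists_gibbs (β : Plaq → ℝ) :
    ∃ ν : Measure (Link → S3), IsProbabilityMeasure ν ∧ IsGibbs μ β ν := by
  let ρ : ℕ → ProbabilityMeasure (Link → S3) := fun n => ⟨fvm μ β (LB n), fvm_prob μ β (LB n)⟩
  obtain ⟨ν, hν⟩ := exists_clusterPt_of_compactSpace (map ρ atTop)
  obtain ⟨𝒰, h𝒰, hlim⟩ := mapClusterPt_iff_ultrafilter.1 hν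
  have hint : ∀ F : (Link → S3) → ℝ, Continuous F →
      Tendsto (fun n => exq μ β (LB n) F) 𝒰 (𝓝 (∫ U, F U ∂(ν : Measure (Link → S3)))) := by
    intro F hF
    have h1 := ProbabilityMeasure.tendsto_iff_forall_integral_tendsto.1 hlim
      (BoundedContinuousFunction.mkOfCompact ⟨F, hF⟩)
    refine h1.congr fun n => ?_
    exact int_fvm μ β (LB n) F
  refine ⟨ν, inferInstance, fun L Q hQ F hF => ?_⟩
  have h1 := hint F hF
  have h2 := hint _ (cont_spec μ β L Q hF)
  obtain ⟨n0, hn0⟩ := exists_LB Q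
  have h3 : ∀ᶠ n in atTop, exq μ β (LB n) F = exq μ β (LB n) (spec μ β L Q F) := by
    refine eventually_atTop.2 ⟨n0, fun n hn => ?_⟩
    rw [← fvm_dlr μ β L (LB n) hF]
    congr 1
    funext U
    exact spec_mono μ β (hn0.trans (LB_mono hn)) hQ F U
  exact tendsto_nhds_unique (h1.congr' (h𝒰 h3)) h2

end Pool.Agent.H859.YMG
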