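import Pool.Agent.H859.YM.Infl4

/-!
# Exponential clustering in finite volume, up to the sum `2` of the couplings of a link
-/

set_option autoImplicit false
set_option linter.unusedSectionVars false

noncomputable section

namespace Pool.Agent.H859.YMG

open MeasureTheory Measure Function Quaternion Filter Topology
open Pool.Agent.H556R4.Dob Pool.Agent.H556R4.SU2 Pool.Agent.V11262.ER
open Pool.Agent.H859.YM (HH_infl4)

variable [MeasurableSpace S3] [BorelSpace S3] (μ : Measure S3) [IsProbabilityMeasure μ]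
  [μ.IsHaarMeasure]

theorem compare4 {s : ℝ} (hs0 : 0 < s) (hs : s < 2) (β : Plaq → ℝ) (Λ : Finset Plaq)
    (hβ : ∀ e : Link, ∑ p ∈ Λ.filter (fun p => e ∈ lk p), |β p| ≤ s) (A B L : Finset Link)
    (D : ℕ) (hAB : ∀ e ∈ A, ∀ f ∈ B, (D : ℝ) ≤ dist e.1 f.1) {K : ℝ} (hK : 0 ≤ K)
    {F : (Link → S3) → ℝ} (hF : Lip K A F) (hi : Inv F) (v v' : L → S3) :
    |I μ (Finset.univ.filter fun y : L => y.1 ∉ B) (HH L β Λ) v (fun u => F (gf L u))
        / Z μ (Finset.univ.filter fun y : L => y.1 ∉ B) (HH L β Λ) v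
      - I μ (Finset.univ.filter fun y : L => y.1 ∉ B) (HH L β Λ) v' (fun u => F (gf L u))
        / Z μ (Finset.univ.filter fun y : L => y.1 ∉ B) (HH L β Λ) v'|
      ≤ 2 * K * A.card * (s / 2) ^ D := by
  set S : Finset L := Finset.univ.filter fun y : L => y.1 ∉ B with hS
  have h3 : (0 : ℝ) < 2 := by norm_num
  obtain ⟨r, hr1, hr2, hr3⟩ := exists_r A B D hAB
  set m : ℝ := Real.log (2 / s) with hm
  have hm0 : 0 < m := Real.log_pos (by rw [one_lt_div hs0]; exact hs)
  have hem : Real.exp m = 2 / s := Real.exp_log (by positivity)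
  set w : Link → ℝ := fun e => 2 * Real.exp (m * (min (r e.1) D - D)) with hw
  have hwpos : ∀ e, 0 < w e := fun e => by rw [hw]; positivity
  have key : P μ chord S (HH L β Λ) v v' (fun y => w y.1) := by
    refine comparison μ (HH_dens L β Λ) (C := fun x y => 1 / 4 * cpl β Λ x.1 y.1)
      (ρ := s / 2) (fun y => (hwpos _).le) zero_le_two chord_cost (fun y hy => ?_)
      (fun x _ y hyx => HH_infl4 μ L β Λ hs.le hβ x y hyx) (fun x y => ?_) (by positivity) ?_
      (fun x hx => ?_) (fun x hx => ?_)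
    · have hyB : y.1 ∈ B := by
        by_contra h
        exact hy (Finset.mem_filter.2 ⟨Finset.mem_univ _, h⟩)
      have h1 : min (r y.1.1) (D : ℝ) = D := min_eq_right (hr2 _ hyB)
      show chord _ _ ≤ 2 * Real.exp (m * (min (r y.1.1) D - D))
      rw [h1, sub_self, mul_zero, Real.exp_zero, mul_one]
      exact chord_cost.le _ _
    · have := cpl_nonneg β Λ x.1 y.1
      positivity
    · rw [div_lt_one h3]; exact hs
    · have h1 := row β Λ L x (Finset.univ.erase x) w (Real.exp m * w x.1)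
        (by have := hwpos x.1; positivity) (fun p _ hxp y hyp => ?_) (hβ x.1)
        (Finset.notMem_erase _ _)
      · have h2 : ∑ y ∈ Finset.univ.erase x, 1 / 4 * cpl β Λ x.1 y.1 * w y.1
            = 1 / 4 * ∑ y ∈ Finset.univ.erase x, cpl β Λ x.1 y.1 * w y.1 := by
          rw [Finset.mul_sum]
          exact Finset.sum_congr rfl fun y _ => by ring
        rw [h2]
        refine (mul_le_mul_of_nonneg_left h1 (by positivity)).trans (le_of_eq ?_)
        rw [hem]
        field_simp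
        ring
      · rw [hw]
        simp only
        have h5 := hr1 x.1.1 y.1
        have h6 := dist_lk hxp hyp
        have h7 : min (r y.1) (D : ℝ) ≤ min (r x.1.1) D + 1 := by
          rcases le_total (r x.1.1) (D : ℝ) with h | h
          · rw [min_eq_left h]
            exact (min_le_left _ _).trans (by linarith)
          · rw [min_eq_right h]
            exact (min_le_right _ _).trans (by linarith)
        have h8 : Real.exp (m * (min (r y.1) D - D))
            ≤ Real.exp m * Real.exp (m * (min (r x.1.1) D - D)) := by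
          rw [← Real.exp_add]
          refine Real.exp_le_exp.2 ?_
          nlinarith
        linarith
    · have h1 := row β Λ L x (S.erase x) (fun _ => 1) 1 zero_le_one
        (fun p _ _ y _ => le_rfl) (hβ x.1) (Finset.notMem_erase _ _)
      have h2 : ∑ y ∈ S.erase x, 1 / 4 * cpl β Λ x.1 y.1
          = 1 / 4 * ∑ y ∈ S.erase x, cpl β Λ x.1 y.1 * 1 := by
        rw [Finset.mul_sum]
        exact Finset.sum_congr rfl fun y _ => by ring
      rw [h2]
      refine (mul_le_mul_of_nonneg_left h1 (by positivity)).trans (le_of_eq ?_)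
      ring
  have h1 := key _ _ ((hF.good hK hi).bm (L := L)) (osc_gf hK hF L)
  refine h1.trans ?_
  have h2 : ∀ y : L, w y.1 * (if y.1 ∈ A then K else 0)
      = if y.1 ∈ A then 2 * K * (s / 2) ^ D else 0 := by
    intro y
    by_cases hy : y.1 ∈ A
    · rw [if_pos hy, if_pos hy]
      have h4 : w y.1 = 2 * (s / 2) ^ D := by
        rw [hw]
        simp only
        have h9 : m * (0 - (D : ℝ)) = -((D : ℝ) * m) := by ring
        rw [hr3 _ hy, min_eq_left (by positivity : (0 : ℝ) ≤ D), h9, Real.exp_neg,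
          Real.exp_nat_mul, hem, ← inv_pow, inv_div]
      rw [h4]; ring
    · rw [if_neg hy, if_neg hy, mul_zero]
  rw [Finset.sum_congr rfl fun y _ => h2 y, ← Finset.sum_filter, Finset.sum_const, nsmul_eq_mul]
  have h5 : ((Finset.univ.filter fun y : L => y.1 ∈ A).card : ℝ) ≤ A.card := by
    have h6 : ((Finset.univ.filter fun y : L => y.1 ∈ A).map (Embedding.subtype _)) ⊆ A := by
      intro z hz
      rw [Finset.mem_map] at hz
      obtain ⟨y, hy, rfl⟩ := hz
      exact (Finset.mem_filter.1 hy).2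
    have h7 := Finset.card_le_card h6
    rw [Finset.card_map] at h7
    exact_mod_cast h7
  have h8 : 0 ≤ 2 * K * (s / 2) ^ D := by positivity
  have := mul_le_mul_of_nonneg_right h5 h8
  linarith

/-- **Clustering in finite volume.** -/
theorem fv4 {s : ℝ} (hs0 : 0 < s) (hs : s < 2) (β : Plaq → ℝ) (Λ : Finset Plaq)
    (hβ : ∀ e : Link, ∑ p ∈ Λ.filter (fun p => e ∈ lk p), |β p| ≤ s) (A B : Finset Link)
    (D : ℕ) (hAB : ∀ e ∈ A, ∀ f ∈ B, (D : ℝ) ≤ dist e.1 f.1) {K : ℝ} (hK : 0 ≤ K)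
    {F h : (Link → S3) → ℝ} (hF : Lip K A F) (hi : Inv F) (hh : Good B h) :
    |(∫ U, F U * h U * wt β Λ U ∂(hm μ)) * (∫ U, wt β Λ U ∂(hm μ))
      - (∫ U, F U * wt β Λ U ∂(hm μ)) * (∫ U, h U * wt β Λ U ∂(hm μ))|
      ≤ 2 * K * A.card * (s / 2) ^ D
        * ((∫ U, |h U| * wt β Λ U ∂(hm μ)) * ∫ U, wt β Λ U ∂(hm μ)) := by
  have := right_inv μ
  set L : Finset Link := A ∪ B ∪ Λ.biUnion lk with hL
  have gF : Good L F := (hF.good hK hi).mono (by
    rw [hL, Finset.union_assoc]; exact Finset.subset_union_left)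
  have gh : Good L h := hh.mono (by
    rw [hL]; exact Finset.subset_union_right.trans Finset.subset_union_left)
  have gW : Good L (wt β Λ) := (wt_good β Λ).mono Finset.subset_union_right
  have conv : ∀ Φ : (Link → S3) → ℝ, Good L Φ →
      ∫ U, Φ U ∂(hm μ) = ∫ u, Φ (gf L u) ∂(Pm μ : Measure (L → S3)) := by
    intro Φ hΦ
    obtain ⟨C, hC⟩ := hΦ.bdd
    exact gauge_fix μ DD L Φ hΦ.meas hC hΦ.dep hΦ.inv
  rw [conv _ ((gF.mul gh).mul gW), conv _ gW, conv _ (gF.mul gW), conv _ (gh.mul gW),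
    conv _ (gh.abs.mul gW)]
  refine cov_le μ (HH_dens L β Λ) (Finset.univ.filter fun y : L => y.1 ∉ B) gF.bm gh.bm
    (fun U v => ?_) fun v v' => compare4 μ hs0 hs β Λ hβ A B L D hAB hK hF hi v v'
  refine hh.dep _ _ fun e he => ?_
  by_cases hf : Fx e
  · rw [gf_fixed _ hf, gf_fixed _ hf]
  · have heL : e ∈ L := by
      rw [hL]; exact Finset.mem_union_left _ (Finset.mem_union_right _ he)
    rw [gf_unfixed _ ⟨e, heL⟩ hf, gf_unfixed _ ⟨e, heL⟩ hf]
    unfold merge
    rw [if_neg]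
    intro h'
    exact (Finset.mem_filter.1 h').2 he

variable {s : ℝ} (hs0 : 0 < s) (hs : s < 2) (β : Plaq → ℝ)
    (hβ : ∀ e : Link, ∀ T : Finset Plaq, (∀ p ∈ T, e ∈ lk p) → ∑ p ∈ T, |β p| ≤ s)
    {A : Finset Link} {K : ℝ} (hK : 0 ≤ K) {F : (Link → S3) → ℝ} (hF : Lip K A F) (hi : Inv F)

include hs0 hs hβ hK hF hi

theorem cov_fin4 (Λ : Finset Plaq) {B : Finset Link} {h : (Link → S3) → ℝ} (hh : Good B h) {D : ℕ}
    (hAB : Apart D A B) :
    |exq μ β Λ (fun U => F U * h U) - exq μ β Λ F * exq μ β Λ h|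
      ≤ 2 * K * A.card * (s / 2) ^ D * exq μ β Λ fun U => |h U| := by
  have h1 := fv4 μ hs0 hs β Λ (fun e => hβ e _ fun p hp => (Finset.mem_filter.1 hp).2) A B D hAB hK
    hF hi hh
  have hZ := int_wt_pos μ β Λ
  unfold exq
  set Z := ∫ U, wt β Λ U ∂(hm μ) with hZd
  have e1 : (∫ U, F U * h U * wt β Λ U ∂(hm μ)) / Z
      - (∫ U, F U * wt β Λ U ∂(hm μ)) / Z * ((∫ U, h U * wt β Λ U ∂(hm μ)) / Z)
      = ((∫ U, F U * h U * wt β Λ U ∂(hm μ)) * Z
        - (∫ U, F U * wt β Λ U ∂(hm μ)) * ∫ U, h U * wt β Λ U ∂(hm μ)) / Z ^ 2 := by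
    field_simp
  rw [e1, abs_div, abs_of_pos (by positivity : 0 < Z ^ 2), div_le_iff₀ (by positivity)]
  refine h1.trans (le_of_eq ?_)
  field_simp

theorem far4 (Λ Λ' : Finset Plaq) (hΛ : Λ ⊆ Λ') {D : ℕ}
    (hD : ∀ p, p ∉ Λ → Apart D A (lk p)) :
    |exq μ β Λ' F - exq μ β Λ F| ≤ 2 * K * A.card * (s / 2) ^ D := by
  set h : (Link → S3) → ℝ := wt β (Λ' \ Λ) with hh
  have hw : ∀ U, wt β Λ' U = h U * wt β Λ U := by
    intro U
    rw [hh]
    unfold wt
    rw [← Real.exp_add, Finset.sum_sdiff hΛ]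
  have h1 := cov_fin4 μ hs0 hs β hβ hK hF hi Λ (wt_good β (Λ' \ Λ)) (D := D) (by
    intro e he f hf
    rw [Finset.mem_biUnion] at hf
    obtain ⟨p, hp, hfp⟩ := hf
    exact hD p (Finset.mem_sdiff.1 hp).2 e he f hfp)
  have habs : (fun U => |wt β (Λ' \ Λ) U|) = wt β (Λ' \ Λ) := by
    funext U
    exact abs_of_pos (wt_pos _ _ _)
  rw [habs] at h1
  have hZ := int_wt_pos μ β Λ
  have hZ' := int_wt_pos μ β Λ'
  have hE : 0 < exq μ β Λ h := by
    unfold exq
    refine div_pos ?_ hZ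
    simp only [← hw]
    exact hZ'
  have e2 : exq μ β Λ' F = exq μ β Λ (fun U => F U * h U) / exq μ β Λ h := by
    unfold exq
    simp only [mul_assoc, ← hw]
    rw [div_div_div_cancel_right₀ hZ.ne']
  rw [e2]
  have e3 : exq μ β Λ (fun U => F U * h U) / exq μ β Λ h - exq μ β Λ F
      = (exq μ β Λ (fun U => F U * h U) - exq μ β Λ F * exq μ β Λ h) / exq μ β Λ h := by
    field_simp
  rw [e3, abs_div, abs_of_pos hE, div_le_iff₀ hE]
  exact h1

theorem lim4 : Tendsto (fun n => exq μ β (LB n) F) atTop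
    (𝓝 (limUnder atTop fun n => exq μ β (LB n) F)) := by
  obtain ⟨M, hM⟩ := far_LB A
  have h3 : (0 : ℝ) < 2 := by norm_num
  refine CauchySeq.tendsto_limUnder ?_
  refine cauchySeq_of_le_tendsto_0
    (fun n => 2 * K * A.card * (s / 2) ^ (n - M) * 2) ?_ ?_
  · intro n n' N hn hn'
    have h1 := far4 μ hs0 hs β hβ hK hF hi _ _ (LB_mono hn) (fun p hp => hM N p hp)
    have h2 := far4 μ hs0 hs β hβ hK hF hi _ _ (LB_mono hn') (fun p hp => hM N p hp)
    rw [Real.dist_eq]
    rw [abs_le] at h1 h2 ⊢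
    constructor <;> linarith [h1.1, h1.2, h2.1, h2.2]
  · have h1 : Tendsto (fun n : ℕ => (s / 2) ^ n) atTop (𝓝 0) :=
      tendsto_pow_atTop_nhds_zero_of_lt_one (by positivity) (by rw [div_lt_one h3]; exact hs)
    have h2 : Tendsto (fun n : ℕ => n - M) atTop atTop := tendsto_sub_atTop_nat M
    have h4 := ((h1.comp h2).const_mul (2 * K * A.card)).mul_const 2
    simpa using h4

theorem state_bd4 (Λ : Finset Plaq) {D : ℕ} (hD : ∀ p, p ∉ Λ → Apart D A (lk p)) :
    |exq μ β Λ F - limUnder atTop (fun n => exq μ β (LB n) F)|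
      ≤ 2 * K * A.card * (s / 2) ^ D := by
  have h1 := ((lim4 μ hs0 hs β hβ hK hF hi).const_sub (exq μ β Λ F)).abs
  obtain ⟨n0, hn0⟩ := exists_LB Λ
  refine le_of_tendsto h1 (eventually_atTop.2 ⟨n0, fun n hn => ?_⟩)
  rw [abs_sub_comm]
  exact far4 μ hs0 hs β hβ hK hF hi _ _ (hn0.trans (LB_mono hn)) hD

end Pool.Agent.H859.YMG
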