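import Pool.Agent.H859.YM.Bc

/-!
# Gibbs measures: gauge invariance, uniqueness, speed of convergence
-/

set_option autoImplicit false
set_option linter.unusedSectionVars false

noncomputable section

namespace Pool.Agent.H859.YMG

open MeasureTheory Measure Function Quaternion Filter Topology
open Pool.Agent.H556R4.Dob Pool.Agent.H556R4.SU2 Pool.Agent.V11262.ER

/-- end points of the links of `A` -/
def ends (A : Finset Link) : Finset Site :=
  A.image (fun e => e.1) ∪ A.image (fun e => e.1 + un e.2)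

lemma mem_ends1 {A : Finset Link} {e : Link} (he : e ∈ A) : e.1 ∈ ends A :=
  Finset.mem_union_left _ (Finset.mem_image_of_mem _ he)

lemma mem_ends2 {A : Finset Link} {e : Link} (he : e ∈ A) : e.1 + un e.2 ∈ ends A :=
  Finset.mem_union_right _ (Finset.mem_image_of_mem (fun e : Link => e.1 + un e.2) he)

/-- the links which touch a site of `X` -/
def star' (X : Finset Site) : Finset Link :=
  X.biUnion fun x => Finset.univ.biUnion fun i : Fin 4 => {(x, i), (x - un i, i)}

lemma mem_star {X : Finset Site} {e : Link} : e ∈ star' X ↔ e.1 ∈ X ∨ e.1 + un e.2 ∈ X := by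
  unfold star'
  simp only [Finset.mem_biUnion, Finset.mem_univ, true_and, Finset.mem_insert,
    Finset.mem_singleton]
  constructor
  · rintro ⟨x, hx, i, h | h⟩
    · left; rw [h]; exact hx
    · right; rw [h]; simpa using hx
  · rintro (h | h)
    · exact ⟨e.1, h, e.2, Or.inl rfl⟩
    · exact ⟨e.1 + un e.2, h, e.2, Or.inr (by simp)⟩

/-- restriction of a gauge transformation -/
def cut (X : Finset Site) (γ : Site → S3) : Site → S3 := fun x => if x ∈ X then γ x else 1

lemma cut_mem {X : Finset Site} {x : Site} (h : x ∈ X) (γ : Site → S3) : cut X γ x = γ x := if_pos h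

lemma cut_not {X : Finset Site} {x : Site} (h : x ∉ X) (γ : Site → S3) : cut X γ x = 1 := if_neg h

lemma gau_cut_not {X : Finset Site} {e : Link} (h : e ∉ star' X) (γ : Site → S3) (U : Link → S3) :
    gau (cut X γ) U e = U e := by
  rw [mem_star, not_or] at h
  unfold gau
  rw [cut_not h.1, cut_not h.2, one_mul, inv_one, mul_one]

lemma gau_cut_mem {A : Finset Link} {e : Link} (h : e ∈ A) (γ : Site → S3) (U : Link → S3) :
    gau (cut (ends A) γ) U e = gau γ U e := by
  unfold gau
  rw [cut_mem (mem_ends1 h), cut_mem (mem_ends2 h)]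

lemma exists_Q (L : Finset Link) : ∃ Q : Finset Plaq, ∀ p, p ∉ Q → Disjoint (lk p) L := by
  obtain ⟨M, hM⟩ := far_LB L
  refine ⟨LB (M + 1), fun p hp => Finset.disjoint_left.2 fun e he heL => ?_⟩
  have h1 := hM (M + 1) p hp e heL e he
  rw [dist_self] at h1
  have h2 : ((M + 1 - M : ℕ) : ℝ) = 1 := by
    rw [Nat.add_sub_cancel_left]; norm_num
  rw [h2] at h1
  linarith

variable [MeasurableSpace S3] [BorelSpace S3] (μ : Measure S3) [IsProbabilityMeasure μ]

lemma wt_cont (β : Plaq → ℝ) (Λ : Finset Plaq) : Continuous (wt β Λ) := by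
  unfold wt
  refine Real.continuous_exp.comp (continuous_finsetSum _ fun p _ => ?_)
  exact continuous_const.mul ((Quaternion.continuous_re.comp continuous_subtype_val).comp
    (continuous_plq p))

/-- conditional expectations -/
def spec (β : Plaq → ℝ) (L : Finset Link) (Q : Finset Plaq) (F : (Link → S3) → ℝ)
    (U : Link → S3) : ℝ :=
  cint μ (· ∈ L) (fun U => F U * wt β Q U) U / cint μ (· ∈ L) (wt β Q) U

/-- Gibbs measures -/
def IsGibbs (β : Plaq → ℝ) (ν : Measure (Link → S3)) : Prop :=
  ∀ (L : Finset Link) (Q : Finset Plaq), (∀ p, p ∉ Q → Disjoint (lk p) L) →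
    ∀ F : (Link → S3) → ℝ, Continuous F → ∫ U, F U ∂ν = ∫ U, spec μ β L Q F U ∂ν

lemma cint_wt_pos (β : Plaq → ℝ) (L : Finset Link) (Q : Finset Plaq) (U : Link → S3) :
    0 < cint μ (· ∈ L) (wt β Q) U := by
  have hw := wt_cont β Q
  have hmg : Measurable fun V => glue (· ∈ L) V U :=
    (measurable_glue (· ∈ L)).comp (measurable_id.prodMk measurable_const)
  exact integral_pos_of_lb _ ((BM.cont hw).comp hmg) (Real.exp_pos (-∑ p ∈ Q, |β p|))
    fun V => (wt_bds β Q _).1

lemma cont_spec (β : Plaq → ℝ) (L : Finset Link) (Q : Finset Plaq) {F : (Link → S3) → ℝ}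
    (hF : Continuous F) : Continuous (spec μ β L Q F) :=
  (cont_cint μ _ (hF.mul (wt_cont β Q))).div (cont_cint μ _ (wt_cont β Q)) fun U =>
    (cint_wt_pos μ β L Q U).ne'

variable [μ.IsHaarMeasure]

lemma cint_gau (L : Finset Link) (X : Finset Site) (hX : star' X ⊆ L) (γ : Site → S3)
    {G : (Link → S3) → ℝ} (hG : Continuous G) (U : Link → S3) :
    cint μ (· ∈ L) (fun U => G (gau (cut X γ) U)) U = cint μ (· ∈ L) G U := by
  have h := mp_gau μ (cut X γ)
  have e1 : ∀ V, gau (cut X γ) (glue (· ∈ L) V U) = glue (· ∈ L) (gau (cut X γ) V) U := by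
    intro V
    funext e
    by_cases he : e ∈ L
    · rw [glue_pos he]
      unfold gau
      rw [glue_pos he]
    · rw [glue_neg he, gau_cut_not (fun h => he (hX h)), glue_neg he]
  unfold cint
  simp only [e1]
  have hmg : Measurable fun V => glue (· ∈ L) V U :=
    (measurable_glue (· ∈ L)).comp (measurable_id.prodMk measurable_const)
  have h2 := integral_map (μ := hm μ) h.measurable.aemeasurable
    (hG.measurable.comp hmg).aestronglyMeasurable
  rw [h.map_eq] at h2
  exact h2.symm

lemma spec_gau (β : Plaq → ℝ) (L : Finset Link) (Q : Finset Plaq) (X : Finset Site)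
    (hX : star' X ⊆ L) (γ : Site → S3) {F : (Link → S3) → ℝ} (hF : Continuous F) (U : Link → S3) :
    spec μ β L Q (fun U => F (gau (cut X γ) U)) U = spec μ β L Q F U := by
  unfold spec
  congr 1
  have e1 : (fun U => F (gau (cut X γ) U) * wt β Q U)
      = fun U => (fun U => F U * wt β Q U) (gau (cut X γ) U) := by
    funext U
    simp only
    rw [(wt_good β Q).inv]
  rw [e1]
  exact cint_gau μ L X hX γ (hF.mul (wt_cont β Q)) U

lemma gau_cont (γ : Site → S3) : Continuous (gau γ) := by
  have h0 : Continuous fun U : Link → S3 => (γ, U) := Continuous.prodMk_right γ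
  have h1 := continuous_gau.comp h0
  exact h1

lemma meas_gau_swap : Measurable fun p : (Link → S3) × (Site → S3) => gau p.2 p.1 := by
  have h0 : Measurable (Prod.swap : (Link → S3) × (Site → S3) → (Site → S3) × (Link → S3)) :=
    measurable_swap
  have h1 := meas_gau.comp h0
  exact h1

section

variable {β : Plaq → ℝ} {ν : Measure (Link → S3)} [IsProbabilityMeasure ν] (hν : IsGibbs μ β ν)

include hν

lemma gibbs_cut (X : Finset Site) (γ : Site → S3) {F : (Link → S3) → ℝ} (hF : Continuous F) :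
    ∫ U, F (gau (cut X γ) U) ∂ν = ∫ U, F U ∂ν := by
  obtain ⟨Q, hQ⟩ := exists_Q (star' X)
  have h1 := hν (star' X) Q hQ _ (hF.comp (gau_cont (cut X γ)))
  simp only [Function.comp_def] at h1
  rw [hν (star' X) Q hQ _ hF, h1]
  congr 1
  funext U
  exact spec_gau μ β (star' X) Q X (Finset.Subset.refl _) γ hF U

lemma gibbs_gau (γ : Site → S3) {A : Finset Link} {F : (Link → S3) → ℝ} (hF : Continuous F)
    (hd : Dep A F) : ∫ U, F (gau γ U) ∂ν = ∫ U, F U ∂ν := by
  rw [← gibbs_cut μ hν (ends A) γ hF]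
  congr 1
  funext U
  exact hd _ _ fun e he => (gau_cut_mem he γ U).symm

lemma gibbs_av {A : Finset Link} {F : (Link → S3) → ℝ} (hF : Continuous F)
    (hd : Dep A F) : ∫ U, av μ F U ∂ν = ∫ U, F U ∂ν := by
  unfold av
  rw [integral_integral_swap]
  · simp only [gibbs_gau μ hν _ hF hd]
    simp
  · exact ((BM.cont hF).comp meas_gau_swap).integrable _

end

lemma norm_gau (γ : Site → S3) (U V : Link → S3) (e : Link) :
    ‖((gau γ U e : S3) : ℍ[ℝ]) - ((gau γ V e : S3) : ℍ[ℝ])‖ = ‖(U e : ℍ[ℝ]) - V e‖ := by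
  unfold gau
  push_cast
  rw [← sub_mul, ← mul_sub, norm_mul, norm_mul, norm_coe', norm_inv, norm_coe', inv_one, one_mul,
    mul_one]

lemma av_lip {K : ℝ} {A : Finset Link} {F : (Link → S3) → ℝ} (hF : Lip K A F) :
    Lip K A (av μ F) := by
  intro U V
  have hb := BM.cont hF.cont
  have h1 : ∀ U, Integrable (fun γ => F (gau γ U)) (gm μ) := fun U => by
    obtain ⟨C, hC⟩ := hb.bdd
    exact Integrable.of_bound (meas_gau_left hb.meas U).aestronglyMeasurable C
      (Filter.Eventually.of_forall fun γ => by rw [Real.norm_eq_abs]; exact hC _)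
  unfold av
  rw [← integral_sub (h1 U) (h1 V)]
  refine abs_integral_le_integral_abs.trans ?_
  have h2 : ∀ γ, |F (gau γ U) - F (gau γ V)| ≤ K * ∑ e ∈ A, ‖(U e : ℍ[ℝ]) - V e‖ := by
    intro γ
    refine (hF _ _).trans (le_of_eq ?_)
    congr 1
    exact Finset.sum_congr rfl fun e _ => norm_gau γ U V e
  have h3 := integral_mono (μ := gm μ) ((h1 U).sub (h1 V)).abs (integrable_const _) h2
  simpa using h3

/-! ## finite volume, functions which are not gauge invariant -/

lemma int_gau_wt (β : Plaq → ℝ) (Λ : Finset Plaq) {F : (Link → S3) → ℝ} (hF : BM F)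
    (γ : Site → S3) : ∫ U, F (gau γ U) * wt β Λ U ∂(hm μ) = ∫ U, F U * wt β Λ U ∂(hm μ) := by
  have h := mp_gau μ γ
  have hw := wt_good β Λ
  have h2 := integral_map (μ := hm μ) (f := fun U => F U * wt β Λ U) h.measurable.aemeasurable
    (hF.mul ⟨hw.meas, hw.bdd⟩).meas.aestronglyMeasurable
  rw [h.map_eq] at h2
  rw [h2]
  congr 1
  funext U
  rw [hw.inv]

lemma exq_av (β : Plaq → ℝ) (Λ : Finset Plaq) {F : (Link → S3) → ℝ} (hF : BM F) :
    exq μ β Λ (av μ F) = exq μ β Λ F := by
  have hw := wt_good β Λ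
  unfold exq
  rw [int_av μ hF ⟨hw.meas, hw.bdd⟩ hw.inv]

/-- links far from the end points of `A` -/
lemma far_star {A B : Finset Link} {D : ℕ} (hD : 2 ≤ D) (hAB : Apart D A B) {f : Link}
    (hf : f ∈ B) : f ∉ star' (ends A) := by
  intro h
  have key : ∀ e ∈ A, ∀ x : Site, (x = e.1 ∨ x = e.1 + un e.2) → (f.1 = x ∨ f.1 + un f.2 = x) →
      False := by
    intro e he x hx hfx
    have h1 := hAB e he f hf
    have h2 : (2 : ℝ) ≤ dist e.1 f.1 := le_trans (by exact_mod_cast hD) h1
    have h3 : dist e.1 f.1 ≤ 1 := by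
      rw [dist_pi_le_iff zero_le_one]
      intro k
      rw [Int.dist_eq]
      have hu : ∀ i : Fin 4, (un i) k = 0 ∨ (un i) k = 1 := by
        intro i
        unfold un
        by_cases hk : k = i
        · subst hk; right; rw [Pi.single_eq_same]
        · left; rw [Pi.single_eq_of_ne hk]
      have h5 : |e.1 k - f.1 k| ≤ 1 := by
        have hfk : f.1 k = x k ∨ f.1 k + un f.2 k = x k := by
          rcases hfx with h | h
          · left; rw [h]
          · right; rw [← h]; rfl
        have hxk : x k = e.1 k ∨ x k = e.1 k + un e.2 k := by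
          rcases hx with h | h
          · left; rw [h]
          · right; rw [h]; rfl
        rw [abs_le]
        rcases hu e.2 with h6 | h6 <;> rcases hu f.2 with h7 | h7 <;> rcases hfk with h8 | h8 <;>
          rcases hxk with h9 | h9 <;> constructor <;> omega
      exact_mod_cast h5
    linarith
  rw [mem_star] at h
  have hex : ∀ x ∈ ends A, ∃ e ∈ A, x = e.1 ∨ x = e.1 + un e.2 := by
    intro x hx
    rcases Finset.mem_union.1 hx with h | h
    · obtain ⟨e, he, h1⟩ := Finset.mem_image.1 h
      exact ⟨e, he, Or.inl h1.symm⟩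
    · obtain ⟨e, he, h1⟩ := Finset.mem_image.1 h
      exact ⟨e, he, Or.inr h1.symm⟩
  rcases h with h | h
  · obtain ⟨e, he, h1⟩ := hex _ h
    exact key e he _ h1 (Or.inl rfl)
  · obtain ⟨e, he, h1⟩ := hex _ h
    exact key e he _ h1 (Or.inr rfl)

lemma exq_av2 (β : Plaq → ℝ) (Λ : Finset Plaq) {A B : Finset Link} {F h : (Link → S3) → ℝ}
    (hF : BM F) (hh : BM h) (hFd : Dep A F) (hhd : Dep B h) {D : ℕ} (hD : 2 ≤ D)
    (hAB : Apart D A B) :
    exq μ β Λ (fun U => av μ F U * av μ h U) = exq μ β Λ (fun U => F U * h U) := by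
  have hw := wt_good β Λ
  have hwb : BM (wt β Λ) := ⟨hw.meas, hw.bdd⟩
  unfold exq
  congr 1
  have e1 : ∀ γ : Site → S3, ∫ U, F (gau γ U) * h U * wt β Λ U ∂(hm μ)
      = ∫ U, F U * h U * wt β Λ U ∂(hm μ) := by
    intro γ
    rw [← int_gau_wt μ β Λ (hF.mul hh) (cut (ends A) γ)]
    congr 1
    funext U
    congr 2
    · exact hFd _ _ fun e he => (gau_cut_mem he γ U).symm
    · exact hhd _ _ fun e he => (gau_cut_not (far_star hD hAB he) γ U).symm
  have e2 : ∫ U, av μ F U * h U * wt β Λ U ∂(hm μ) = ∫ U, F U * h U * wt β Λ U ∂(hm μ) := by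
    have h1 : ∀ U, av μ F U * h U * wt β Λ U = ∫ γ, F (gau γ U) * h U * wt β Λ U ∂(gm μ) := by
      intro U
      rw [integral_mul_const, integral_mul_const]
      rfl
    simp only [h1]
    rw [integral_integral_swap]
    · simp only [e1]
      simp
    · have b1 : BM fun p : (Link → S3) × (Site → S3) => F (gau p.2 p.1) :=
        hF.comp meas_gau_swap
      have b2 : BM fun p : (Link → S3) × (Site → S3) => h p.1 := hh.comp measurable_fst
      have b3 : BM fun p : (Link → S3) × (Site → S3) => wt β Λ p.1 := hwb.comp measurable_fst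
      exact ((b1.mul b2).mul b3).integrable _
  rw [← e2]
  have e3 := int_av μ hh ((av_bm μ hF).mul hwb) ((av_inv μ hF).mul' hw.inv)
  have e4 : ∫ U, av μ F U * av μ h U * wt β Λ U ∂(hm μ)
      = ∫ U, av μ h U * (av μ F U * wt β Λ U) ∂(hm μ) := by
    congr 1; funext U; ring
  rw [e4, e3]
  congr 1; funext U; ring

end Pool.Agent.H859.YMG
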