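import Pool.Agent.H859.YM.Ball

/-!
# The gradient theorem for the unit ball of the quaternions
-/

set_option autoImplicit false
set_option linter.unusedSectionVars false

noncomputable section

namespace Pool.Agent.H859.YM

open MeasureTheory Quaternion Set
open Pool.Agent.H556R4.SU2 (S3 norm_coe' qI qJ qK)

lemma inner4 (x y : ℍ[ℝ]) : inner ℝ x y = x.re * y.re + x.imI * y.imI + x.imJ * y.imJ
    + x.imK * y.imK := by
  rw [inner_def, Quaternion.re_mul]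
  simp

lemma prodI (x : ℍ[ℝ]) : (x * qI).re = -x.imI ∧ (x * qI).imI = x.re ∧ (x * qI).imJ = x.imK
    ∧ (x * qI).imK = -x.imJ := by
  refine ⟨?_, ?_, ?_, ?_⟩
  · rw [Quaternion.re_mul]; simp [qI]
  · rw [Quaternion.imI_mul]; simp [qI]
  · rw [Quaternion.imJ_mul]; simp [qI]
  · rw [Quaternion.imK_mul]; simp [qI]

lemma prodJ (x : ℍ[ℝ]) : (x * qJ).re = -x.imJ ∧ (x * qJ).imI = -x.imK ∧ (x * qJ).imJ = x.re
    ∧ (x * qJ).imK = x.imI := by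
  refine ⟨?_, ?_, ?_, ?_⟩
  · rw [Quaternion.re_mul]; simp [qJ]
  · rw [Quaternion.imI_mul]; simp [qJ]
  · rw [Quaternion.imJ_mul]; simp [qJ]
  · rw [Quaternion.imK_mul]; simp [qJ]

lemma prodK (x : ℍ[ℝ]) : (x * qK).re = -x.imK ∧ (x * qK).imI = x.imJ ∧ (x * qK).imJ = -x.imI
    ∧ (x * qK).imK = x.re := by
  refine ⟨?_, ?_, ?_, ?_⟩
  · rw [Quaternion.re_mul]; simp [qK]
  · rw [Quaternion.imI_mul]; simp [qK]
  · rw [Quaternion.imJ_mul]; simp [qK]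
  · rw [Quaternion.imK_mul]; simp [qK]

lemma frame (s : S3) (e : ℍ[ℝ]) : e = inner ℝ e (s : ℍ[ℝ]) • (s : ℍ[ℝ])
    + inner ℝ e ((s : ℍ[ℝ]) * qI) • ((s : ℍ[ℝ]) * qI)
    + inner ℝ e ((s : ℍ[ℝ]) * qJ) • ((s : ℍ[ℝ]) * qJ)
    + inner ℝ e ((s : ℍ[ℝ]) * qK) • ((s : ℍ[ℝ]) * qK) := by
  have h := Pool.Agent.H556R4.SU2.normSq_coe s
  rw [normSq_def'] at h
  have hI := prodI (s : ℍ[ℝ])
  have hJ := prodJ (s : ℍ[ℝ])
  have hK := prodK (s : ℍ[ℝ])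
  simp only [inner4]
  ext
  · simp only [Quaternion.re_add, Quaternion.re_smul, hI.1, hI.2.1, hI.2.2.1, hI.2.2.2, hJ.1,
      hJ.2.1, hJ.2.2.1, hJ.2.2.2, hK.1, hK.2.1, hK.2.2.1, hK.2.2.2, smul_eq_mul]
    linear_combination (-e.re) * h
  · simp only [Quaternion.imI_add, Quaternion.imI_smul, hI.1, hI.2.1, hI.2.2.1, hI.2.2.2, hJ.1,
      hJ.2.1, hJ.2.2.1, hJ.2.2.2, hK.1, hK.2.1, hK.2.2.1, hK.2.2.2, smul_eq_mul]
    linear_combination (-e.imI) * h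
  · simp only [Quaternion.imJ_add, Quaternion.imJ_smul, hI.1, hI.2.1, hI.2.2.1, hI.2.2.2, hJ.1,
      hJ.2.1, hJ.2.2.1, hJ.2.2.2, hK.1, hK.2.1, hK.2.2.1, hK.2.2.2, smul_eq_mul]
    linear_combination (-e.imJ) * h
  · simp only [Quaternion.imK_add, Quaternion.imK_smul, hI.1, hI.2.1, hI.2.2.1, hI.2.2.2, hJ.1,
      hJ.2.1, hJ.2.2.1, hJ.2.2.2, hK.1, hK.2.1, hK.2.2.1, hK.2.2.2, smul_eq_mul]
    linear_combination (-e.imK) * h

/-- the three imaginary units -/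
def IsUnit3 (q : ℍ[ℝ]) : Prop := normSq q = 1 ∧ q.re = 0 ∧ q * q = -1

lemma unit_I : IsUnit3 qI := by
  refine ⟨?_, rfl, ?_⟩
  · rw [normSq_def']; simp [qI]
  · have h := prodI qI
    ext
    · rw [h.1]; simp [qI]
    · rw [h.2.1]; simp [qI]
    · rw [h.2.2.1]; simp [qI]
    · rw [h.2.2.2]; simp [qI]

lemma unit_J : IsUnit3 qJ := by
  refine ⟨?_, rfl, ?_⟩
  · rw [normSq_def']; simp [qJ]
  · have h := prodJ qJ
    ext
    · rw [h.1]; simp [qJ]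
    · rw [h.2.1]; simp [qJ]
    · rw [h.2.2.1]; simp [qJ]
    · rw [h.2.2.2]; simp [qJ]

lemma unit_K : IsUnit3 qK := by
  refine ⟨?_, rfl, ?_⟩
  · rw [normSq_def']; simp [qK]
  · have h := prodK qK
    ext
    · rw [h.1]; simp [qK]
    · rw [h.2.1]; simp [qK]
    · rw [h.2.2.1]; simp [qK]
    · rw [h.2.2.2]; simp [qK]

variable [MeasurableSpace S3] [BorelSpace S3] (μ : Measure S3) [IsProbabilityMeasure μ]
  [μ.IsMulLeftInvariant] [μ.IsMulRightInvariant] [μ.IsInvInvariant]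

lemma int_S {H : S3 → ℝ} (hH : Continuous H) : Integrable H μ :=
  hH.integrable_of_hasCompactSupport (HasCompactSupport.of_compactSpace _)

lemma slice {f : ℍ[ℝ] → ℝ} (hf : ContDiff ℝ 1 f) (e : ℍ[ℝ]) {q : ℍ[ℝ]} (hq : IsUnit3 q) (r : ℝ) :
    ∫ s : S3, r * (inner ℝ e ((s : ℍ[ℝ]) * q) * fderiv ℝ f (r • (s : ℍ[ℝ])) ((s : ℍ[ℝ]) * q)) ∂μ
      = ∫ s : S3, inner ℝ e (s : ℍ[ℝ]) * f (r • (s : ℍ[ℝ])) ∂μ := by
  have hG : ContDiff ℝ 1 (fun x : ℍ[ℝ] => inner ℝ e (x * q) * f (r • x)) := by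
    have h1 : ContDiff ℝ 1 (fun x : ℍ[ℝ] => x * q) := contDiff_id.mul contDiff_const
    have h2 : ContDiff ℝ 1 (fun x : ℍ[ℝ] => inner ℝ e (x * q)) := contDiff_const.inner ℝ h1
    have h3 : ContDiff ℝ 1 (fun x : ℍ[ℝ] => f (r • x)) := hf.comp (contDiff_const_smul r)
    exact h2.mul h3
  have h0 := tangential μ hG hq.1 hq.2.1
  have hfd : ∀ s : S3, fderiv ℝ (fun x : ℍ[ℝ] => inner ℝ e (x * q) * f (r • x)) s ((s : ℍ[ℝ]) * q)
      = r * (inner ℝ e ((s : ℍ[ℝ]) * q) * fderiv ℝ f (r • (s : ℍ[ℝ])) ((s : ℍ[ℝ]) * q))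
        - inner ℝ e (s : ℍ[ℝ]) * f (r • (s : ℍ[ℝ])) := by
    intro s
    have h1 : HasFDerivAt (fun x : ℍ[ℝ] => inner ℝ e (x * q))
        ((innerSL ℝ e).comp ((ContinuousLinearMap.mul ℝ ℍ[ℝ]).flip q)) (s : ℍ[ℝ]) :=
      ((innerSL ℝ e).comp ((ContinuousLinearMap.mul ℝ ℍ[ℝ]).flip q)).hasFDerivAt
    have h2 : HasFDerivAt (fun x : ℍ[ℝ] => f (r • x))
        ((fderiv ℝ f (r • (s : ℍ[ℝ]))).comp (r • ContinuousLinearMap.id ℝ ℍ[ℝ])) (s : ℍ[ℝ]) := by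
      have h3 : HasFDerivAt (fun x : ℍ[ℝ] => r • x) (r • ContinuousLinearMap.id ℝ ℍ[ℝ]) (s : ℍ[ℝ]) :=
        (hasFDerivAt_id _).const_smul r
      exact HasFDerivAt.comp _ ((hf.differentiable (by norm_num) _).hasFDerivAt) h3
    rw [(h1.fun_mul h2).fderiv]
    have e1 : ((s : ℍ[ℝ]) * q) * q = -(s : ℍ[ℝ]) := by rw [mul_assoc, hq.2.2, mul_neg, mul_one]
    simp only [ContinuousLinearMap.add_apply, ContinuousLinearMap.smul_apply,
      ContinuousLinearMap.comp_apply, ContinuousLinearMap.flip_apply, ContinuousLinearMap.mul_apply',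
      innerSL_apply_apply, ContinuousLinearMap.id_apply, smul_eq_mul, map_smul, e1, inner_neg_right]
    ring
  simp only [hfd] at h0
  have hf1 := hf.continuous
  have hf2 := hf.continuous_fderiv (by norm_num)
  rw [integral_sub (int_S μ (by fun_prop)) (int_S μ (by fun_prop))] at h0
  linarith

/-- **The gradient theorem.** -/
lemma gradient {f : ℍ[ℝ] → ℝ} (hf : ContDiff ℝ 1 f) (e : ℍ[ℝ]) :
    B μ (fun x => fderiv ℝ f x e) = ∫ s : S3, inner ℝ e (s : ℍ[ℝ]) * f s ∂μ := by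
  have hf1 := hf.continuous
  have hf2 := hf.continuous_fderiv (by norm_num)
  have hq : ∀ q : ℍ[ℝ], IsUnit3 q →
      ∫ p : S3 × ℝ, p.2 ^ 3 * (inner ℝ e ((p.1 : ℍ[ℝ]) * q)
        * fderiv ℝ f (p.2 • (p.1 : ℍ[ℝ])) ((p.1 : ℍ[ℝ]) * q)) ∂(μ.prod rad)
      = ∫ p : S3 × ℝ, p.2 ^ 2 * (inner ℝ e (p.1 : ℍ[ℝ]) * f (p.2 • (p.1 : ℍ[ℝ]))) ∂(μ.prod rad) := by
    intro q hq
    rw [integral_prod_symm _ (int_of_cont μ (by fun_prop)),
      integral_prod_symm _ (int_of_cont μ (by fun_prop))]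
    refine integral_congr_ae (Filter.Eventually.of_forall fun r => ?_)
    simp only
    rw [integral_const_mul, integral_const_mul, ← slice μ hf e hq r, integral_const_mul]
    ring
  have e1 : B μ (fun x => fderiv ℝ f x e)
      = ∫ p : S3 × ℝ, (p.2 ^ 3 * (inner ℝ e (p.1 : ℍ[ℝ])
          * fderiv ℝ f (p.2 • (p.1 : ℍ[ℝ])) (p.1 : ℍ[ℝ]))
        + 3 * (p.2 ^ 2 * (inner ℝ e (p.1 : ℍ[ℝ]) * f (p.2 • (p.1 : ℍ[ℝ]))))) ∂(μ.prod rad) := by
    unfold B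
    rw [integral_add (int_of_cont μ (by fun_prop)) (int_of_cont μ (by fun_prop)),
      integral_const_mul]
    have h3 : ∀ a b c d : ℝ, b = d → c = d → ∀ x, x = d → a + 3 * d = a + b + c + x := by
      intro a b c d h1 h2 x h3; rw [h1, h2, h3]; ring
    rw [h3 _ _ _ _ (hq qI unit_I) (hq qJ unit_J) _ (hq qK unit_K),
      ← integral_add (int_of_cont μ (by fun_prop)) (int_of_cont μ (by fun_prop)),
      ← integral_add (int_of_cont μ (by fun_prop)) (int_of_cont μ (by fun_prop)),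
      ← integral_add (int_of_cont μ (by fun_prop)) (int_of_cont μ (by fun_prop))]
    refine integral_congr_ae (Filter.Eventually.of_forall fun p => ?_)
    simp only
    have h4 := congrArg (fderiv ℝ f (p.2 • (p.1 : ℍ[ℝ]))) (frame p.1 e)
    simp only [map_add, map_smul, smul_eq_mul] at h4
    rw [h4]
    ring
  rw [e1, integral_prod _ (int_of_cont μ (by fun_prop))]
  refine integral_congr_ae (Filter.Eventually.of_forall fun s => ?_)
  simp only [rad]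
  rw [integral_Icc_eq_integral_Ioc, ← intervalIntegral.integral_of_le zero_le_one]
  have hd : ∀ r ∈ uIcc (0 : ℝ) 1, HasDerivAt (fun r : ℝ => r ^ 3 * (inner ℝ e (s : ℍ[ℝ])
        * f (r • (s : ℍ[ℝ]))))
      (r ^ 3 * (inner ℝ e (s : ℍ[ℝ]) * fderiv ℝ f (r • (s : ℍ[ℝ])) (s : ℍ[ℝ]))
        + 3 * (r ^ 2 * (inner ℝ e (s : ℍ[ℝ]) * f (r • (s : ℍ[ℝ]))))) r := by
    intro r _
    have h1 : HasDerivAt (fun r : ℝ => r • (s : ℍ[ℝ])) ((1 : ℝ) • (s : ℍ[ℝ])) r :=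
      (hasDerivAt_id r).smul_const _
    have h2 : HasFDerivAt f (fderiv ℝ f (r • (s : ℍ[ℝ]))) (r • (s : ℍ[ℝ])) :=
      (hf.differentiable (by norm_num) _).hasFDerivAt
    have h3 := (h2.comp_hasDerivAt r h1).const_mul (inner ℝ e (s : ℍ[ℝ]))
    have h4 := (hasDerivAt_pow 3 r).mul h3
    refine h4.congr_deriv ?_
    simp only [Function.comp, one_smul]
    push_cast
    ring
  have hcc : Continuous fun r : ℝ => r ^ 3 * (inner ℝ e (s : ℍ[ℝ])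
        * fderiv ℝ f (r • (s : ℍ[ℝ])) (s : ℍ[ℝ]))
        + 3 * (r ^ 2 * (inner ℝ e (s : ℍ[ℝ]) * f (r • (s : ℍ[ℝ])))) := by fun_prop
  rw [intervalIntegral.integral_eq_sub_of_hasDerivAt hd (hcc.intervalIntegrable _ _)]
  simp

end Pool.Agent.H859.YM
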