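import Pool.Agent.H859.YM.Trans
import Pool.Graph.R_pool_sql_team_seeded_843ab51a.V11262.ER.Lim

/-!
# Influence bounds with the sharp constant
-/

set_option autoImplicit false
set_option linter.unusedSectionVars false

noncomputable section

namespace Pool.Agent.H859.YM

open MeasureTheory Measure Function Quaternion
open Pool.Agent.H556R4.Dob Pool.Agent.H556R4.SU2 Pool.Agent.H556R4.Pair Pool.Agent.V11262.ER

variable [MeasurableSpace S3] [BorelSpace S3] (μ : Measure S3) [IsProbabilityMeasure μ]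

lemma infl_field4 [μ.IsMulLeftInvariant] [μ.IsMulRightInvariant] [μ.IsInvInvariant]
    {ι : Type} [Fintype ι] [DecidableEq ι] {H : (ι → S3) → ℝ} {x y : ι}
    {fld : (ι → S3) → ℍ[ℝ]} {c0 : (ι → S3) → ℝ} (hc0 : ∀ V, 0 < c0 V)
    (hf : ∀ V g, H (update V x g) = c0 V * Real.exp (inner ℝ (fld V) (g : ℍ[ℝ])))
    (hn : ∀ V, ‖fld V‖ ≤ 2) {B : ℝ}
    (hB : ∀ V k, ‖fld (update V y k) - fld V‖ ≤ B * ‖(k : ℍ[ℝ]) - V y‖) :
    Infl μ chord H x y (1 / 4 * B) := by
  intro V k L φ hφ hL hosc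
  have key : ∀ V : ι → S3, ∫ g, φ g * dens μ H x V g ∂μ = Eh μ φ (fld V) := by
    intro V
    rw [int_dens]
    simp only [hf]
    have e1 : ∫ g, φ g * (c0 V * Real.exp (inner ℝ (fld V) (g : ℍ[ℝ]))) ∂μ
        = c0 V * ∫ g, φ g * Real.exp (inner ℝ (fld V) (g : ℍ[ℝ])) ∂μ := by
      rw [← integral_const_mul]
      refine integral_congr_ae (Filter.Eventually.of_forall fun g => ?_)
      simp only
      ring
    rw [e1, integral_const_mul, mul_div_mul_left _ _ (hc0 V).ne']
    rfl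
  rw [key, key]
  have h1 := Pool.Agent.H859.YM.transport μ hL hosc (hn (update V y k)) (hn V)
  refine h1.trans ?_
  have h2 := mul_le_mul_of_nonneg_left (hB V k) (by positivity : 0 ≤ 1 / 4 * L)
  refine h2.trans (le_of_eq ?_)
  unfold chord
  ring

lemma fl_norm (L : Finset Link) (β : Plaq → ℝ) (Λ : Finset Plaq) {s : ℝ} (hs : s ≤ 2)
    (hβ : ∀ e : Link, ∑ p ∈ Λ.filter (fun p => e ∈ lk p), |β p| ≤ s) (x : L) (u : L → S3) :
    ‖fl L β Λ x u‖ ≤ 2 := by
  unfold fl
  refine (norm_sum_le _ _).trans ?_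
  refine le_trans (le_of_eq ?_) ((hβ x.1).trans hs)
  refine Finset.sum_congr rfl fun p _ => ?_
  rw [norm_smul, norm_coe', mul_one, Real.norm_eq_abs]

variable [μ.IsHaarMeasure]

lemma HH_infl4 (L : Finset Link) (β : Plaq → ℝ) (Λ : Finset Plaq) {s : ℝ} (hs : s ≤ 2)
    (hβ : ∀ e : Link, ∑ p ∈ Λ.filter (fun p => e ∈ lk p), |β p| ≤ s) (x y : L) (hxy : y ≠ x) :
    Infl μ chord (HH L β Λ) x y (1 / 4 * cpl β Λ x.1 y.1) := by
  have := right_inv μ
  have := inv_inv' μ
  by_cases hx : Fx x.1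
  · have e0 : cpl β Λ x.1 y.1 = 0 := by unfold cpl; rw [if_pos (Or.inl hx)]
    rw [e0]
    refine infl_field4 μ (fld := fun _ => 0) (c0 := fun u => HH L β Λ u) (B := 0)
      (fun u => Real.exp_pos _) (fun u g => ?_) (fun u => by simp) (fun u k => by simp)
    rw [inner_zero_left, Real.exp_zero, mul_one]
    unfold HH
    rw [gf_update_fixed u x g hx]
  · refine infl_field4 μ (fld := fun u => fl L β Λ x u) (c0 := fun u =>
      Real.exp (∑ p ∈ Λ.filter (fun p => x.1 ∉ lk p), β p * ((plq (gf L u) p : S3) : ℍ[ℝ]).re))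
      (fun u => Real.exp_pos _) (fun u g => HH_field L β Λ x hx u g)
      (fun u => fl_norm L β Λ hs hβ x u) (fun u k => ?_)
    by_cases hy : Fx y.1
    · have e0 : cpl β Λ x.1 y.1 = 0 := by unfold cpl; rw [if_pos (Or.inr hy)]
      rw [e0]
      unfold fl
      rw [gf_update_fixed u y k hy, sub_self, norm_zero, zero_mul]
    · have hne : y.1 ≠ x.1 := fun h => hxy (Subtype.ext h)
      unfold fl cpl
      rw [if_neg (by rintro (h | h) <;> contradiction), gf_update_unfixed u y k hy,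
        ← Finset.sum_sub_distrib]
      refine (norm_sum_le _ _).trans ?_
      have h1 : ∀ p ∈ Λ.filter (fun p => x.1 ∈ lk p),
          ‖β p • ((stg p x.1 (update (gf L u) y.1 k) : S3) : ℍ[ℝ])
            - β p • ((stg p x.1 (gf L u) : S3) : ℍ[ℝ])‖
          ≤ (if y.1 ∈ lk p then |β p| else 0) * ‖(k : ℍ[ℝ]) - u y‖ := by
        intro p hp
        rw [← smul_sub, norm_smul, Real.norm_eq_abs]
        have h2 := stg_lip hne (Finset.mem_filter.1 hp).2 (gf L u) k
        rw [gf_unfixed u y hy] at h2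
        refine (mul_le_mul_of_nonneg_left h2 (abs_nonneg _)).trans (le_of_eq ?_)
        split_ifs <;> ring
      refine (Finset.sum_le_sum h1).trans (le_of_eq ?_)
      rw [← Finset.sum_mul, ← Finset.sum_filter, Finset.filter_filter]

end Pool.Agent.H859.YM
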