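import Pool.Agent.H859.YM.Mom

/-!
# The covariance bound with the constant `1 / 4`
-/

set_option autoImplicit false
set_option linter.unusedSectionVars false

noncomputable section

namespace Pool.Agent.H859.YM

open MeasureTheory Quaternion Set
open Pool.Agent.H556R4.SU2 (S3 norm_coe' negOne negOne_mul)

/-- the final inequality -/
lemma final {u c p a : ℝ} (hc0 : 0 < c) (hc : c ≤ 1 / 4) (hu : u ≤ 4) (hau : a ^ 2 ≤ u)
    (h1 : 4 * c + u / 2 * p = 1) (h2 : 4 / 13 * c ≤ p) :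
    1 / 2 * c + 1 / 2 * (c + a ^ 2 * (5 * c ^ 3 - 13 * c ^ 2 * p - 2 * c * p))
      + |a| * (u / 2 * (c / 3)) * c ≤ 1 / 4 := by
  have hu0 : 0 ≤ u := le_trans (sq_nonneg a) hau
  set t := |a| with ht
  have ht0 : 0 ≤ t := abs_nonneg a
  have hta : t ^ 2 = a ^ 2 := sq_abs a
  rw [← hta]
  have e1 : 1 / 4 = c + u * p / 8 := by linarith
  rw [e1]
  have h3 : 19 / 52 * c ^ 2 ≤ 13 * c ^ 2 * p + 2 * c * p - 5 * c ^ 3 := by
    have h4 : (13 * c ^ 2 + 2 * c) * (4 / 13 * c) ≤ (13 * c ^ 2 + 2 * c) * p :=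
      mul_le_mul_of_nonneg_left h2 (by positivity)
    nlinarith [sq_nonneg c, mul_nonneg (sq_nonneg c) (sub_nonneg.2 hc)]
  have h4 : u * p / 8 ≥ u * (4 / 13 * c) / 8 := by
    have := mul_le_mul_of_nonneg_left h2 hu0
    linarith
  have h5 : 1 / 2 * t ^ 2 * (19 / 52 * c ^ 2) ≤ 1 / 2 * t ^ 2 * (13 * c ^ 2 * p + 2 * c * p - 5 * c ^ 3) :=
    mul_le_mul_of_nonneg_left h3 (by positivity)
  have h6 : 0 ≤ u / 26 + 19 / 104 * c * t ^ 2 - t * u * c / 6 := by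
    have h7 : u ^ 2 / 104 ≤ u / 26 := by nlinarith
    have h8 : 19 / 26 * (c * t) ^ 2 ≤ 19 / 104 * c * t ^ 2 := by
      have : c * c * t ^ 2 ≤ 1 / 4 * c * t ^ 2 := by
        have := mul_le_mul_of_nonneg_right hc (by positivity : 0 ≤ c * t ^ 2)
        nlinarith
      nlinarith
    nlinarith [sq_nonneg (u - 80 / 10 * (c * t)), sq_nonneg (c * t), sq_nonneg u]
  nlinarith [mul_nonneg hc0.le h6]

lemma cubic {c p r : ℝ} (hc0 : 0 < c) (h1 : p ≤ c / 3) (h2 : 4 / 13 * c ≤ p) (hr0 : 0 ≤ r)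
    (hr1 : r ≤ 1) : r * |p - c * (1 - r ^ 2)| ≤ c / 3 := by
  have h3 : r * (9 / 13 - r ^ 2) ≤ 1 / 3 := by
    nlinarith [sq_nonneg (r - 1 / 2), mul_nonneg hr0 (sq_nonneg (r - 1 / 2))]
  rcases abs_cases (p - c * (1 - r ^ 2)) with ⟨h4, _⟩ | ⟨h4, _⟩
  · rw [h4]
    have h5 : 0 ≤ 1 - r ^ 2 := by nlinarith
    have h6 : p - c * (1 - r ^ 2) ≤ c / 3 := by nlinarith
    calc r * (p - c * (1 - r ^ 2)) ≤ r * (c / 3) := mul_le_mul_of_nonneg_left h6 hr0
      _ ≤ 1 * (c / 3) := mul_le_mul_of_nonneg_right hr1 (by positivity)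
      _ = c / 3 := one_mul _
  · rw [h4]
    have h6 : -(p - c * (1 - r ^ 2)) ≤ c * (9 / 13 - r ^ 2) := by linarith
    calc r * -(p - c * (1 - r ^ 2)) ≤ r * (c * (9 / 13 - r ^ 2)) := mul_le_mul_of_nonneg_left h6 hr0
      _ = c * (r * (9 / 13 - r ^ 2)) := by ring
      _ ≤ c * (1 / 3) := mul_le_mul_of_nonneg_left h3 hc0.le
      _ = c / 3 := by ring

variable [MeasurableSpace S3] [BorelSpace S3] (μ : Measure S3) [IsProbabilityMeasure μ]
  [μ.IsMulLeftInvariant] [μ.IsMulRightInvariant] [μ.IsInvInvariant]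

/-- the partition function -/
def Z (h : ℍ[ℝ]) : ℝ := ∫ s : S3, w h s ∂μ

lemma Z_pos (h : ℍ[ℝ]) : 0 < Z μ h := by
  have h1 : 0 ≤ P1 μ h := by
    have h2 := mom_rad2 μ h
    have h3 : 0 ≤ P2 μ h := B_nonneg μ (by fun_prop) fun x _ => mul_nonneg (sq_nonneg _) (w_pos h x).le
    have := T2_nonneg μ h
    linarith
  unfold Z
  rw [mom_Z, real_inner_self_eq_norm_sq]
  have := P0_pos μ h
  positivity

/-- the vector field -/
def W (c : ℝ) (δ h x : ℍ[ℝ]) : ℍ[ℝ] :=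
  δ - (c * inner ℝ h δ) • x - (inner ℝ h δ * c / 2 * rho x) • h

lemma W_cont (c : ℝ) (δ h : ℍ[ℝ]) : Continuous (W c δ h) := by
  unfold W
  fun_prop

lemma norm_W (c : ℝ) (δ h x : ℍ[ℝ]) (hδ : ‖δ‖ = 1) : ‖W c δ h x‖ ^ 2
    = 1 + c ^ 2 * inner ℝ h δ ^ 2 * (1 - rho x)
      + inner ℝ h δ ^ 2 * c ^ 2 / 4 * rho x ^ 2 * inner ℝ h h
      - 2 * c * inner ℝ h δ * inner ℝ δ x - inner ℝ h δ ^ 2 * c * rho x
      + inner ℝ h δ ^ 2 * c ^ 2 * rho x * inner ℝ h x := by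
  set a := inner ℝ h δ with ha
  have h1 : ‖x‖ ^ 2 = 1 - rho x := by unfold rho; ring
  unfold W
  rw [← real_inner_self_eq_norm_sq]
  simp only [inner_sub_left, inner_sub_right, real_inner_smul_left, real_inner_smul_right]
  rw [real_inner_self_eq_norm_sq δ, hδ, real_inner_self_eq_norm_sq x, h1, real_inner_comm δ x,
    real_inner_comm h x, real_inner_comm h δ]
  rw [← ha]
  ring

lemma key_id {F : ℍ[ℝ] → ℝ} (hF : ContDiff ℝ 1 F) (c : ℝ) (h δ : ℍ[ℝ]) :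
    ∫ s : S3, F s * (inner ℝ δ (s : ℍ[ℝ]) - c * inner ℝ h δ) * w h s ∂μ
      = B μ (fun x => fderiv ℝ F x (W c δ h x) * w h x
        + inner ℝ h δ * (F x * ((1 - 4 * c) - c * inner ℝ h h / 2 * rho x) * w h x)) := by
  have hc1 := hF.continuous
  have hc2 := hF.continuous_fderiv (by norm_num)
  have h1 := id_grad μ hF h δ
  have h2 := id_rad μ hF h
  have h3 := id_rho μ hF h h
  have e1 : ∫ s : S3, F s * (inner ℝ δ (s : ℍ[ℝ]) - c * inner ℝ h δ) * w h s ∂μ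
      = ∫ s : S3, inner ℝ δ (s : ℍ[ℝ]) * (F s * w h s) ∂μ
        - c * inner ℝ h δ * ∫ s : S3, F s * w h s ∂μ := by
    rw [← integral_const_mul, ← integral_sub (int_S μ (by fun_prop)) (int_S μ (by fun_prop))]
    refine integral_congr_ae (Filter.Eventually.of_forall fun s => ?_)
    simp only
    ring
  rw [e1, h1, h2]
  have e2 : B μ (fun x => (fderiv ℝ F x δ + inner ℝ h δ * F x) * w h x)
      - c * inner ℝ h δ * B μ (fun x => (fderiv ℝ F x x + (4 + inner ℝ h x) * F x) * w h x)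
      = (B μ (fun x => (fderiv ℝ F x δ + inner ℝ h δ * F x) * w h x)
      - c * inner ℝ h δ * B μ (fun x => (fderiv ℝ F x x + (4 + inner ℝ h x) * F x) * w h x))
      - inner ℝ h δ * c / 2 * B μ (fun x => (fderiv ℝ F x h * rho x - 2 * inner ℝ h x * F x
        + inner ℝ h h * rho x * F x) * w h x) := by
    rw [h3]; ring
  rw [e2, ← B_mul, ← B_mul, ← B_sub μ (by fun_prop) (by fun_prop),
    ← B_sub μ (by fun_prop) (by fun_prop)]
  refine B_congr μ fun x => ?_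
  unfold W
  simp only [map_sub, map_smul, smul_eq_mul]
  ring

lemma B_norm_W (c : ℝ) (δ h : ℍ[ℝ]) (hδ : ‖δ‖ = 1) :
    B μ (fun x => ‖W c δ h x‖ ^ 2 * w h x) = P0 μ h + inner ℝ h δ ^ 2 *
      (5 * c ^ 2 * P0 μ h - 13 * c ^ 2 * P1 μ h - 2 * c * P1 μ h) := by
  have e0 : B μ (fun x => ‖W c δ h x‖ ^ 2 * w h x)
      = B μ (fun x => ((1 + c ^ 2 * inner ℝ h δ ^ 2) * w h x
        - (c ^ 2 * inner ℝ h δ ^ 2 + inner ℝ h δ ^ 2 * c) * (rho x * w h x))
        + (inner ℝ h δ ^ 2 * c ^ 2 / 4 * inner ℝ h h * (rho x ^ 2 * w h x)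
        - 2 * c * inner ℝ h δ * (inner ℝ δ x * w h x))
        + inner ℝ h δ ^ 2 * c ^ 2 * (rho x * inner ℝ h x * w h x)) := by
    refine B_congr μ fun x => ?_
    rw [norm_W c δ h x hδ]
    ring
  rw [e0, B_add μ (by fun_prop) (by fun_prop), B_add μ (by fun_prop) (by fun_prop),
    B_sub μ (by fun_prop) (by fun_prop), B_sub μ (by fun_prop) (by fun_prop)]
  simp only [B_mul]
  rw [mom_lin]
  have h1 := mom_T1 μ h
  have h2 := mom_rad1 μ h
  change (1 + c ^ 2 * inner ℝ h δ ^ 2) * P0 μ h - (c ^ 2 * inner ℝ h δ ^ 2 + inner ℝ h δ ^ 2 * c)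
    * P1 μ h + (inner ℝ h δ ^ 2 * c ^ 2 / 4 * inner ℝ h h * P2 μ h - 2 * c * inner ℝ h δ
    * (inner ℝ h δ / 2 * P1 μ h)) + inner ℝ h δ ^ 2 * c ^ 2 * T1 μ h = _
  have h3 : inner ℝ h h * P2 μ h = 4 * T1 μ h := by rw [h1]; ring
  have h4 : T1 μ h = 2 * P0 μ h - 6 * P1 μ h := by linarith
  linear_combination (inner ℝ h δ ^ 2 * c ^ 2 / 4) * h3 + (2 * inner ℝ h δ ^ 2 * c ^ 2) * h4

/-- the one-sided bound -/
lemma cov_le {F : ℍ[ℝ] → ℝ} (hF : ContDiff ℝ 1 F) (hL : ∀ x, ‖fderiv ℝ F x‖ ≤ 1)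
    (h0 : ∀ x, |F x| ≤ ‖x‖) {h δ : ℍ[ℝ]} (hδ : ‖δ‖ = 1) (hh : ‖h‖ ≤ 2) :
    ∫ s : S3, F s * (inner ℝ δ (s : ℍ[ℝ]) - P0 μ h / Z μ h * inner ℝ h δ) * w h s ∂μ
      ≤ 1 / 4 * Z μ h := by
  have hZ := Z_pos μ h
  set c := P0 μ h / Z μ h with hc
  set p := P1 μ h / Z μ h with hp
  set u : ℝ := inner ℝ h h with hu
  set a : ℝ := inner ℝ h δ with ha
  have eP0 : P0 μ h = c * Z μ h := by rw [hc]; field_simp
  have eP1 : P1 μ h = p * Z μ h := by rw [hp]; field_simp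
  have hP0 := P0_pos μ h
  have hP2 : 0 ≤ P2 μ h := B_nonneg μ (by fun_prop) fun x _ => mul_nonneg (sq_nonneg _) (w_pos h x).le
  have hT1 := T1_nonneg μ h
  have hT2 := T2_nonneg μ h
  have r1 := mom_rad1 μ h
  have r2 := mom_rad2 μ h
  have r3 := mom_T1 μ h
  have r4 := mom_Z μ h
  have hu4 : u ≤ 4 := by
    rw [hu, real_inner_self_eq_norm_sq]; nlinarith [norm_nonneg h]
  have hu0 : 0 ≤ u := by rw [hu, real_inner_self_eq_norm_sq]; positivity
  have hau : a ^ 2 ≤ u := by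
    have := abs_real_inner_le_norm h δ
    rw [hδ, mul_one] at this
    rw [hu, real_inner_self_eq_norm_sq, ha, ← sq_abs]
    exact pow_le_pow_left₀ (abs_nonneg _) this 2
  have hc0 : 0 < c := div_pos hP0 hZ
  -- bounds for the moments
  have hP1 : 0 ≤ P1 μ h := by linarith
  have b1 : 6 * P1 μ h ≤ 2 * P0 μ h := by linarith
  have b2 : 2 * P0 μ h ≤ 13 / 2 * P1 μ h := by
    have h1 : P2 μ h ≤ P1 μ h / 2 := by linarith
    have h2 : u / 4 * P2 μ h ≤ 1 * (P1 μ h / 2) := by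
      refine mul_le_mul (by linarith) h1 hP2 zero_le_one
    rw [← r3] at h2
    linarith
  have c1 : p ≤ c / 3 := by
    rw [eP0, eP1] at b1
    nlinarith
  have c2 : 4 / 13 * c ≤ p := by
    rw [eP0, eP1] at b2
    nlinarith
  have c3 : 4 * c + u / 2 * p = 1 := by
    change Z μ h = _ at r4
    rw [eP0, eP1] at r4
    have h1 : (4 * c + u / 2 * p - 1) * Z μ h = 0 := by linear_combination -r4
    rcases mul_eq_zero.1 h1 with h2 | h2
    · linarith
    · exact absurd h2 hZ.ne'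
  have hp0 : 0 ≤ p := by rw [hp]; positivity
  have c4 : c ≤ 1 / 4 := by nlinarith [mul_nonneg hu0 hp0]
  -- the pointwise bound
  have hWc := W_cont c δ h
  have hc1 := hF.continuous
  have hc2 := hF.continuous_fderiv (by norm_num)
  rw [key_id μ hF c h δ]
  have hb : B μ (fun x => fderiv ℝ F x (W c δ h x) * w h x
        + a * (F x * ((1 - 4 * c) - c * u / 2 * rho x) * w h x))
      ≤ B μ (fun x => (1 / 2 * w h x + 1 / 2 * (‖W c δ h x‖ ^ 2 * w h x))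
        + |a| * (u / 2 * (c / 3)) * w h x) := by
    refine B_mono μ (by fun_prop) (by fun_prop) fun x hx => ?_
    have hw := (w_pos h x).le
    have h1 : fderiv ℝ F x (W c δ h x) ≤ 1 / 2 + 1 / 2 * ‖W c δ h x‖ ^ 2 := by
      have h2 : fderiv ℝ F x (W c δ h x) ≤ ‖W c δ h x‖ := by
        refine (le_abs_self _).trans ?_
        have h3 := (fderiv ℝ F x).le_opNorm (W c δ h x)
        rw [Real.norm_eq_abs] at h3
        refine h3.trans ?_
        have := mul_le_mul_of_nonneg_right (hL x) (norm_nonneg (W c δ h x))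
        linarith
      nlinarith [sq_nonneg (‖W c δ h x‖ - 1)]
    have h2 : a * (F x * ((1 - 4 * c) - c * u / 2 * rho x)) ≤ |a| * (u / 2 * (c / 3)) := by
      have e1 : (1 - 4 * c) - c * u / 2 * rho x = u / 2 * (p - c * (1 - ‖x‖ ^ 2)) := by
        unfold rho; linear_combination -c3
      rw [e1]
      refine (le_abs_self _).trans ?_
      rw [abs_mul]
      refine mul_le_mul_of_nonneg_left ?_ (abs_nonneg _)
      rw [abs_mul, abs_mul, abs_of_nonneg (by positivity : 0 ≤ u / 2)]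
      have h3 := cubic hc0 c1 c2 (norm_nonneg x) hx
      have h4 : |F x| * |p - c * (1 - ‖x‖ ^ 2)| ≤ c / 3 :=
        (mul_le_mul_of_nonneg_right (h0 x) (abs_nonneg _)).trans h3
      have h5 := mul_le_mul_of_nonneg_left h4 (by positivity : 0 ≤ u / 2)
      linarith
    have h3 := mul_le_mul_of_nonneg_right h1 hw
    have h4 := mul_le_mul_of_nonneg_right h2 hw
    linarith
  refine hb.trans ?_
  rw [B_add μ (by fun_prop) (by fun_prop), B_add μ (by fun_prop) (by fun_prop), B_mul, B_mul, B_mul,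
    B_norm_W μ c δ h hδ]
  change 1 / 2 * P0 μ h + 1 / 2 * _ + |a| * (u / 2 * (c / 3)) * P0 μ h ≤ _
  rw [eP0, eP1]
  have hfin := mul_le_mul_of_nonneg_right (final hc0 c4 hu4 hau c3 c2) hZ.le
  refine le_trans (le_of_eq ?_) hfin
  ring

end Pool.Agent.H859.YM
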