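import Pool.Agent.H859.YM.Grad

/-!
# Moments of the exponential weight in the unit ball
-/

set_option autoImplicit false
set_option linter.unusedSectionVars false

noncomputable section

namespace Pool.Agent.H859.YM

open MeasureTheory Quaternion Set
open Pool.Agent.H556R4.SU2 (S3 norm_coe' negOne negOne_mul)

/-- the weight -/
def w (h x : ℍ[ℝ]) : ℝ := Real.exp (inner ℝ h x)

/-- vanishes on the sphere -/
def rho (x : ℍ[ℝ]) : ℝ := 1 - ‖x‖ ^ 2

lemma w_pos (h x : ℍ[ℝ]) : 0 < w h x := Real.exp_pos _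

lemma w_contDiff (h : ℍ[ℝ]) : ContDiff ℝ 1 (w h) :=
  Real.contDiff_exp.comp (contDiff_const.inner ℝ contDiff_id)

@[fun_prop]
lemma w_cont (h : ℍ[ℝ]) : Continuous (w h) := (w_contDiff h).continuous

lemma rho_contDiff : ContDiff ℝ 1 rho := contDiff_const.sub (contDiff_id.norm_sq ℝ)

@[fun_prop]
lemma rho_cont : Continuous rho := rho_contDiff.continuous

lemma w_fd (h x : ℍ[ℝ]) : HasFDerivAt (w h) (w h x • innerSL ℝ h) x :=
  ((innerSL ℝ h).hasFDerivAt (x := x)).exp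

lemma rho_fd (x : ℍ[ℝ]) : HasFDerivAt rho (-(2 • innerSL ℝ x)) x := by
  have h1 : HasFDerivAt (fun x : ℍ[ℝ] => ‖x‖ ^ 2) (2 • innerSL ℝ x) x := by
    have := (hasStrictFDerivAt_norm_sq x).hasFDerivAt
    exact this
  have := (hasFDerivAt_const (1 : ℝ) x).sub h1
  rw [zero_sub] at this
  exact this

lemma rho_sphere (s : S3) : rho s = 0 := by
  unfold rho; rw [norm_coe']; norm_num

/-- derivative of the product `F P w` -/
lemma fd3 {F P : ℍ[ℝ] → ℝ} (hF : ContDiff ℝ 1 F) {x : ℍ[ℝ]} {P' : ℍ[ℝ] →L[ℝ] ℝ}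
    (hP : HasFDerivAt P P' x) (h v : ℍ[ℝ]) :
    fderiv ℝ (fun x => F x * P x * w h x) x v
      = (fderiv ℝ F x v * P x + F x * P' v + F x * P x * inner ℝ h v) * w h x := by
  have h1 : HasFDerivAt F (fderiv ℝ F x) x := (hF.differentiable (by norm_num) _).hasFDerivAt
  rw [((h1.fun_mul hP).fun_mul (w_fd h x)).fderiv]
  simp only [ContinuousLinearMap.add_apply, ContinuousLinearMap.smul_apply, innerSL_apply_apply,
    smul_eq_mul]
  ring

variable [MeasurableSpace S3] [BorelSpace S3] (μ : Measure S3) [IsProbabilityMeasure μ]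
  [μ.IsMulLeftInvariant] [μ.IsMulRightInvariant] [μ.IsInvInvariant]

lemma B_congr {G H : ℍ[ℝ] → ℝ} (h : ∀ x, G x = H x) : B μ G = B μ H := by
  rw [funext h]

lemma B_neg (G : ℍ[ℝ] → ℝ) (hG : Continuous G) : B μ (fun x => G (-x)) = B μ G := by
  rw [B_eq1 μ hG, B_eq1 μ (by fun_prop)]
  rw [← integral_mul_left_eq_self (fun s : S3 => ∫ r in (0 : ℝ)..1, r ^ 3 * G (r • (s : ℍ[ℝ]))) negOne]
  refine integral_congr_ae (Filter.Eventually.of_forall fun s => ?_)
  simp only [negOne_mul, smul_neg]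

/-! ### identities with a general function -/

variable {F : ℍ[ℝ] → ℝ}

lemma id_grad (hF : ContDiff ℝ 1 F) (h e : ℍ[ℝ]) :
    ∫ s : S3, inner ℝ e (s : ℍ[ℝ]) * (F s * w h s) ∂μ
      = B μ (fun x => (fderiv ℝ F x e + inner ℝ h e * F x) * w h x) := by
  have h1 : ContDiff ℝ 1 (fun x => F x * 1 * w h x) := (hF.mul contDiff_const).mul (w_contDiff h)
  have h2 := gradient μ h1 e
  rw [B_congr μ (fun x => fd3 hF (hasFDerivAt_const (1 : ℝ) x) h e)] at h2
  simp only [mul_one, ContinuousLinearMap.zero_apply, mul_zero, add_zero] at h2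
  rw [← h2]
  refine B_congr μ fun x => ?_
  ring

lemma id_rad (hF : ContDiff ℝ 1 F) (h : ℍ[ℝ]) :
    ∫ s : S3, F s * w h s ∂μ
      = B μ (fun x => (fderiv ℝ F x x + (4 + inner ℝ h x) * F x) * w h x) := by
  have h1 : ContDiff ℝ 1 (fun x => F x * 1 * w h x) := (hF.mul contDiff_const).mul (w_contDiff h)
  have h2 := radial μ h1
  rw [B_congr μ (fun x => by rw [fd3 hF (hasFDerivAt_const (1 : ℝ) x) h x])] at h2
  simp only [mul_one, ContinuousLinearMap.zero_apply, mul_zero, add_zero] at h2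
  rw [h2]
  refine B_congr μ fun x => ?_
  ring

lemma id_rho (hF : ContDiff ℝ 1 F) (h e : ℍ[ℝ]) :
    B μ (fun x => (fderiv ℝ F x e * rho x - 2 * inner ℝ e x * F x + inner ℝ h e * rho x * F x)
      * w h x) = 0 := by
  have h1 : ContDiff ℝ 1 (fun x => F x * rho x * w h x) := (hF.mul rho_contDiff).mul (w_contDiff h)
  have h2 := gradient μ h1 e
  rw [B_congr μ (fun x => fd3 hF (rho_fd x) h e)] at h2
  simp only [rho_sphere, mul_zero, zero_mul, integral_zero] at h2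
  rw [← h2]
  refine B_congr μ fun x => ?_
  simp only [ContinuousLinearMap.neg_apply, ContinuousLinearMap.smul_apply, innerSL_apply_apply,
    nsmul_eq_mul, real_inner_comm x e]
  push_cast
  ring

/-! ### moments -/

/-- moments -/
def P0 (h : ℍ[ℝ]) : ℝ := B μ (fun x => w h x)
/-- moments -/
def P1 (h : ℍ[ℝ]) : ℝ := B μ (fun x => rho x * w h x)
/-- moments -/
def P2 (h : ℍ[ℝ]) : ℝ := B μ (fun x => rho x ^ 2 * w h x)
/-- moments -/
def T1 (h : ℍ[ℝ]) : ℝ := B μ (fun x => rho x * inner ℝ h x * w h x)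
/-- moments -/
def T2 (h : ℍ[ℝ]) : ℝ := B μ (fun x => rho x ^ 2 * inner ℝ h x * w h x)

lemma fd_one (x v : ℍ[ℝ]) : fderiv ℝ (fun _ : ℍ[ℝ] => (1 : ℝ)) x v = 0 := by
  simp

lemma fd_rho (x v : ℍ[ℝ]) : fderiv ℝ rho x v = -(2 * inner ℝ x v) := by
  rw [(rho_fd x).fderiv]
  simp

lemma mom_S (h e : ℍ[ℝ]) : ∫ s : S3, inner ℝ e (s : ℍ[ℝ]) * w h s ∂μ = inner ℝ h e * P0 μ h := by
  have := id_grad μ (F := fun _ => 1) contDiff_const h e
  simp only [one_mul, fd_one, zero_add, mul_one] at this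
  rw [this, B_mul]
  rfl

lemma mom_lin (h e : ℍ[ℝ]) :
    B μ (fun x => inner ℝ e x * w h x) = inner ℝ h e / 2 * P1 μ h := by
  have h1 := id_rho μ (F := fun _ => 1) contDiff_const h e
  have h2 : B μ (fun x => inner ℝ h e * (rho x * w h x) - 2 * (inner ℝ e x * w h x)) = 0 := by
    rw [← h1]
    refine B_congr μ fun x => ?_
    rw [fd_one]; ring
  rw [B_sub μ (by fun_prop) (by fun_prop), B_mul, B_mul] at h2
  unfold P1
  linarith

lemma mom_Z (h : ℍ[ℝ]) : ∫ s : S3, w h s ∂μ = 4 * P0 μ h + inner ℝ h h / 2 * P1 μ h := by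
  have h1 := id_rad μ (F := fun _ => 1) contDiff_const h
  have h2 : ∫ s : S3, w h s ∂μ = B μ (fun x => 4 * w h x + inner ℝ h x * w h x) := by
    have h3 : (fun s : S3 => (1 : ℝ) * w h s) = fun s : S3 => w h s := by funext s; ring
    rw [h3] at h1
    rw [h1]
    refine B_congr μ fun x => ?_
    rw [fd_one]; ring
  rw [h2, B_add μ (by fun_prop) (by fun_prop), B_mul, mom_lin]
  rfl

lemma mom_T1 (h : ℍ[ℝ]) : T1 μ h = inner ℝ h h / 4 * P2 μ h := by
  have h1 := id_rho μ (F := rho) rho_contDiff h h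
  have h2 : B μ (fun x => inner ℝ h h * (rho x ^ 2 * w h x)
      - 4 * (rho x * inner ℝ h x * w h x)) = 0 := by
    rw [← h1]
    refine B_congr μ fun x => ?_
    rw [fd_rho, real_inner_comm x h]; ring
  rw [B_sub μ (by fun_prop) (by fun_prop), B_mul, B_mul] at h2
  unfold T1 P2
  linarith

lemma mom_rad1 (h : ℍ[ℝ]) : 6 * P1 μ h + T1 μ h = 2 * P0 μ h := by
  have h1 := id_rad μ (F := rho) rho_contDiff h
  have h3 : (fun s : S3 => rho s * w h s) = fun s : S3 => (0 : ℝ) := by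
    funext s; rw [rho_sphere, zero_mul]
  rw [h3, integral_zero] at h1
  have h2 : B μ (fun x => (6 * (rho x * w h x) + rho x * inner ℝ h x * w h x) - 2 * w h x) = 0 := by
    rw [h1]
    refine B_congr μ fun x => ?_
    rw [fd_rho, real_inner_self_eq_norm_sq]
    have : ‖x‖ ^ 2 = 1 - rho x := by unfold rho; ring
    rw [this]; ring
  rw [B_sub μ (by fun_prop) (by fun_prop), B_add μ (by fun_prop) (by fun_prop), B_mul, B_mul] at h2
  unfold P1 T1 P0
  linarith

lemma rho2_fd (x : ℍ[ℝ]) (v : ℍ[ℝ]) :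
    fderiv ℝ (fun x => rho x * rho x) x v = -(4 * rho x * inner ℝ x v) := by
  rw [((rho_fd x).fun_mul (rho_fd x)).fderiv]
  simp only [ContinuousLinearMap.add_apply, ContinuousLinearMap.smul_apply,
    ContinuousLinearMap.neg_apply, innerSL_apply_apply, nsmul_eq_mul, smul_eq_mul]
  push_cast
  ring

lemma mom_rad2 (h : ℍ[ℝ]) : 8 * P2 μ h + T2 μ h = 4 * P1 μ h := by
  have h1 := id_rad μ (F := fun x => rho x * rho x) (rho_contDiff.mul rho_contDiff) h
  have h3 : (fun s : S3 => rho s * rho s * w h s) = fun s : S3 => (0 : ℝ) := by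
    funext s; rw [rho_sphere, zero_mul, zero_mul]
  rw [h3, integral_zero] at h1
  have h2 : B μ (fun x => (8 * (rho x ^ 2 * w h x) + rho x ^ 2 * inner ℝ h x * w h x)
      - 4 * (rho x * w h x)) = 0 := by
    rw [h1]
    refine B_congr μ fun x => ?_
    rw [rho2_fd, real_inner_self_eq_norm_sq]
    have : ‖x‖ ^ 2 = 1 - rho x := by unfold rho; ring
    rw [this]; ring
  rw [B_sub μ (by fun_prop) (by fun_prop), B_add μ (by fun_prop) (by fun_prop), B_mul, B_mul] at h2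
  unfold P1 T2 P2
  linarith

lemma rho_nonneg {x : ℍ[ℝ]} (hx : ‖x‖ ≤ 1) : 0 ≤ rho x := by
  unfold rho
  nlinarith [norm_nonneg x]

lemma T_nonneg (g : ℍ[ℝ] → ℝ) (hg : Continuous g) (h0 : ∀ x, ‖x‖ ≤ 1 → 0 ≤ g x)
    (hs : ∀ x, g (-x) = g x) (h : ℍ[ℝ]) : 0 ≤ B μ (fun x => g x * inner ℝ h x * w h x) := by
  have h1 : B μ (fun x => g x * inner ℝ h x) = 0 := by
    have h2 := B_neg μ (fun x => g x * inner ℝ h x) (by fun_prop)
    have h3 : B μ (fun x => g (-x) * inner ℝ h (-x)) = -B μ (fun x => g x * inner ℝ h x) := by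
      rw [← neg_one_mul, ← B_mul]
      refine B_congr μ fun x => ?_
      rw [hs, inner_neg_right]; ring
    rw [h3] at h2
    linarith
  rw [← h1]
  refine B_mono μ (by fun_prop) (by fun_prop) fun x hx => ?_
  rw [mul_assoc]
  refine mul_le_mul_of_nonneg_left ?_ (h0 x hx)
  unfold w
  rcases le_or_gt 0 (inner ℝ h x) with h4 | h4
  · have := Real.one_le_exp h4
    nlinarith
  · have := Real.exp_le_one_iff.2 h4.le
    nlinarith

lemma T1_nonneg (h : ℍ[ℝ]) : 0 ≤ T1 μ h :=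
  T_nonneg μ rho rho_cont (fun _ hx => rho_nonneg hx) (fun x => by simp [rho]) h

lemma T2_nonneg (h : ℍ[ℝ]) : 0 ≤ T2 μ h :=
  T_nonneg μ (fun x => rho x ^ 2) (by fun_prop) (fun _ _ => sq_nonneg _) (fun x => by simp [rho]) h

lemma P0_pos (h : ℍ[ℝ]) : 0 < P0 μ h := by
  have h1 : B μ (fun _ => Real.exp (-‖h‖)) ≤ P0 μ h := by
    refine B_mono μ continuous_const (by fun_prop) fun x hx => ?_
    refine Real.exp_le_exp.2 ?_
    have h2 := abs_le.1 (abs_real_inner_le_norm h x)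
    have h3 : ‖h‖ * ‖x‖ ≤ ‖h‖ * 1 := mul_le_mul_of_nonneg_left hx (norm_nonneg _)
    linarith [h2.1]
  refine lt_of_lt_of_le ?_ h1
  rw [B_eq1 μ continuous_const]
  simp only [intervalIntegral.integral_mul_const, integral_pow, integral_const, smul_eq_mul]
  have := Real.exp_pos (-‖h‖)
  simp
  positivity

end Pool.Agent.H859.YM
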