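import Pool.Agent.H859.YM.RP

/-!
# The Osterwalder-Schrader form and the gap of the transfer matrix
-/

set_option autoImplicit false
set_option linter.unusedSectionVars false

noncomputable section

namespace Pool.Agent.H859.YMG

open MeasureTheory Measure Function Quaternion Filter Topology
open Pool.Agent.H556R4.Dob Pool.Agent.H556R4.SU2 Pool.Agent.V11262.ER

variable [MeasurableSpace S3] [BorelSpace S3]

lemma Lip.refl' {K : ℝ} {A : Finset Link} {F : (Link → S3) → ℝ} (hF : Lip K A F) :
    Lip K (A.image rl) fun U => F (refl U) := by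
  intro U V
  refine (hF _ _).trans (le_of_eq ?_)
  rw [Finset.sum_image (fun e _ f _ h => by rw [← rl_rl e, h, rl_rl])]
  congr 1
  refine Finset.sum_congr rfl fun e _ => ?_
  unfold refl
  by_cases h : e.2 = 0
  · rw [if_pos h, if_pos h, nsub_inv]
  · rw [if_neg h, if_neg h]

/-- shifted link -/
def sh (e : Link) : Link := (e.1 + un 0, e.2)

lemma sh_inj : Function.Injective sh := by
  intro e f h
  unfold sh at h
  simp only [Prod.mk.injEq] at h
  exact Prod.ext (add_right_cancel h.1) h.2

lemma Lip.shift' {K : ℝ} {A : Finset Link} {F : (Link → S3) → ℝ} (hF : Lip K A F) :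
    Lip K (A.image sh) fun U => F (shift U) := by
  intro U V
  refine (hF _ _).trans (le_of_eq ?_)
  rw [Finset.sum_image (fun e _ f _ h => sh_inj h)]
  rfl

/-- Lipschitz functions of finitely many links of the upper half space -/
def LU (F : (Link → S3) → ℝ) : Prop :=
  ∃ (K : ℝ) (A : Finset Link), 0 ≤ K ∧ Lip K A F ∧ ∀ e ∈ A, up e

lemma LU.ll {F : (Link → S3) → ℝ} (h : LU F) : LL F := by
  obtain ⟨K, A, hK, hF, -⟩ := h
  exact ⟨K, A, hK, hF⟩

lemma LU.cont {F : (Link → S3) → ℝ} (h : LU F) : Continuous F := h.ll.cont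

lemma LU.updep {F : (Link → S3) → ℝ} (h : LU F) : UpDep F := by
  obtain ⟨K, A, hK, hF, hA⟩ := h
  exact fun U V hUV => hF.dep U V fun e he => hUV e (hA e he)

lemma LU.add {F G : (Link → S3) → ℝ} (hF : LU F) (hG : LU G) : LU fun U => F U + G U := by
  obtain ⟨K, A, hK, hF, hA⟩ := hF
  obtain ⟨K', A', hK', hG, hA'⟩ := hG
  refine ⟨K + K', A ∪ A', by positivity, fun U V => ?_, fun e he => ?_⟩
  · have h1 := Lip.mono_set hK Finset.subset_union_left hF (A' := A ∪ A') U V
    have h2 := Lip.mono_set hK' Finset.subset_union_right hG (A' := A ∪ A') U V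
    have e : F U + G U - (F V + G V) = (F U - F V) + (G U - G V) := by ring
    show |F U + G U - (F V + G V)| ≤ _
    rw [e]
    refine (abs_add_le _ _).trans ?_
    linarith
  · rcases Finset.mem_union.1 he with h | h
    · exact hA e h
    · exact hA' e h

lemma LU.smul {F : (Link → S3) → ℝ} (hF : LU F) (t : ℝ) : LU fun U => t * F U := by
  obtain ⟨K, A, hK, hF, hA⟩ := hF
  refine ⟨|t| * K, A, by positivity, fun U V => ?_, hA⟩
  show |t * F U - t * F V| ≤ _
  rw [← mul_sub, abs_mul, mul_assoc]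
  exact mul_le_mul_of_nonneg_left (hF U V) (abs_nonneg t)

lemma LU.const (c : ℝ) : LU fun _ : Link → S3 => c :=
  ⟨0, ∅, le_rfl, fun U V => by simp, fun e he => absurd he (Finset.notMem_empty e)⟩

lemma LU.shift' {F : (Link → S3) → ℝ} (hF : LU F) : LU fun U => F (shift U) := by
  obtain ⟨K, A, hK, hF, hA⟩ := hF
  refine ⟨K, A.image sh, hK, Lip.shift' hF, fun e he => ?_⟩
  obtain ⟨f, hf, rfl⟩ := Finset.mem_image.1 he
  have := hA f hf
  unfold up sh at *
  simp only
  rw [Pi.add_apply, un_zero_zero]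
  omega

lemma LL.refl' {F : (Link → S3) → ℝ} (hF : LL F) : LL fun U => F (refl U) := by
  obtain ⟨K, A, hK, hF⟩ := hF
  exact ⟨K, _, hK, Lip.refl' hF⟩

lemma LL.shift' {F : (Link → S3) → ℝ} (hF : LL F) : LL fun U => F (shift U) := by
  obtain ⟨K, A, hK, hF⟩ := hF
  exact ⟨K, _, hK, Lip.shift' hF⟩

variable (μ : Measure S3) [IsProbabilityMeasure μ]

/-- transformation of expectations under translations -/
lemma exq_shift' (β : Plaq → ℝ) (hβt : ∀ p, β (sp p) = β p) (Q : Finset Plaq)
    {F : (Link → S3) → ℝ} (hF : Continuous F) :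
    exq μ β (Q.image sp) (fun U => F (shift U)) = exq μ β Q F := by
  have h := mp_shift μ
  have key : ∀ G : (Link → S3) → ℝ, Continuous G →
      ∫ U, G (shift U) * wt β (Q.image sp) U ∂(hm μ) = ∫ U, G U * wt β Q U ∂(hm μ) := by
    intro G hG
    have h2 := integral_map (μ := hm μ) (f := fun U => G U * wt β Q U) h.measurable.aemeasurable
      (BM.cont (hG.mul (wt_cont β Q))).meas.aestronglyMeasurable
    rw [h.map_eq] at h2
    rw [h2]
    congr 1
    funext U
    rw [wt_shift β hβt]
  have k1 := key F hF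
  have k2 := key (fun _ => 1) continuous_const
  simp only [one_mul] at k2
  unfold exq
  rw [k1, k2]

variable [μ.IsHaarMeasure]

lemma exq_refl (β : Plaq → ℝ) (hβ : ∀ p, β (rp p) = β p) (n : ℕ) {F : (Link → S3) → ℝ}
    (hF : Continuous F) : exq μ β (QS n) (fun U => F (refl U)) = exq μ β (QS n) F := by
  have h := mp_refl μ
  unfold exq
  congr 1
  have h2 := integral_map (μ := hm μ) (f := fun U => F U * wt β (QS n) U)
    h.measurable.aemeasurable
    (BM.cont (hF.mul (wt_cont β (QS n)))).meas.aestronglyMeasurable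
  rw [h.map_eq] at h2
  rw [h2]
  congr 1
  funext U
  rw [wt_refl β hβ, QS_image]

section

variable {s : ℝ} (hs0 : 0 < s) (hs : s < 2) (β : Plaq → ℝ)
    (hβ : ∀ e : Link, ∀ T : Finset Plaq, (∀ p ∈ T, e ∈ lk p) → ∑ p ∈ T, |β p| ≤ s)
    {ν : Measure (Link → S3)} [IsProbabilityMeasure ν] (hν : IsGibbs μ β ν)

include hs0 hs hβ hν

/-- convergence along any sequence of regions which contain the cubes -/
theorem tendsto_of_sub (Q : ℕ → Finset Plaq) (hQ : ∀ n, LB (n - 1) ⊆ Q n)
    {F : (Link → S3) → ℝ} (hF : LL F) :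
    Tendsto (fun n => exq μ β (Q n) F) atTop (𝓝 (∫ U, F U ∂ν)) := by
  obtain ⟨K, A, hK, hF⟩ := hF
  obtain ⟨M, hM⟩ := far_LB A
  rw [tendsto_iff_dist_tendsto_zero]
  have h1 : Tendsto (fun n : ℕ => (s / 2) ^ n) atTop (𝓝 0) :=
    tendsto_pow_atTop_nhds_zero_of_lt_one (by positivity) (by linarith)
  have h2 : Tendsto (fun n : ℕ => n - (M + 1)) atTop atTop := tendsto_sub_atTop_nat (M + 1)
  have h4 := (h1.comp h2).const_mul (2 * K * A.card)
  rw [mul_zero] at h4
  refine squeeze_zero (fun _ => dist_nonneg) (fun n => ?_) h4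
  rw [Real.dist_eq]
  refine gibbs_conv μ hs0 hs β hβ hK hF hν (Q n) (fun p hp => ?_)
  have h5 : p ∉ LB (n - 1) := fun h => hp (hQ n h)
  have h6 := hM (n - 1) p h5
  intro e he f hf
  have h7 := h6 e he f hf
  have h8 : n - (M + 1) = n - 1 - M := by omega
  show ((n - (M + 1) : ℕ) : ℝ) ≤ dist e.1 f.1
  rw [h8]
  exact h7

theorem gibbs_refl (hβr : ∀ p, β (rp p) = β p) {F : (Link → S3) → ℝ} (hF : LL F) :
    ∫ U, F (refl U) ∂ν = ∫ U, F U ∂ν := by
  have h1 := tendsto_of_sub μ hs0 hs β hβ hν QS LB_sub_QS hF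
  have h2 := tendsto_of_sub μ hs0 hs β hβ hν QS LB_sub_QS hF.refl'
  refine tendsto_nhds_unique h2 (h1.congr fun n => ?_)
  exact (exq_refl μ β hβr n hF.cont).symm

theorem gibbs_shift (hβt : ∀ p, β (sp p) = β p) {F : (Link → S3) → ℝ} (hF : LL F) :
    ∫ U, F (shift U) ∂ν = ∫ U, F U ∂ν := by
  have h1 := tendsto_of_sub μ hs0 hs β hβ hν LB (fun n => LB_mono (Nat.sub_le _ _)) hF
  have h2 := tendsto_of_sub μ hs0 hs β hβ hν (fun n => (LB n).image sp) (fun n => by
    intro p hp
    have hq : (⟨(p.1.1 - un 0, p.1.2.1, p.1.2.2), p.2⟩ : Plaq) ∈ LB n := by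
      rw [mem_LB] at hp ⊢
      intro k
      have := hp k
      simp only
      by_cases hk : k = 0
      · subst hk
        rw [Pi.sub_apply, un_zero_zero]
        omega
      · rw [Pi.sub_apply]
        unfold un
        rw [Pi.single_eq_of_ne hk, sub_zero]
        omega
    refine Finset.mem_image.2 ⟨_, hq, ?_⟩
    unfold sp
    apply Subtype.ext
    simp only [sub_add_cancel]) hF.shift'
  refine tendsto_nhds_unique h2 (h1.congr fun n => ?_)
  exact (exq_shift' μ β hβt (LB n) hF.cont).symm

/-- positivity of the form -/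
theorem os_nonneg (hβr : ∀ p, β (rp p) = β p) {F : (Link → S3) → ℝ} (hF : LU F) :
    0 ≤ ∫ U, F (refl U) * F U ∂ν := by
  have h1 := tendsto_of_sub μ hs0 hs β hβ hν QS LB_sub_QS (hF.ll.refl'.mul hF.ll)
  exact ge_of_tendsto' h1 fun n => rp_fin μ β hβr n hF.cont hF.updep

/-- Schwarz inequality for the form -/
theorem os_schwarz (hβr : ∀ p, β (rp p) = β p) {F G : (Link → S3) → ℝ} (hF : LU F) (hG : LU G) :
    (∫ U, F (refl U) * G U ∂ν) ^ 2 ≤ (∫ U, F (refl U) * F U ∂ν) * ∫ U, G (refl U) * G U ∂ν := by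
  have hFc := hF.cont
  have hGc := hG.cont
  have hrc := refl_cont
  have hsym : ∫ U, G (refl U) * F U ∂ν = ∫ U, F (refl U) * G U ∂ν := by
    rw [← gibbs_refl μ hs0 hs β hβ hν hβr (hF.ll.refl'.mul hG.ll)]
    congr 1
    funext U
    rw [refl_refl]
    ring
  set a := ∫ U, F (refl U) * F U ∂ν with ha
  set b := ∫ U, F (refl U) * G U ∂ν with hb
  set c := ∫ U, G (refl U) * G U ∂ν with hc
  have hquad : ∀ t : ℝ, 0 ≤ c * (t * t) + (2 * b) * t + a := by
    intro t
    have h1 := os_nonneg μ hs0 hs β hβ hν hβr (hF.add (hG.smul t))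
    have b1 : BM fun U => F (refl U) * F U := BM.cont ((hFc.comp hrc).mul hFc)
    have b2 : BM fun U => F (refl U) * G U := BM.cont ((hFc.comp hrc).mul hGc)
    have b3 : BM fun U => G (refl U) * F U := BM.cont ((hGc.comp hrc).mul hFc)
    have b4 : BM fun U => G (refl U) * G U := BM.cont ((hGc.comp hrc).mul hGc)
    have e : ∫ U, (F (refl U) + t * G (refl U)) * (F U + t * G U) ∂ν
        = a + t * b + (t * b + t * t * c) := by
      have e1 : ∀ U, (F (refl U) + t * G (refl U)) * (F U + t * G U)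
          = (F (refl U) * F U + t * (F (refl U) * G U))
            + (t * (G (refl U) * F U) + t * t * (G (refl U) * G U)) := fun U => by ring
      have i1 : Integrable (fun U => F (refl U) * F U) ν := b1.integrable _
      have i2 : Integrable (fun U => t * (F (refl U) * G U)) ν := (b2.integrable _).const_mul _
      have i3 : Integrable (fun U => t * (G (refl U) * F U)) ν := (b3.integrable _).const_mul _
      have i4 : Integrable (fun U => t * t * (G (refl U) * G U)) ν := (b4.integrable _).const_mul _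
      have i12 : Integrable (fun U => F (refl U) * F U + t * (F (refl U) * G U)) ν := i1.add i2
      have i34 : Integrable (fun U => t * (G (refl U) * F U) + t * t * (G (refl U) * G U)) ν :=
        i3.add i4
      simp only [e1]
      rw [integral_add i12 i34, integral_add i1 i2, integral_add i3 i4,
        integral_const_mul, integral_const_mul, integral_const_mul, hsym]
    rw [e] at h1
    linarith
  have h2 := discrim_le_zero hquad
  unfold discrim at h2
  nlinarith

/-- the time translation is symmetric for the form -/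
theorem os_symm (hβt : ∀ p, β (sp p) = β p) {F G : (Link → S3) → ℝ} (hF : LL F) (hG : LL G) :
    ∫ U, F (refl U) * G (shift U) ∂ν = ∫ U, F (shift (refl U)) * G U ∂ν := by
  rw [← gibbs_shift μ hs0 hs β hβ hν hβt (F := fun U => F (shift (refl U)) * G U)
    (LL.mul (LL.refl' (LL.shift' hF)) hG)]
  congr 1
  funext U
  rw [shift_refl_shift]

end

/-- iterated shift -/
lemma shift_iter_up {K : ℝ} {A : Finset Link} {F : (Link → S3) → ℝ} (hF : Lip K A F)
    (hA : ∀ e ∈ A, up e) (n : ℕ) :
    ∃ A' : Finset Link, A'.card ≤ A.card ∧ Lip K A' (fun U => F (shift^[n] U)) ∧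
      ∀ e ∈ A', (n : ℤ) ≤ e.1 0 := by
  induction n with
  | zero => exact ⟨A, le_rfl, hF, fun e he => by have := hA e he; unfold up at this; simpa using this⟩
  | succ n ih =>
    obtain ⟨A', hc, hL, hA'⟩ := ih
    refine ⟨A'.image sh, Finset.card_image_le.trans hc, ?_, fun e he => ?_⟩
    · have := Lip.shift' hL
      exact this
    · obtain ⟨f, hf, rfl⟩ := Finset.mem_image.1 he
      have := hA' f hf
      unfold sh
      simp only
      rw [Pi.add_apply, un_zero_zero]
      push_cast
      omega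

lemma LU.iter {F : (Link → S3) → ℝ} (hF : LU F) (n : ℕ) : LU fun U => F (shift^[n] U) := by
  induction n with
  | zero => exact hF
  | succ n ih => exact ih.shift'

/-- elementary: a bound for powers -/
lemma pow_trick {x a C : ℝ} (ha : 0 ≤ a) (h : ∀ k : ℕ, x ^ 2 ^ k ≤ a ^ 2 ^ k * C) :
    x ≤ a := by
  by_contra hlt
  rw [not_le] at hlt
  rcases ha.eq_or_lt with ha0 | ha0
  · have := h 0
    rw [← ha0] at this
    simp at this
    linarith
  · have hr : 1 < x / a := (one_lt_div ha0).2 hlt
    have h1 : ∀ k : ℕ, (x / a) ^ 2 ^ k ≤ C := by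
      intro k
      rw [div_pow, div_le_iff₀ (by positivity), mul_comm]
      exact h k
    have h2 : Tendsto (fun k : ℕ => (x / a) ^ 2 ^ k) atTop atTop :=
      (tendsto_pow_atTop_atTop_of_one_lt hr).comp
        (tendsto_pow_atTop_atTop_of_one_lt (by norm_num : 1 < 2))
    obtain ⟨k, hk⟩ := (h2.eventually_gt_atTop C).exists
    exact absurd (h1 k) (not_le.2 hk)

section

variable {s : ℝ} (hs0 : 0 < s) (hs : s < 2) (β : Plaq → ℝ)
    (hβ : ∀ e : Link, ∀ T : Finset Plaq, (∀ p ∈ T, e ∈ lk p) → ∑ p ∈ T, |β p| ≤ s)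
    {ν : Measure (Link → S3)} [IsProbabilityMeasure ν] (hν : IsGibbs μ β ν)
    (hβt : ∀ p, β (sp p) = β p)

include hs0 hs hβ hν hβt

theorem os_iter {F G : (Link → S3) → ℝ} (hF : LU F) (hG : LU G) (n : ℕ) :
    ∫ U, F (refl U) * G (shift^[n] U) ∂ν = ∫ U, F (shift^[n] (refl U)) * G U ∂ν := by
  induction n generalizing F with
  | zero => rfl
  | succ n ih =>
    have h1 := os_symm μ hs0 hs β hβ hν hβt hF.ll (hG.iter n).ll
    have h2 := ih hF.shift'
    have e1 : ∀ U : Link → S3, shift^[n + 1] U = shift^[n] (shift U) := fun U => rfl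
    simp only [e1]
    rw [h1]
    rw [h2]
    congr 1
    funext U
    have e2 : shift (shift^[n] (refl U)) = shift^[n] (shift (refl U)) :=
      (Function.iterate_succ_apply' shift n (refl U)).symm.trans
        (Function.iterate_succ_apply shift n (refl U))
    simp only [e2]

theorem gibbs_iter {F : (Link → S3) → ℝ} (hF : LU F) (n : ℕ) :
    ∫ U, F (shift^[n] U) ∂ν = ∫ U, F U ∂ν := by
  induction n with
  | zero => rfl
  | succ n ih =>
    rw [← ih]
    exact gibbs_shift μ hs0 hs β hβ hν hβt (hF.iter n).ll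

/-- **The gap of the transfer matrix.** -/
theorem gap {F : (Link → S3) → ℝ} (hF : LU F) (n : ℕ) :
    |∫ U, F (refl U) * F (shift^[n] U) ∂ν - (∫ U, F U ∂ν) ^ 2|
      ≤ (s / 2) ^ n * (∫ U, F (refl U) * F U ∂ν - (∫ U, F U ∂ν) ^ 2) := by
  have hβr := rp_of_sp hβt
  set m := ∫ U, F U ∂ν with hm
  set G : (Link → S3) → ℝ := fun U => F U + (-m) with hG
  have hGL : LU G := hF.add (LU.const (-m))
  have hFc := hF.cont
  have hGc := hGL.cont
  -- the form of `G`
  have key : ∀ k : ℕ, ∫ U, G (refl U) * G (shift^[k] U) ∂ν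
      = ∫ U, F (refl U) * F (shift^[k] U) ∂ν - m ^ 2 := by
    intro k
    have hFk := (hF.iter k).cont
    have hFr := hFc.comp refl_cont
    have b1 : BM fun U => F (refl U) * F (shift^[k] U) := BM.cont (hFr.mul hFk)
    have b2 : BM fun U => F (refl U) := BM.cont hFr
    have b3 : BM fun U => F (shift^[k] U) := BM.cont hFk
    have e1 : ∀ U, G (refl U) * G (shift^[k] U) = (F (refl U) * F (shift^[k] U) - m * F (refl U))
        - (m * F (shift^[k] U) - m ^ 2) := fun U => by rw [hG]; ring
    have i1 : Integrable (fun U => F (refl U) * F (shift^[k] U)) ν := b1.integrable _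
    have i2 : Integrable (fun U => m * F (refl U)) ν := (b2.integrable _).const_mul _
    have i3 : Integrable (fun U => m * F (shift^[k] U)) ν := (b3.integrable _).const_mul _
    have i12 : Integrable (fun U => F (refl U) * F (shift^[k] U) - m * F (refl U)) ν := i1.sub i2
    have i34 : Integrable (fun U => m * F (shift^[k] U) - m ^ 2) ν := i3.sub (integrable_const _)
    simp only [e1]
    rw [integral_sub i12 i34, integral_sub i1 i2, integral_sub i3 (integrable_const _),
      integral_const_mul, integral_const_mul, gibbs_refl μ hs0 hs β hβ hν hβr hF.ll,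
      gibbs_iter μ hs0 hs β hβ hν hβt hF k, ← hm]
    simp
    ring
  set g : ℕ → ℝ := fun k => ∫ U, G (refl U) * G (shift^[k] U) ∂ν with hg
  have hg0 : 0 ≤ g 0 := os_nonneg μ hs0 hs β hβ hν hβr hGL
  -- log convexity
  have hconv : ∀ k, g k ^ 2 ≤ g 0 * g (2 * k) := by
    intro k
    have h1 := os_schwarz μ hs0 hs β hβ hν hβr hGL (hGL.iter k)
    refine h1.trans (le_of_eq ?_)
    congr 1
    have h2 := os_iter μ hs0 hs β hβ hν hβt hGL (hGL.iter k) k
    rw [hg]
    simp only
    rw [two_mul]
    simp only [Function.iterate_add_apply]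
    exact h2.symm
  -- decay
  obtain ⟨K, A, hK, hL, hA⟩ := hF
  obtain ⟨C0, hC0⟩ := (BM.cont hFc).bdd
  have hC00 : 0 ≤ C0 := (abs_nonneg _).trans (hC0 1)
  have hdecay : ∀ k, 2 ≤ k → |g k| ≤ 2 * K * A.card * C0 * (s / 2) ^ k := by
    intro k hk
    obtain ⟨A', -, hL', hA'⟩ := shift_iter_up hL hA k
    have hLr := Lip.refl' hL
    have hap : Apart k (A.image rl) A' := by
      intro e he f hf
      obtain ⟨e', he', rfl⟩ := Finset.mem_image.1 he
      have h1 := hA e' he'
      have h2 := hA' f hf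
      have h3 : (rl e').1 0 ≤ 0 := by
        unfold up at h1
        by_cases h0 : e'.2 = 0
        · rw [rl_pos h0]
          simp only
          rw [Pi.sub_apply, rs_zero, un_zero_zero]
          omega
        · rw [rl_neg h0]
          simp only
          rw [rs_zero]
          omega
      refine le_trans ?_ (dist_le_pi_dist (rl e').1 f.1 0)
      rw [Int.dist_eq]
      have h4 : (k : ℤ) ≤ |(rl e').1 0 - f.1 0| := by
        rw [abs_sub_comm]
        refine le_trans ?_ (le_abs_self _)
        omega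
      exact_mod_cast h4
    have h1 := gibbs_cov μ hs0 hs β hβ hK hLr hν hK hL' hk hap
    rw [gibbs_refl μ hs0 hs β hβ hν hβr ⟨K, A, hK, hL⟩,
      gibbs_iter μ hs0 hs β hβ hν hβt ⟨K, A, hK, hL, hA⟩ k, ← hm, ← sq, ← key k] at h1
    refine h1.trans ?_
    have h5 : ∫ U, |F (shift^[k] U)| ∂ν ≤ C0 := by
      have hFk := (LU.iter ⟨K, A, hK, hL, hA⟩ k : LU fun U => F (shift^[k] U)).cont
      have b : BM fun U => |F (shift^[k] U)| := BM.cont hFk.abs
      have := integral_mono (μ := ν) (b.integrable _) (integrable_const C0) fun U => hC0 _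
      simpa using this
    have h6 : ((A.image rl).card : ℝ) ≤ A.card := by exact_mod_cast Finset.card_image_le
    have h7 : 0 ≤ (s / 2) ^ k := by positivity
    calc 2 * K * (A.image rl).card * (s / 2) ^ k * ∫ U, |F (shift^[k] U)| ∂ν
        ≤ 2 * K * A.card * (s / 2) ^ k * C0 := by
          refine mul_le_mul ?_ h5 (integral_nonneg fun _ => abs_nonneg _) (by positivity)
          refine mul_le_mul_of_nonneg_right ?_ h7
          exact mul_le_mul_of_nonneg_left h6 (by positivity)
      _ = _ := by ring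
  -- conclusion
  have hpow : ∀ k : ℕ, |g n| ^ 2 ^ k ≤ g 0 ^ (2 ^ k - 1) * |g (2 ^ k * n)| := by
    intro k
    induction k with
    | zero => simp
    | succ k ih =>
      have h1 : |g (2 ^ k * n)| ^ 2 ≤ g 0 * |g (2 ^ (k + 1) * n)| := by
        rw [sq_abs]
        have h2 := hconv (2 ^ k * n)
        have h3 : 2 * (2 ^ k * n) = 2 ^ (k + 1) * n := by ring
        rw [h3] at h2
        exact h2.trans (mul_le_mul_of_nonneg_left (le_abs_self _) hg0)
      have h4 : |g n| ^ 2 ^ (k + 1) = (|g n| ^ 2 ^ k) ^ 2 := by rw [pow_succ, pow_mul]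
      rw [h4]
      refine (pow_le_pow_left₀ (by positivity) ih 2).trans ?_
      rw [mul_pow]
      have h5 : (g 0 ^ (2 ^ k - 1)) ^ 2 * |g (2 ^ k * n)| ^ 2
          ≤ (g 0 ^ (2 ^ k - 1)) ^ 2 * (g 0 * |g (2 ^ (k + 1) * n)|) :=
        mul_le_mul_of_nonneg_left h1 (by positivity)
      refine h5.trans (le_of_eq ?_)
      rw [← mul_assoc, ← pow_mul, ← pow_succ]
      congr 2
      have : 1 ≤ 2 ^ k := Nat.one_le_two_pow
      rw [pow_succ]
      omega
  have hgoal : |g n| ≤ (s / 2) ^ n * g 0 := by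
    rcases Nat.eq_zero_or_pos n with hn | hn
    · subst hn
      rw [pow_zero, one_mul, abs_of_nonneg hg0]
    rcases hg0.eq_or_lt with h0 | h0
    · have h1 := hconv n
      rw [← h0, zero_mul] at h1
      have h2 : g n = 0 := by
        have := le_antisymm h1 (sq_nonneg _)
        exact pow_eq_zero_iff (two_ne_zero) |>.1 this
      rw [h2, abs_zero, ← h0, mul_zero]
    · refine pow_trick (C := max 1 ((2 * K * A.card * C0) / g 0) * max 1 (|g n| / ((s / 2) ^ n * g 0)))
        (by positivity) fun k => ?_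
      have ha : 0 < (s / 2) ^ n * g 0 := by positivity
      rcases Nat.eq_zero_or_pos k with hk | hk
      · subst hk
        rw [pow_zero, pow_one, pow_one]
        have h1 : |g n| = (s / 2) ^ n * g 0 * (|g n| / ((s / 2) ^ n * g 0)) := by
          field_simp
        have h2 : |g n| / ((s / 2) ^ n * g 0) ≤ max 1 ((2 * K * A.card * C0) / g 0)
            * max 1 (|g n| / ((s / 2) ^ n * g 0)) := by
          have h3 : |g n| / ((s / 2) ^ n * g 0) ≤ max 1 (|g n| / ((s / 2) ^ n * g 0)) :=
            le_max_right _ _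
          have h4 : (1 : ℝ) ≤ max 1 ((2 * K * A.card * C0) / g 0) := le_max_left _ _
          have h5 : 0 ≤ max 1 (|g n| / ((s / 2) ^ n * g 0)) := le_trans zero_le_one (le_max_left _ _)
          nlinarith
        calc |g n| = (s / 2) ^ n * g 0 * (|g n| / ((s / 2) ^ n * g 0)) := h1
          _ ≤ _ := mul_le_mul_of_nonneg_left h2 ha.le
      · have h1 := hpow k
        have h2k : 2 ≤ 2 ^ k * n := by
          have h3 : 2 ^ 1 ≤ 2 ^ k := Nat.pow_le_pow_right (by norm_num) hk
          nlinarith
        have h3 := hdecay _ h2k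
        have h4 : g 0 ^ (2 ^ k - 1) * |g (2 ^ k * n)|
            ≤ g 0 ^ (2 ^ k - 1) * (2 * K * A.card * C0 * (s / 2) ^ (2 ^ k * n)) :=
          mul_le_mul_of_nonneg_left h3 (by positivity)
        refine (h1.trans h4).trans ?_
        have h5 : g 0 ^ 2 ^ k = g 0 ^ (2 ^ k - 1) * g 0 := by
          rw [← pow_succ]
          congr 1
          have : 1 ≤ 2 ^ k := Nat.one_le_two_pow
          omega
        have h6 : g 0 ^ (2 ^ k - 1) * (2 * K * A.card * C0 * (s / 2) ^ (2 ^ k * n))
            = ((s / 2) ^ n * g 0) ^ 2 ^ k * ((2 * K * A.card * C0) / g 0) := by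
          rw [mul_pow, h5, ← pow_mul, mul_comm n (2 ^ k)]
          field_simp
        rw [h6]
        refine mul_le_mul_of_nonneg_left ?_ (by positivity)
        have h7 : (2 * K * A.card * C0) / g 0 ≤ max 1 ((2 * K * A.card * C0) / g 0) :=
          le_max_right _ _
        have h8 : (1 : ℝ) ≤ max 1 (|g n| / ((s / 2) ^ n * g 0)) := le_max_left _ _
        have h9 : 0 ≤ max 1 ((2 * K * A.card * C0) / g 0) := le_trans zero_le_one (le_max_left _ _)
        nlinarith
  have hk0 := key 0
  have hkn := key n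
  simp only [Function.iterate_zero, id_eq] at hk0
  have e0 : g 0 = ∫ U, F (refl U) * F U ∂ν - m ^ 2 := hk0
  have en : g n = ∫ U, F (refl U) * F (shift^[n] U) ∂ν - m ^ 2 := hkn
  rw [← e0, ← en]
  exact hgoal

end

end Pool.Agent.H859.YMG
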