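import Pool.Agent.H859.YM.Refl

/-!
# Reflection positivity
-/

set_option autoImplicit false
set_option linter.unusedSectionVars false

noncomputable section

namespace Pool.Agent.H859.YMG

open MeasureTheory Measure Function Quaternion Filter Topology
open Pool.Agent.H556R4.Dob Pool.Agent.H556R4.SU2 Pool.Agent.V11262.ER

/-- links of the upper half space -/
def up (e : Link) : Prop := 0 ≤ e.1 0

instance : DecidablePred up := fun e => by unfold up; infer_instance

/-- links of the time slice `0` -/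
def sl (e : Link) : Prop := e.2 ≠ 0 ∧ e.1 0 = 0

instance : DecidablePred sl := fun e => by unfold sl; infer_instance

/-- functions of the links of the upper half space -/
def UpDep (H : (Link → S3) → ℝ) : Prop := ∀ U V : Link → S3, (∀ e, up e → U e = V e) → H U = H V

lemma un_zero_zero : (un 0 : Site) 0 = 1 := by unfold un; rw [Pi.single_eq_same]

lemma rl_sl {e : Link} (h : sl e) : rl e = e := by
  rw [rl_neg h.1]
  have : rs e.1 = e.1 := by
    funext k
    by_cases hk : k = 0
    · subst hk; rw [rs_zero, h.2, neg_zero]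
    · rw [rs_ne _ hk]
  rw [this]

lemma rl_not_up {e : Link} (h : up e) (h' : ¬ sl e) : ¬ up (rl e) := by
  unfold up at h ⊢
  by_cases h0 : e.2 = 0
  · rw [rl_pos h0]
    simp only
    rw [Pi.sub_apply, rs_zero, un_zero_zero]
    omega
  · rw [rl_neg h0]
    simp only
    rw [rs_zero]
    have : e.1 0 ≠ 0 := fun h1 => h' ⟨h0, h1⟩
    omega

variable [MeasurableSpace S3] [BorelSpace S3] (μ : Measure S3) [IsProbabilityMeasure μ]

variable [μ.IsHaarMeasure]

/-- **Reflection positivity of the product measure.** -/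
theorem rp0 {H : (Link → S3) → ℝ} (hH : Continuous H) (hd : UpDep H) :
    0 ≤ ∫ U, H U * H (refl U) ∂(hm μ) := by
  have hprod : Continuous fun U : Link → S3 => H U * H (refl U) := hH.mul (hH.comp refl_cont)
  have hb : BM fun U : Link → S3 => H U * H (refl U) := BM.cont hprod
  -- independent copies
  have hmp : MeasurePreserving (fun p : (Link → S3) × (Link → S3) => glue up p.1 (refl p.2))
      ((hm μ).prod (hm μ)) (hm μ) :=
    (mp_glue μ up).comp ((MeasurePreserving.id (hm μ)).prod (mp_refl μ))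
  have e1 : ∫ U, H U * H (refl U) ∂(hm μ)
      = ∫ p : (Link → S3) × (Link → S3), H p.1 * H (glue (fun e => ¬ sl e) p.2 p.1)
        ∂((hm μ).prod (hm μ)) := by
    have h2 := integral_map (μ := (hm μ).prod (hm μ)) (f := fun U => H U * H (refl U))
      hmp.measurable.aemeasurable hb.meas.aestronglyMeasurable
    rw [hmp.map_eq] at h2
    rw [h2]
    congr 1
    funext p
    congr 1
    · exact hd _ _ fun e he => glue_pos he _ _
    · refine hd _ _ fun e he => ?_
      by_cases hs : sl e
      · rw [glue_neg (S := fun e => ¬ sl e) (not_not.2 hs)]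
        unfold refl
        rw [if_neg hs.1, rl_sl hs, glue_pos he]
      · rw [glue_pos (S := fun e => ¬ sl e) hs]
        have hn := rl_not_up he hs
        show (if e.2 = 0 then (glue up p.1 (refl p.2) (rl e))⁻¹ else glue up p.1 (refl p.2) (rl e))
          = p.2 e
        rw [glue_neg hn]
        have := congrFun (refl_refl p.2) e
        unfold refl at this ⊢
        exact this
  rw [e1]
  have hmg : Measurable fun p : (Link → S3) × (Link → S3) => glue (fun e => ¬ sl e) p.2 p.1 :=
    (measurable_glue (fun e => ¬ sl e)).comp measurable_swap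
  have hHb : BM H := BM.cont hH
  rw [integral_prod _ (((hHb.comp measurable_fst).mul (hHb.comp hmg)).integrable _)]
  have e2 : ∀ U, ∫ V, H U * H (glue (fun e => ¬ sl e) V U) ∂(hm μ)
      = cint μ (fun e => ¬ sl e) H U * H U := by
    intro U
    rw [integral_const_mul, mul_comm]
    rfl
  simp only [e2]
  have hgc : Continuous (cint μ (fun e => ¬ sl e) H) := cont_cint μ _ hH
  have hbm : BM fun U => cint μ (fun e => ¬ sl e) H U * H U := BM.cont (hgc.mul hH)
  rw [int_glue μ (fun e => ¬ sl e) hbm]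
  have e3 : ∀ U, cint μ (fun e => ¬ sl e) (fun U => cint μ (fun e => ¬ sl e) H U * H U) U
      = cint μ (fun e => ¬ sl e) H U * cint μ (fun e => ¬ sl e) H U := by
    intro U
    refine cint_mul μ (fun e => ¬ sl e) (fun V U => ?_) U
    have h : ∀ W : Link → S3, glue (fun e => ¬ sl e) W (glue (fun e => ¬ sl e) V U)
        = glue (fun e => ¬ sl e) W U := by
      intro W
      funext e
      by_cases he : ¬ sl e
      · rw [glue_pos (S := fun e => ¬ sl e) he, glue_pos (S := fun e => ¬ sl e) he]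
      · rw [glue_neg (S := fun e => ¬ sl e) he, glue_neg (S := fun e => ¬ sl e) he,
          glue_neg (S := fun e => ¬ sl e) he]
    unfold cint
    simp only [h]
  simp only [e3]
  exact integral_nonneg fun U => mul_self_nonneg _

/-! ## symmetric regions -/

/-- plaquettes above the time slice -/
def QP (n : ℕ) : Finset Plaq :=
  (LB n).filter fun p => (p.1.2.1 = 0 ∧ 0 ≤ p.1.1 0) ∨ (p.1.2.1 ≠ 0 ∧ 0 < p.1.1 0)

/-- plaquettes in the time slice -/
def QZ (n : ℕ) : Finset Plaq := (LB n).filter fun p => p.1.2.1 ≠ 0 ∧ p.1.1 0 = 0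

/-- symmetric regions -/
def QS (n : ℕ) : Finset Plaq := (QP n ∪ QZ n) ∪ (QP n).image rp

lemma rp_zero_fix {p : Plaq} (h : p.1.2.1 ≠ 0 ∧ p.1.1 0 = 0) : rp p = p := by
  rw [rp_neg h.1]
  apply Subtype.ext
  have : rs p.1.1 = p.1.1 := by
    funext k
    by_cases hk : k = 0
    · subst hk; rw [rs_zero, h.2, neg_zero]
    · rw [rs_ne _ hk]
  simp only [this]

lemma rp_base {p : Plaq} (h : (p.1.2.1 = 0 ∧ 0 ≤ p.1.1 0) ∨ (p.1.2.1 ≠ 0 ∧ 0 < p.1.1 0)) :
    (rp p).1.1 0 < 0 := by
  rcases h with ⟨h1, h2⟩ | ⟨h1, h2⟩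
  · rw [rp_pos h1]
    simp only
    rw [Pi.sub_apply, rs_zero, un_zero_zero]
    omega
  · rw [rp_neg h1]
    simp only
    rw [rs_zero]
    omega

lemma rp_mem_LB {n : ℕ} {p : Plaq} (hp : p ∈ LB n) (h : p.1.1 0 < 0)
    (h' : -(n : ℤ) < p.1.1 0) : rp p ∈ LB n := by
  rw [mem_LB] at hp ⊢
  intro k
  by_cases h0 : p.1.2.1 = 0
  · rw [rp_pos h0]
    simp only
    by_cases hk : k = 0
    · subst hk
      rw [Pi.sub_apply, rs_zero, un_zero_zero]
      omega
    · rw [Pi.sub_apply, rs_ne _ hk]
      unfold un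
      rw [Pi.single_eq_of_ne hk, sub_zero]
      exact hp k
  · rw [rp_neg h0]
    simp only
    by_cases hk : k = 0
    · subst hk
      rw [rs_zero]
      omega
    · rw [rs_ne _ hk]
      exact hp k

lemma LB_sub_QS (n : ℕ) : LB (n - 1) ⊆ QS n := by
  intro p hp
  have hpn : p ∈ LB n := LB_mono (Nat.sub_le _ _) hp
  unfold QS
  rcases lt_trichotomy (p.1.1 0) 0 with h | h | h
  · refine Finset.mem_union_right _ (Finset.mem_image.2 ⟨rp p, ?_, rp_rp p⟩)
    have hb := (mem_LB.1 hp) 0
    have hb' : -(n : ℤ) < p.1.1 0 := by omega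
    refine Finset.mem_filter.2 ⟨rp_mem_LB hpn h hb', ?_⟩
    by_cases h0 : p.1.2.1 = 0
    · left
      rw [rp_pos h0]
      simp only
      rw [Pi.sub_apply, rs_zero, un_zero_zero]
      exact ⟨h0, by omega⟩
    · right
      rw [rp_neg h0]
      simp only
      rw [rs_zero]
      exact ⟨h0, by omega⟩
  · refine Finset.mem_union_left _ ?_
    by_cases h0 : p.1.2.1 = 0
    · exact Finset.mem_union_left _ (Finset.mem_filter.2 ⟨hpn, Or.inl ⟨h0, h.ge⟩⟩)
    · exact Finset.mem_union_right _ (Finset.mem_filter.2 ⟨hpn, h0, h⟩)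
  · refine Finset.mem_union_left _ ?_
    by_cases h0 : p.1.2.1 = 0
    · exact Finset.mem_union_left _ (Finset.mem_filter.2 ⟨hpn, Or.inl ⟨h0, h.le⟩⟩)
    · exact Finset.mem_union_left _ (Finset.mem_filter.2 ⟨hpn, Or.inr ⟨h0, h⟩⟩)

lemma QZ_image (n : ℕ) : (QZ n).image rp = QZ n := by
  apply Finset.ext
  intro p
  rw [Finset.mem_image]
  constructor
  · rintro ⟨q, hq, rfl⟩
    rw [rp_zero_fix (Finset.mem_filter.1 hq).2]
    exact hq
  · intro hp
    exact ⟨p, hp, rp_zero_fix (Finset.mem_filter.1 hp).2⟩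

lemma image_image_rp (Q : Finset Plaq) : (Q.image rp).image rp = Q := by
  apply Finset.ext
  intro p
  simp only [Finset.mem_image]
  constructor
  · rintro ⟨q, ⟨r, hr, rfl⟩, rfl⟩
    rw [rp_rp]
    exact hr
  · intro hp
    exact ⟨rp p, ⟨p, hp, rfl⟩, rp_rp p⟩

lemma QS_image (n : ℕ) : (QS n).image rp = QS n := by
  have h : ∀ X Y : Finset Plaq, Y.image rp = Y →
      ((X ∪ Y) ∪ X.image rp).image rp = (X ∪ Y) ∪ X.image rp := by
    intro X Y hY
    rw [Finset.image_union, Finset.image_union, hY, image_image_rp, Finset.union_right_comm,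
      Finset.union_comm (X.image rp) X, Finset.union_right_comm]
  exact h _ _ (QZ_image n)

lemma wt_QS (β : Plaq → ℝ) (hβ : ∀ p, β (rp p) = β p) (n : ℕ) (U : Link → S3) :
    wt β (QS n) U = (wt β (QP n) U * wt (fun p => β p / 2) (QZ n) U)
      * (wt β (QP n) (refl U) * wt (fun p => β p / 2) (QZ n) (refl U)) := by
  rw [wt_refl β hβ, wt_refl (fun p => β p / 2) (fun p => by rw [hβ])]
  rw [QZ_image]
  have hd1 : Disjoint (QP n ∪ QZ n) ((QP n).image rp) := by
    refine Finset.disjoint_left.2 fun p hp hp' => ?_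
    obtain ⟨q, hq, rfl⟩ := Finset.mem_image.1 hp'
    have h1 := rp_base (Finset.mem_filter.1 hq).2
    rcases Finset.mem_union.1 hp with h | h
    · rcases (Finset.mem_filter.1 h).2 with h2 | h2 <;> omega
    · have := (Finset.mem_filter.1 h).2.2
      omega
  have hd2 : Disjoint (QP n) (QZ n) := by
    refine Finset.disjoint_left.2 fun p hp hp' => ?_
    have h1 := (Finset.mem_filter.1 hp).2
    have h2 := (Finset.mem_filter.1 hp').2
    rcases h1 with h3 | h3
    · exact h2.1 h3.1
    · omega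
  unfold wt QS
  rw [Finset.sum_union hd1, Finset.sum_union hd2, ← Real.exp_add, ← Real.exp_add, ← Real.exp_add]
  congr 1
  have e : ∑ p ∈ QZ n, β p / 2 * ((plq U p : S3) : ℍ[ℝ]).re
      = (1 / 2) * ∑ p ∈ QZ n, β p * ((plq U p : S3) : ℍ[ℝ]).re := by
    rw [Finset.mul_sum]
    exact Finset.sum_congr rfl fun p _ => by ring
  rw [e]
  ring

lemma lk_up {p : Plaq} (h : 0 ≤ p.1.1 0) {e : Link} (he : e ∈ lk p) : up e :=
  le_trans h (base_bds he 0).1

lemma updep_wt (β : Plaq → ℝ) (Q : Finset Plaq) (hQ : ∀ p ∈ Q, 0 ≤ p.1.1 0) : UpDep (wt β Q) := by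
  intro U V hUV
  refine (wt_good β Q).dep U V fun e he => ?_
  obtain ⟨p, hp, hep⟩ := Finset.mem_biUnion.1 he
  exact hUV e (lk_up (hQ p hp) hep)

/-- **Reflection positivity in finite volume.** -/
theorem rp_fin (β : Plaq → ℝ) (hβ : ∀ p, β (rp p) = β p) (n : ℕ) {F : (Link → S3) → ℝ}
    (hF : Continuous F) (hd : UpDep F) : 0 ≤ exq μ β (QS n) fun U => F (refl U) * F U := by
  unfold exq
  refine div_nonneg ?_ (int_wt_pos μ β _).le
  have h1 : Continuous fun U => F U * (wt β (QP n) U * wt (fun p => β p / 2) (QZ n) U) :=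
    hF.mul ((wt_cont β _).mul (wt_cont _ _))
  have h2 : UpDep fun U => F U * (wt β (QP n) U * wt (fun p => β p / 2) (QZ n) U) := by
    intro U V hUV
    have a1 := hd U V hUV
    have a2 := updep_wt β (QP n) (fun p hp => by
      rcases (Finset.mem_filter.1 hp).2 with h | h
      · exact h.2
      · exact h.2.le) U V hUV
    have a3 := updep_wt (fun p => β p / 2) (QZ n) (fun p hp =>
      (Finset.mem_filter.1 hp).2.2.ge) U V hUV
    show F U * (wt β (QP n) U * wt (fun p => β p / 2) (QZ n) U)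
      = F V * (wt β (QP n) V * wt (fun p => β p / 2) (QZ n) V)
    rw [a1, a2, a3]
  have h3 := rp0 μ h1 h2
  refine le_trans h3 (le_of_eq ?_)
  congr 1
  funext U
  rw [wt_QS β hβ n U]
  ring

end Pool.Agent.H859.YMG
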