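import Pool.Agent.H859.YM.Exist

/-!
# Time translations and time reflections
-/

set_option autoImplicit false
set_option linter.unusedSectionVars false

noncomputable section

namespace Pool.Agent.H859.YMG

open MeasureTheory Measure Function Quaternion Filter Topology
open Pool.Agent.H556R4.Dob Pool.Agent.H556R4.SU2 Pool.Agent.V11262.ER

/-- reflection of a site at the hyperplane of time `0` -/
def rs (x : Site) : Site := Function.update x 0 (-x 0)

lemma rs_zero (x : Site) : rs x 0 = -x 0 := by simp [rs]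

lemma rs_ne (x : Site) {k : Fin 4} (h : k ≠ 0) : rs x k = x k := by simp [rs, h]

lemma rs_rs (x : Site) : rs (rs x) = x := by
  funext k
  by_cases h : k = 0
  · subst h; rw [rs_zero, rs_zero, neg_neg]
  · rw [rs_ne _ h, rs_ne _ h]

lemma rs_add_ne (x : Site) {i : Fin 4} (h : i ≠ 0) : rs (x + un i) = rs x + un i := by
  funext k
  by_cases hk : k = 0
  · subst hk
    rw [rs_zero, Pi.add_apply, Pi.add_apply, rs_zero]
    unfold un
    rw [Pi.single_eq_of_ne (Ne.symm h)]
    ring
  · rw [rs_ne _ hk, Pi.add_apply, Pi.add_apply, rs_ne _ hk]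

lemma rs_add_zero (x : Site) : rs (x + un 0) = rs x - un 0 := by
  funext k
  by_cases hk : k = 0
  · subst hk
    rw [rs_zero, Pi.add_apply, Pi.sub_apply, rs_zero]
    ring
  · rw [rs_ne _ hk, Pi.add_apply, Pi.sub_apply, rs_ne _ hk]
    unfold un
    rw [Pi.single_eq_of_ne hk]
    ring

lemma rs_sub_zero (x : Site) : rs (x - un 0) = rs x + un 0 := by
  have := rs_add_zero (x - un 0)
  rw [sub_add_cancel] at this
  rw [this, sub_add_cancel]

/-- reflection of a link -/
def rl (e : Link) : Link := if e.2 = 0 then (rs e.1 - un 0, e.2) else (rs e.1, e.2)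

lemma rl_pos {e : Link} (h : e.2 = 0) : rl e = (rs e.1 - un 0, e.2) := if_pos h

lemma rl_neg {e : Link} (h : e.2 ≠ 0) : rl e = (rs e.1, e.2) := if_neg h

lemma rl_snd (e : Link) : (rl e).2 = e.2 := by
  by_cases h : e.2 = 0
  · rw [rl_pos h]
  · rw [rl_neg h]

lemma rl_rl (e : Link) : rl (rl e) = e := by
  by_cases h : e.2 = 0
  · have h1 : (rl e).2 = 0 := by rw [rl_snd, h]
    rw [rl_pos h1, rl_pos h]
    simp only [rs_sub_zero, rs_rs, add_sub_cancel_right]
  · have h1 : (rl e).2 ≠ 0 := by rw [rl_snd]; exact h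
    rw [rl_neg h1, rl_neg h]
    simp only [rs_rs]

/-- the involution of the links -/
def rle : Link ≃ Link := ⟨rl, rl, rl_rl, rl_rl⟩

/-- the shift of the links -/
def she : Link ≃ Link :=
  ⟨fun e => (e.1 + un 0, e.2), fun e => (e.1 - un 0, e.2), fun e => by simp, fun e => by simp⟩

/-- inversion of the temporal links -/
def iv (U : Link → S3) : Link → S3 := fun e => if e.2 = 0 then (U e)⁻¹ else U e

/-- time reflection of a configuration -/
def refl (U : Link → S3) : Link → S3 := fun e => if e.2 = 0 then (U (rl e))⁻¹ else U (rl e)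

/-- time translation of a configuration -/
def shift (U : Link → S3) : Link → S3 := fun e => U (e.1 + un 0, e.2)

lemma refl_eq (U : Link → S3) : refl U = iv (U ∘ rle) := rfl

lemma refl_refl (U : Link → S3) : refl (refl U) = U := by
  funext e
  unfold refl
  by_cases h : e.2 = 0
  · have h1 : (rl e).2 = 0 := by rw [rl_snd, h]
    rw [if_pos h, if_pos h1, inv_inv, rl_rl]
  · have h1 : (rl e).2 ≠ 0 := by rw [rl_snd]; exact h
    rw [if_neg h, if_neg h1, rl_rl]

lemma shift_refl_shift (U : Link → S3) : shift (refl (shift U)) = refl U := by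
  funext e
  unfold shift refl
  simp only
  by_cases h : e.2 = 0
  · rw [if_pos h, if_pos h]
    have h1 : rl (e.1 + un 0, e.2) = (rs (e.1 + un 0) - un 0, e.2) := rl_pos h
    rw [h1, rl_pos h, rs_add_zero]
    simp only [sub_add_cancel]
  · rw [if_neg h, if_neg h]
    have h1 : rl (e.1 + un 0, e.2) = (rs (e.1 + un 0), e.2) := rl_neg h
    rw [h1, rl_neg h, rs_add_zero]
    simp only [sub_add_cancel]

/-- reflection of a plaquette -/
def rp (p : Plaq) : Plaq :=
  if p.1.2.1 = 0 then ⟨(rs p.1.1 - un 0, p.1.2.1, p.1.2.2), p.2⟩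
  else ⟨(rs p.1.1, p.1.2.1, p.1.2.2), p.2⟩

lemma rp_pos {p : Plaq} (h : p.1.2.1 = 0) : rp p = ⟨(rs p.1.1 - un 0, p.1.2.1, p.1.2.2), p.2⟩ :=
  if_pos h

lemma rp_neg {p : Plaq} (h : p.1.2.1 ≠ 0) : rp p = ⟨(rs p.1.1, p.1.2.1, p.1.2.2), p.2⟩ := if_neg h

lemma rp_dir (p : Plaq) : (rp p).1.2 = p.1.2 := by
  by_cases h : p.1.2.1 = 0
  · rw [rp_pos h]
  · rw [rp_neg h]

lemma rp_rp (p : Plaq) : rp (rp p) = p := by
  by_cases h : p.1.2.1 = 0
  · have h1 : (rp p).1.2.1 = 0 := by rw [rp_dir, h]
    rw [rp_pos h1]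
    apply Subtype.ext
    simp only [rp_dir]
    rw [rp_pos h]
    simp only [rs_sub_zero, rs_rs, add_sub_cancel_right]
  · have h1 : (rp p).1.2.1 ≠ 0 := by rw [rp_dir]; exact h
    rw [rp_neg h1]
    apply Subtype.ext
    simp only [rp_dir]
    rw [rp_neg h]
    simp only [rs_rs]

lemma rp_inj : Function.Injective rp := fun p q h => by
  rw [← rp_rp p, h, rp_rp]

/-- shift of a plaquette -/
def sp (p : Plaq) : Plaq := ⟨(p.1.1 + un 0, p.1.2.1, p.1.2.2), p.2⟩

lemma sp_inj : Function.Injective sp := by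
  intro p q h
  have h1 := congrArg Subtype.val h
  unfold sp at h1
  simp only [Prod.mk.injEq] at h1
  exact Subtype.ext (Prod.ext (add_right_cancel h1.1) (Prod.ext h1.2.1 h1.2.2))

lemma plq_shift (U : Link → S3) (p : Plaq) : (plq (shift U) p : S3) = plq U (sp p) := by
  unfold plq shift l1 l2 l3 l4 sp
  simp only
  rw [add_right_comm p.1.1 (un 0) (un p.1.2.1), add_right_comm p.1.1 (un 0) (un p.1.2.2)]

lemma re_inv (g : S3) : ((g⁻¹ : S3) : ℍ[ℝ]).re = (g : ℍ[ℝ]).re := by
  rw [coe_inv, Quaternion.re_star]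

lemma plq_refl (U : Link → S3) (p : Plaq) :
    ((plq (refl U) p : S3) : ℍ[ℝ]).re = ((plq U (rp p) : S3) : ℍ[ℝ]).re := by
  obtain ⟨⟨x, i, j⟩, hij⟩ := p
  simp only at hij
  have hj : j ≠ 0 := fun h => by rw [h] at hij; exact absurd hij (Fin.not_lt_zero i)
  by_cases hi : i = 0
  · subst hi
    rw [rp_pos rfl]
    simp only
    set y := rs x - un 0 with hy
    have e1 : refl U (x, 0) = (U (y, 0))⁻¹ := by
      unfold refl; rw [if_pos rfl, rl_pos rfl]
    have e2 : refl U (x + un 0, j) = U (y, j) := by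
      unfold refl; rw [if_neg hj, rl_neg (show (x + un 0, j).2 ≠ 0 from hj)]
      simp only [rs_add_zero, hy]
    have e3 : refl U (x + un j, 0) = (U (y + un j, 0))⁻¹ := by
      unfold refl; rw [if_pos rfl, rl_pos rfl]
      simp only [rs_add_ne x hj, hy]
      rw [add_sub_right_comm]
    have e4 : refl U (x, j) = U (y + un 0, j) := by
      unfold refl; rw [if_neg hj, rl_neg (show (x, j).2 ≠ 0 from hj)]
      simp only [hy, sub_add_cancel]
    have e5 : (plq (refl U) ⟨(x, 0, j), hij⟩ : S3)
        = (U (y, 0))⁻¹ * (plq U ⟨(y, 0, j), hij⟩)⁻¹ * ((U (y, 0))⁻¹)⁻¹ := by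
      have e6 : (plq (refl U) ⟨(x, 0, j), hij⟩ : S3)
          = refl U (x, 0) * refl U (x + un 0, j) * (refl U (x + un j, 0))⁻¹ * (refl U (x, j))⁻¹ := rfl
      have e7 : (plq U ⟨(y, 0, j), hij⟩ : S3)
          = U (y, 0) * U (y + un 0, j) * (U (y + un j, 0))⁻¹ * (U (y, j))⁻¹ := rfl
      rw [e6, e7, e1, e2, e3, e4]
      group
    rw [e5, coe_conj, re_conj, re_inv]
  · rw [rp_neg hi]
    simp only
    have e : ∀ z : Site, ∀ k : Fin 4, k ≠ 0 → refl U (z, k) = U (rs z, k) := by
      intro z k hk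
      unfold refl; rw [if_neg hk, rl_neg (show (z, k).2 ≠ 0 from hk)]
    have e6 : (plq (refl U) ⟨(x, i, j), hij⟩ : S3)
        = refl U (x, i) * refl U (x + un i, j) * (refl U (x + un j, i))⁻¹ * (refl U (x, j))⁻¹ := rfl
    have e7 : (plq U ⟨(rs x, i, j), hij⟩ : S3)
        = U (rs x, i) * U (rs x + un i, j) * (U (rs x + un j, i))⁻¹ * (U (rs x, j))⁻¹ := rfl
    rw [e6, e7, e _ _ hi, e _ _ hj, e _ _ hi, e _ _ hj, rs_add_ne x hi, rs_add_ne x hj]

lemma wt_refl (β : Plaq → ℝ) (hβ : ∀ p, β (rp p) = β p) (Q : Finset Plaq) (U : Link → S3) :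
    wt β Q (refl U) = wt β (Q.image rp) U := by
  unfold wt
  congr 1
  rw [Finset.sum_image (fun p _ q _ h => rp_inj h)]
  exact Finset.sum_congr rfl fun p _ => by rw [plq_refl, hβ]

lemma wt_shift (β : Plaq → ℝ) (hβ : ∀ p, β (sp p) = β p) (Q : Finset Plaq) (U : Link → S3) :
    wt β Q (shift U) = wt β (Q.image sp) U := by
  unfold wt
  congr 1
  rw [Finset.sum_image (fun p _ q _ h => sp_inj h)]
  exact Finset.sum_congr rfl fun p _ => by rw [plq_shift, hβ]

/-- couplings which are invariant under time translations are invariant under reflections -/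
lemma rp_of_sp {β : Plaq → ℝ} (hβ : ∀ p, β (sp p) = β p) (p : Plaq) : β (rp p) = β p := by
  have key : ∀ (n : ℕ) (x : Site) (d : Fin 4 × Fin 4) (h : d.1 < d.2),
      β ⟨(x + (n : ℤ) • un 0, d), h⟩ = β ⟨(x, d), h⟩ := by
    intro n
    induction n with
    | zero => intro x d h; congr 2; simp
    | succ n ih =>
      intro x d h
      rw [← ih x d h, ← hβ ⟨(x + (n : ℤ) • un 0, d), h⟩]
      unfold sp
      congr 2
      simp only [Prod.mk.injEq]
      refine ⟨?_, trivial⟩
      push_cast
      rw [add_smul, one_smul, add_assoc]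
  have key2 : ∀ (m : ℤ) (x : Site) (d : Fin 4 × Fin 4) (h : d.1 < d.2),
      β ⟨(x + m • un 0, d), h⟩ = β ⟨(x, d), h⟩ := by
    intro m x d h
    obtain ⟨n, rfl | rfl⟩ := Int.eq_nat_or_neg m
    · exact key n x d h
    · have := key n (x + (-(n : ℤ)) • un 0) d h
      rw [← this]
      congr 3
      rw [neg_smul, neg_add_cancel_right]
  have hrs : ∀ x : Site, rs x = x + (-2 * x 0) • un 0 := by
    intro x
    funext k
    by_cases hk : k = 0
    · subst hk
      rw [rs_zero, Pi.add_apply, Pi.smul_apply]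
      unfold un
      rw [Pi.single_eq_same, smul_eq_mul]
      ring
    · rw [rs_ne _ hk, Pi.add_apply, Pi.smul_apply]
      unfold un
      rw [Pi.single_eq_of_ne hk, smul_zero, add_zero]
  obtain ⟨⟨x, d⟩, h⟩ := p
  by_cases h0 : d.1 = 0
  · rw [rp_pos h0]
    simp only
    have e : rs x - un 0 = x + (-2 * x 0 - 1) • un 0 := by
      rw [hrs, sub_smul, one_smul, add_sub_assoc]
    rw [← key2 (-2 * x 0 - 1) x d h]
    congr 2
    rw [e]
  · rw [rp_neg h0]
    simp only
    rw [← key2 (-2 * x 0) x d h]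
    congr 2
    rw [hrs]

lemma refl_cont : Continuous refl := by
  refine continuous_pi fun e => ?_
  unfold refl
  by_cases h : e.2 = 0
  · simp only [if_pos h]
    exact (continuous_apply (rl e)).inv
  · simp only [if_neg h]
    exact continuous_apply (rl e)

lemma shift_cont : Continuous shift := continuous_pi fun _ => continuous_apply _

variable [MeasurableSpace S3] [BorelSpace S3] (μ : Measure S3) [IsProbabilityMeasure μ]

lemma mp_reindex (e : Link ≃ Link) :
    MeasurePreserving (fun U : Link → S3 => fun l => U (e l)) (hm μ) (hm μ) := by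
  have hmeas : Measurable (fun U : Link → S3 => fun l => U (e l)) :=
    measurable_pi_lambda _ fun l => measurable_pi_apply (e l)
  refine ⟨hmeas, ?_⟩
  refine eq_infinitePi _ fun s t ht => ?_
  rw [map_apply hmeas (MeasurableSet.pi s.countable_toSet fun i _ => ht i)]
  have h : (fun U : Link → S3 => fun l => U (e l)) ⁻¹' (Set.pi s t)
      = Set.pi (s.map e.toEmbedding : Finset Link) (fun l => t (e.symm l)) := by
    ext U
    simp only [Set.mem_preimage, Set.mem_pi, Finset.mem_coe, Finset.mem_map_equiv]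
    constructor
    · intro h l hl
      have := h _ hl
      rwa [Equiv.apply_symm_apply] at this
    · intro h l hl
      have := h (e l) (by rwa [Equiv.symm_apply_apply])
      rwa [Equiv.symm_apply_apply] at this
  rw [h]
  unfold hm
  rw [infinitePi_pi _ (fun i _ => ht _), Finset.prod_map]
  simp

lemma mp_shift : MeasurePreserving shift (hm μ) (hm μ) := mp_reindex μ she

variable [μ.IsHaarMeasure]

lemma mp_iv : MeasurePreserving iv (hm μ) (hm μ) := by
  have := right_inv μ
  have := inv_inv' μ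
  have hmeas : ∀ e : Link, Measurable fun a : S3 => if e.2 = 0 then a⁻¹ else a := by
    intro e
    by_cases h : e.2 = 0
    · simp only [if_pos h]; exact measurable_inv
    · simp only [if_neg h]; exact measurable_id
  refine ⟨measurable_pi_lambda _ fun e => (hmeas e).comp (measurable_pi_apply e), ?_⟩
  have h := infinitePi_map_pi (μ := fun _ : Link => μ)
    (f := fun (e : Link) (a : S3) => if e.2 = 0 then a⁻¹ else a) hmeas
  have h2 : ∀ e : Link, μ.map (fun a : S3 => if e.2 = 0 then a⁻¹ else a) = μ := by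
    intro e
    by_cases h : e.2 = 0
    · simp only [if_pos h]
      exact (measurePreserving_inv μ).map_eq
    · simp only [if_neg h]
      exact Measure.map_id
  simp only [h2] at h
  exact h

lemma mp_refl : MeasurePreserving refl (hm μ) (hm μ) :=
  (mp_iv μ).comp (mp_reindex μ rle)

end Pool.Agent.H859.YMG
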