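import Mathlib

/-!
# Smoothing of Lipschitz functions
-/

set_option autoImplicit false

noncomputable section

namespace Pool.Agent.H859.YM

open MeasureTheory Metric Set
open scoped Convolution ContDiff

/-- a Lipschitz function is a uniform limit of `C^1` functions with the same Lipschitz constant -/
lemma exists_smooth {E : Type} [NormedAddCommGroup E] [InnerProductSpace ℝ E]
    [FiniteDimensional ℝ E] {g : E → ℝ} (hg : LipschitzWith 1 g) {ε : ℝ} (hε : 0 < ε) :
    ∃ G : E → ℝ, ContDiff ℝ 1 G ∧ LipschitzWith 1 G ∧ ∀ x, |G x - g x| ≤ ε := by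
  letI : MeasurableSpace E := borel E
  haveI : BorelSpace E := ⟨rfl⟩
  let ν : Measure E := Measure.addHaar
  let φ : ContDiffBump (0 : E) := ⟨ε / 2, ε, by positivity, by linarith⟩
  have hφc : HasCompactSupport (φ.normed ν) := φ.hasCompactSupport_normed
  have hφd : ContDiff ℝ 1 (φ.normed ν) := φ.contDiff_normed
  have hgc : Continuous g := hg.continuous
  have hgl : LocallyIntegrable g ν := hgc.locallyIntegrable
  refine ⟨(φ.normed ν) ⋆[ContinuousLinearMap.lsmul ℝ ℝ, ν] g, ?_, ?_, ?_⟩
  · exact hφc.contDiff_convolution_left _ hφd hgl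
  · refine LipschitzWith.of_dist_le_mul fun x y => ?_
    have hex : ∀ x, Integrable (fun t => φ.normed ν t • g (x - t)) ν := fun x =>
      hφc.convolutionExists_left (ContinuousLinearMap.lsmul ℝ ℝ) hφd.continuous hgl x
    have e1 : ((φ.normed ν) ⋆[ContinuousLinearMap.lsmul ℝ ℝ, ν] g) x
        - ((φ.normed ν) ⋆[ContinuousLinearMap.lsmul ℝ ℝ, ν] g) y
        = ∫ t, (φ.normed ν t • g (x - t) - φ.normed ν t • g (y - t)) ∂ν := by
      rw [integral_sub (hex x) (hex y)]
      rfl
    rw [Real.dist_eq, e1, NNReal.coe_one, one_mul]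
    refine (abs_integral_le_integral_abs).trans ?_
    have h2 : ∀ t, |φ.normed ν t • g (x - t) - φ.normed ν t • g (y - t)|
        ≤ φ.normed ν t * dist x y := by
      intro t
      rw [← smul_sub, smul_eq_mul, abs_mul, abs_of_nonneg (φ.nonneg_normed t)]
      refine mul_le_mul_of_nonneg_left ?_ (φ.nonneg_normed t)
      have := hg.dist_le_mul (x - t) (y - t)
      rw [NNReal.coe_one, one_mul, Real.dist_eq, dist_sub_right] at this
      exact this
    refine (integral_mono_of_nonneg (Filter.Eventually.of_forall fun t => abs_nonneg _)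
      (φ.integrable_normed.mul_const _) (Filter.Eventually.of_forall h2)).trans ?_
    rw [integral_mul_const, φ.integral_normed, one_mul]
  · intro x
    rw [← Real.dist_eq]
    refine φ.dist_normed_convolution_le hgc.aestronglyMeasurable fun y hy => ?_
    have := hg.dist_le_mul y x
    rw [NNReal.coe_one, one_mul] at this
    exact this.trans (mem_ball.1 hy).le

end Pool.Agent.H859.YM
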