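import Pool.Agent.H859.YM.Key
import Pool.Agent.H859.YM.Smooth

/-!
# The transport estimate for one spin with the sharp constant `1 / 4`
-/

set_option autoImplicit false
set_option linter.unusedSectionVars false

noncomputable section

namespace Pool.Agent.H859.YM

open MeasureTheory Quaternion Set
open Pool.Agent.H556R4.SU2 (S3 norm_coe' Eh Zs)
open Pool.Agent.H556R4.Dob (BM)

variable [MeasurableSpace S3] [BorelSpace S3] (μ : Measure S3) [IsProbabilityMeasure μ]
  [μ.IsMulLeftInvariant] [μ.IsMulRightInvariant] [μ.IsInvInvariant]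

/-- derivative of an integral against the weight -/
lemma deriv_int {F : ℍ[ℝ] → ℝ} (hF : Continuous F) (h δ : ℍ[ℝ]) (t : ℝ) :
    HasDerivAt (fun t : ℝ => ∫ s : S3, F s * w (h + t • δ) s ∂μ)
      (∫ s : S3, F s * (inner ℝ δ (s : ℍ[ℝ]) * w (h + t • δ) s) ∂μ) t := by
  have hS : Continuous fun s : S3 => F s := hF.comp continuous_subtype_val
  obtain ⟨C, hC⟩ := isCompact_univ.exists_bound_of_continuousOn (f := fun s : S3 => F s)
    hS.continuousOn
  have hC0 : 0 ≤ C := (norm_nonneg _).trans (hC 1 (mem_univ _))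
  have hw : ∀ (t : ℝ), Continuous fun s : S3 => w (h + t • δ) s := fun t => by fun_prop
  have key := hasDerivAt_integral_of_dominated_loc_of_deriv_le (μ := μ) (x₀ := t)
    (s := Metric.ball t 1)
    (bound := fun _ => C * (‖δ‖ * Real.exp (‖h‖ + (|t| + 1) * ‖δ‖)))
    (F := fun t s => F s * w (h + t • δ) s)
    (F' := fun t s => F s * (inner ℝ δ (s : ℍ[ℝ]) * w (h + t • δ) s))
    (Metric.ball_mem_nhds t one_pos)
    (Filter.Eventually.of_forall fun t => (hS.mul (hw t)).aestronglyMeasurable)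
    (int_S μ (hS.mul (hw t)))
    ((by fun_prop : Continuous fun s : S3 =>
      F s * (inner ℝ δ (s : ℍ[ℝ]) * w (h + t • δ) s)).aestronglyMeasurable)
    (Filter.Eventually.of_forall fun s t' ht' => by
      rw [norm_mul, norm_mul]
      have h1 : ‖inner ℝ δ (s : ℍ[ℝ])‖ ≤ ‖δ‖ := by
        have := abs_real_inner_le_norm δ (s : ℍ[ℝ])
        rwa [norm_coe', mul_one] at this
      have h2 : ‖w (h + t' • δ) s‖ ≤ Real.exp (‖h‖ + (|t| + 1) * ‖δ‖) := by
        rw [Real.norm_eq_abs, abs_of_pos (w_pos _ _)]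
        refine Real.exp_le_exp.2 ?_
        refine (real_inner_le_norm _ _).trans ?_
        rw [norm_coe', mul_one]
        refine (norm_add_le _ _).trans ?_
        rw [norm_smul, Real.norm_eq_abs]
        have h3 : |t'| ≤ |t| + 1 := by
          rw [Metric.mem_ball, Real.dist_eq] at ht'
          have := abs_sub_abs_le_abs_sub t' t
          linarith
        have := mul_le_mul_of_nonneg_right h3 (norm_nonneg δ)
        linarith
      exact mul_le_mul (hC s (mem_univ _)) (mul_le_mul h1 h2 (norm_nonneg _) (norm_nonneg _))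
        (by positivity) hC0)
    (integrable_const _)
    (Filter.Eventually.of_forall fun s t' _ => by
      have h1 : HasDerivAt (fun t : ℝ => inner ℝ (h + t • δ) (s : ℍ[ℝ])) (inner ℝ δ (s : ℍ[ℝ])) t' := by
        have h2 : (fun t : ℝ => inner ℝ (h + t • δ) (s : ℍ[ℝ]))
            = fun t : ℝ => inner ℝ h (s : ℍ[ℝ]) + t * inner ℝ δ (s : ℍ[ℝ]) := by
          funext t
          rw [inner_add_left, real_inner_smul_left]
        rw [h2]
        simpa using ((hasDerivAt_id t').mul_const (inner ℝ δ (s : ℍ[ℝ]))).const_add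
          (inner ℝ h (s : ℍ[ℝ]))
      have h3 := (h1.exp).const_mul (F s)
      refine h3.congr_deriv ?_
      unfold w
      ring)
  exact key.2

/-- the mean of `F` -/
def u (F : ℍ[ℝ] → ℝ) (h : ℍ[ℝ]) : ℝ := (∫ s : S3, F s * w h s ∂μ) / Z μ h

lemma deriv_u {F : ℍ[ℝ] → ℝ} (hF : Continuous F) (h δ : ℍ[ℝ]) (t : ℝ) :
    HasDerivAt (fun t : ℝ => u μ F (h + t • δ))
      ((∫ s : S3, F s * (inner ℝ δ (s : ℍ[ℝ]) - P0 μ (h + t • δ) / Z μ (h + t • δ)
        * inner ℝ (h + t • δ) δ) * w (h + t • δ) s ∂μ) / Z μ (h + t • δ)) t := by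
  have h1 := deriv_int μ hF h δ t
  have h2 := deriv_int μ (F := fun _ => 1) continuous_const h δ t
  have e2 : (fun t : ℝ => ∫ s : S3, (1 : ℝ) * w (h + t • δ) s ∂μ) = fun t : ℝ => Z μ (h + t • δ) := by
    funext t
    unfold Z
    simp only [one_mul]
  rw [e2] at h2
  have e3 : ∫ s : S3, (1 : ℝ) * (inner ℝ δ (s : ℍ[ℝ]) * w (h + t • δ) s) ∂μ
      = inner ℝ (h + t • δ) δ * P0 μ (h + t • δ) := by
    simp only [one_mul]
    exact mom_S μ _ δ
  rw [e3] at h2
  have hZ := Z_pos μ (h + t • δ)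
  have h3 := h1.div h2 hZ.ne'
  refine h3.congr_deriv ?_
  have hc := hF.comp (continuous_subtype_val : Continuous fun s : S3 => (s : ℍ[ℝ]))
  have e4 : ∫ s : S3, F s * (inner ℝ δ (s : ℍ[ℝ]) - P0 μ (h + t • δ) / Z μ (h + t • δ)
        * inner ℝ (h + t • δ) δ) * w (h + t • δ) s ∂μ
      = ∫ s : S3, F s * (inner ℝ δ (s : ℍ[ℝ]) * w (h + t • δ) s) ∂μ
        - P0 μ (h + t • δ) / Z μ (h + t • δ) * inner ℝ (h + t • δ) δ
          * ∫ s : S3, F s * w (h + t • δ) s ∂μ := by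
    rw [← integral_const_mul, ← integral_sub (int_S μ (by fun_prop)) (int_S μ (by fun_prop))]
    refine integral_congr_ae (Filter.Eventually.of_forall fun s => ?_)
    simp only
    ring
  rw [e4]
  field_simp

/-- bound of the derivative -/
lemma cov_abs {F : ℍ[ℝ] → ℝ} (hF : ContDiff ℝ 1 F) (hL : ∀ x, ‖fderiv ℝ F x‖ ≤ 1)
    (h0 : ∀ x, |F x| ≤ ‖x‖) {h : ℍ[ℝ]} (δ : ℍ[ℝ]) (hh : ‖h‖ ≤ 2) :
    |∫ s : S3, F s * (inner ℝ δ (s : ℍ[ℝ]) - P0 μ h / Z μ h * inner ℝ h δ) * w h s ∂μ|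
      ≤ ‖δ‖ / 4 * Z μ h := by
  have hZ := Z_pos μ h
  by_cases hδ : δ = 0
  · subst hδ
    simp
  have hn : 0 < ‖δ‖ := norm_pos_iff.2 hδ
  have main : ∀ F : ℍ[ℝ] → ℝ, ContDiff ℝ 1 F → (∀ x, ‖fderiv ℝ F x‖ ≤ 1) → (∀ x, |F x| ≤ ‖x‖) →
      ∫ s : S3, F s * (inner ℝ δ (s : ℍ[ℝ]) - P0 μ h / Z μ h * inner ℝ h δ) * w h s ∂μ
      ≤ ‖δ‖ / 4 * Z μ h := by
    intro F hF hL h0
    have h1 := cov_le μ hF hL h0 (h := h) (δ := ‖δ‖⁻¹ • δ)
      (by rw [norm_smul, norm_inv, norm_norm, inv_mul_cancel₀ hn.ne']) hh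
    have e1 : ∫ s : S3, F s * (inner ℝ δ (s : ℍ[ℝ]) - P0 μ h / Z μ h * inner ℝ h δ) * w h s ∂μ
        = ‖δ‖ * ∫ s : S3, F s * (inner ℝ (‖δ‖⁻¹ • δ) (s : ℍ[ℝ])
          - P0 μ h / Z μ h * inner ℝ h (‖δ‖⁻¹ • δ)) * w h s ∂μ := by
      rw [← integral_const_mul]
      refine integral_congr_ae (Filter.Eventually.of_forall fun s => ?_)
      simp only [real_inner_smul_left, real_inner_smul_right]
      field_simp
    rw [e1]
    have := mul_le_mul_of_nonneg_left h1 hn.le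
    linarith
  rw [abs_le]
  refine ⟨?_, main F hF hL h0⟩
  have h2 := main (fun x => -F x) hF.neg (fun x => by rw [fderiv_fun_neg]; exact (le_of_eq (norm_neg (fderiv ℝ F x))).trans (hL x))
    (fun x => by rw [abs_neg]; exact h0 x)
  have e2 : ∫ s : S3, -F s * (inner ℝ δ (s : ℍ[ℝ]) - P0 μ h / Z μ h * inner ℝ h δ) * w h s ∂μ
      = -∫ s : S3, F s * (inner ℝ δ (s : ℍ[ℝ]) - P0 μ h / Z μ h * inner ℝ h δ) * w h s ∂μ := by
    rw [← integral_neg]
    refine integral_congr_ae (Filter.Eventually.of_forall fun s => ?_)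
    simp only
    ring
  rw [e2] at h2
  linarith

lemma u_lip {F : ℍ[ℝ] → ℝ} (hF : ContDiff ℝ 1 F) (hL : LipschitzWith 1 F)
    (h0 : F 0 = 0) {h h' : ℍ[ℝ]} (hh : ‖h‖ ≤ 2) (hh' : ‖h'‖ ≤ 2) :
    |u μ F h' - u μ F h| ≤ 1 / 4 * ‖h' - h‖ := by
  have hfd : ∀ x, ‖fderiv ℝ F x‖ ≤ 1 := fun x => by
    have := norm_fderiv_le_of_lipschitz ℝ hL (x₀ := x)
    simpa using this
  have hb : ∀ x, |F x| ≤ ‖x‖ := fun x => by
    have := hL.dist_le_mul x 0
    rw [Real.dist_eq, h0, sub_zero, NNReal.coe_one, one_mul, dist_zero_right] at this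
    exact this
  have h1 := norm_image_sub_le_of_norm_deriv_le_segment_01' (E := ℝ)
    (f := fun t : ℝ => u μ F (h + t • (h' - h))) (C := 1 / 4 * ‖h' - h‖)
    (f' := fun t => (∫ s : S3, F s * (inner ℝ (h' - h) (s : ℍ[ℝ])
        - P0 μ (h + t • (h' - h)) / Z μ (h + t • (h' - h))
        * inner ℝ (h + t • (h' - h)) (h' - h)) * w (h + t • (h' - h)) s ∂μ)
          / Z μ (h + t • (h' - h)))
    (fun t _ => (deriv_u μ hF.continuous h (h' - h) t).hasDerivWithinAt)
    (fun t ht => by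
      have hn : ‖h + t • (h' - h)‖ ≤ 2 := by
        have e : h + t • (h' - h) = (1 - t) • h + t • h' := by module
        rw [e]
        refine (norm_add_le _ _).trans ?_
        rw [norm_smul, norm_smul, Real.norm_eq_abs, Real.norm_eq_abs, abs_of_nonneg ht.1,
          abs_of_nonneg (by linarith [ht.2.le] : 0 ≤ 1 - t)]
        nlinarith [ht.1, ht.2, norm_nonneg h, norm_nonneg h']
      have hZ := Z_pos μ (h + t • (h' - h))
      rw [Real.norm_eq_abs, abs_div, abs_of_pos hZ, div_le_iff₀ hZ]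
      refine (cov_abs μ hF hfd hb (h' - h) hn).trans (le_of_eq ?_)
      ring)
  simpa using h1

lemma u_const_add {F : ℍ[ℝ] → ℝ} (hF : Continuous F) (a : ℝ) (h : ℍ[ℝ]) :
    u μ (fun x => F x - a) h = u μ F h - a := by
  have hZ := Z_pos μ h
  have hc := hF.comp (continuous_subtype_val : Continuous fun s : S3 => (s : ℍ[ℝ]))
  unfold u
  have e : ∫ s : S3, (F s - a) * w h s ∂μ = ∫ s : S3, F s * w h s ∂μ - a * Z μ h := by
    unfold Z
    rw [← integral_const_mul, ← integral_sub (int_S μ (by fun_prop)) (int_S μ (by fun_prop))]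
    refine integral_congr_ae (Filter.Eventually.of_forall fun s => ?_)
    simp only
    ring
  rw [e, sub_div, mul_div_cancel_right₀ _ hZ.ne']

lemma u_lip' {F : ℍ[ℝ] → ℝ} (hF : ContDiff ℝ 1 F) (hL : LipschitzWith 1 F)
    {h h' : ℍ[ℝ]} (hh : ‖h‖ ≤ 2) (hh' : ‖h'‖ ≤ 2) :
    |u μ F h' - u μ F h| ≤ 1 / 4 * ‖h' - h‖ := by
  have h1 := u_lip μ (F := fun x => F x - F 0) (hF.sub contDiff_const)
    (LipschitzWith.of_dist_le_mul fun x y => by
      have := hL.dist_le_mul x y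
      rwa [Real.dist_eq, sub_sub_sub_cancel_right, ← Real.dist_eq]) (sub_self _) hh hh'
  rw [u_const_add μ hF.continuous, u_const_add μ hF.continuous, sub_sub_sub_cancel_right] at h1
  exact h1

/-- **Sharp transport estimate for one spin**: for fields of norm at most `2`, the mean of a
`1`-Lipschitz function depends on the field with Lipschitz constant `1 / 4`. -/
theorem transport {φ : S3 → ℝ} {L : ℝ} (hL0 : 0 ≤ L)
    (hL : ∀ s s' : S3, |φ s - φ s'| ≤ L * ‖(s : ℍ[ℝ]) - s'‖) {h h' : ℍ[ℝ]} (hh : ‖h‖ ≤ 2)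
    (hh' : ‖h'‖ ≤ 2) : |Eh μ φ h - Eh μ φ h'| ≤ 1 / 4 * L * ‖h - h'‖ := by
  classical
  have hZ := Z_pos μ h
  have hZ' := Z_pos μ h'
  rcases hL0.eq_or_lt with hL0' | hLpos
  · subst hL0'
    have hc : ∀ s : S3, φ s = φ 1 := fun s => by
      have := hL s 1
      rw [zero_mul] at this
      have := abs_nonpos_iff.1 this
      linarith
    have e : ∀ k : ℍ[ℝ], Eh μ φ k = φ 1 := by
      intro k
      unfold Eh
      simp only [hc]
      rw [integral_const_mul]
      exact mul_div_cancel_right₀ _ (Pool.Agent.H556R4.SU2.Zs_pos μ k).ne'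
    rw [e, e, sub_self, abs_zero]
    positivity
  -- the extension
  let f : ℍ[ℝ] → ℝ := fun x => if hx : x ∈ Metric.sphere (0 : ℍ[ℝ]) 1 then L⁻¹ * φ ⟨x, hx⟩ else 0
  have hf : LipschitzOnWith 1 f (Metric.sphere (0 : ℍ[ℝ]) 1) := by
    refine LipschitzOnWith.of_dist_le_mul fun x hx y hy => ?_
    have h1 := hL ⟨x, hx⟩ ⟨y, hy⟩
    simp only [f, dif_pos hx, dif_pos hy]
    rw [Real.dist_eq, ← mul_sub, abs_mul, abs_of_pos (inv_pos.2 hLpos), NNReal.coe_one, one_mul,
      dist_eq_norm]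
    have := mul_le_mul_of_nonneg_left h1 (inv_pos.2 hLpos).le
    rwa [← mul_assoc, inv_mul_cancel₀ hLpos.ne', one_mul] at this
  obtain ⟨g, hg, hgf⟩ := hf.extend_real
  have hgφ : ∀ s : S3, g s = L⁻¹ * φ s := fun s => by
    rw [← hgf s.2]
    simp [f]
  have hEg : ∀ k : ℍ[ℝ], Eh μ φ k = L * u μ g k := by
    intro k
    unfold Eh u
    rw [mul_div_assoc', ← integral_const_mul]
    congr 1
    refine integral_congr_ae (Filter.Eventually.of_forall fun s => ?_)
    simp only [hgφ, w]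
    field_simp
  have hlim : ∀ ε : ℝ, 0 < ε → |u μ g h - u μ g h'| ≤ 1 / 4 * ‖h - h'‖ + 2 * ε := by
    intro ε hε
    obtain ⟨G, hG1, hG2, hG3⟩ := exists_smooth hg hε
    have h1 := u_lip' μ hG1 hG2 hh' hh
    have h2 : ∀ k : ℍ[ℝ], |u μ G k - u μ g k| ≤ ε := by
      intro k
      have hZk := Z_pos μ k
      have hGc := hG1.continuous
      have hgc := hg.continuous
      unfold u
      rw [← sub_div, abs_div, abs_of_pos hZk, div_le_iff₀ hZk,
        ← integral_sub (int_S μ (by fun_prop)) (int_S μ (by fun_prop))]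
      refine (abs_integral_le_integral_abs).trans ?_
      unfold Z
      rw [← integral_const_mul]
      refine integral_mono (int_S μ (by fun_prop)) (int_S μ (by fun_prop)) fun s => ?_
      simp only
      rw [← sub_mul, abs_mul, abs_of_pos (w_pos _ _)]
      exact mul_le_mul_of_nonneg_right (hG3 _) (w_pos _ _).le
    have h3 := h2 h
    have h4 := h2 h'
    rw [abs_le] at h1 h3 h4 ⊢
    constructor <;> linarith [h1.1, h1.2, h3.1, h3.2, h4.1, h4.2]
  have hfin : |u μ g h - u μ g h'| ≤ 1 / 4 * ‖h - h'‖ := by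
    refine le_of_forall_pos_le_add fun ε hε => ?_
    have := hlim (ε / 2) (by positivity)
    linarith
  rw [hEg, hEg, ← mul_sub, abs_mul, abs_of_pos hLpos]
  have := mul_le_mul_of_nonneg_left hfin hLpos.le
  linarith

end Pool.Agent.H859.YM
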