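import Pool.Agent.H859.YM.Gibbs

/-!
# Existence and uniqueness of the Gibbs measure
-/

set_option autoImplicit false
set_option linter.unusedSectionVars false

noncomputable section

namespace Pool.Agent.H859.YMG

open MeasureTheory Measure Function Quaternion Filter Topology
open Pool.Agent.H556R4.Dob Pool.Agent.H556R4.SU2 Pool.Agent.V11262.ER

variable [MeasurableSpace S3] [BorelSpace S3] (μ : Measure S3) [IsProbabilityMeasure μ]

lemma BM.sub' {α : Type} [MeasurableSpace α] {f g : α → ℝ} (hf : BM f) (hg : BM g) :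
    BM fun a => f a - g a := by
  obtain ⟨c, hc⟩ := hf.bdd
  obtain ⟨d, hd⟩ := hg.bdd
  refine ⟨hf.meas.sub hg.meas, c + d, fun a => ?_⟩
  refine (abs_sub _ _).trans ?_
  linarith [hc a, hd a]

lemma glue_meas (L : Finset Link) (U : Link → S3) :
    Measurable fun V : Link → S3 => glue (· ∈ L) V U := by
  have h0 : Measurable fun V : Link → S3 => (V, U) := measurable_prodMk_right
  exact (measurable_glue (· ∈ L)).comp h0

lemma cint_sub_mul (L : Finset Link) {F W : (Link → S3) → ℝ} (hF : BM F) (hW : BM W) (m : ℝ)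
    (U : Link → S3) : cint μ (· ∈ L) (fun U => (F U - m) * W U) U
      = cint μ (· ∈ L) (fun U => F U * W U) U - m * cint μ (· ∈ L) W U := by
  unfold cint
  have h := glue_meas L U
  rw [← integral_const_mul, ← integral_sub (((hF.mul hW).comp h).integrable _)
    (((hW.comp h).integrable _).const_mul _)]
  congr 1
  funext V
  ring

variable [μ.IsHaarMeasure]

section

variable {s : ℝ} (hs0 : 0 < s) (hs : s < 2) (β : Plaq → ℝ)
    (hβ : ∀ e : Link, ∀ T : Finset Plaq, (∀ p ∈ T, e ∈ lk p) → ∑ p ∈ T, |β p| ≤ s)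
    {A : Finset Link} {K : ℝ} (hK : 0 ≤ K) {F : (Link → S3) → ℝ} (hF : Lip K A F)

include hs0 hs hβ hK hF

/-- the effect of the boundary condition -/
theorem bc_abs (hi : Inv F) (Λ : Finset Plaq) (L : Finset Link) (hAL : A ⊆ L) {D : ℕ}
    (hAB : Apart D A ((Λ.biUnion lk) \ L)) (U : Link → S3) :
    |spec μ β L Λ F U - exq μ β Λ F| ≤ 2 * K * A.card * (s / 2) ^ D := by
  have hZ := cint_wt_pos μ β L Λ U
  have hFb : BM F := BM.cont hF.cont
  have hwb : BM (wt β Λ) := BM.cont (wt_cont β Λ)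
  have h1 := bc_le μ hs0 hs β hβ hK hF hi Λ L hAL hAB U
  have hFn : Lip K A fun U => -F U := fun U V => by
    rw [neg_sub_neg, abs_sub_comm]; exact hF U V
  have hin : Inv fun U => -F U := fun γ U => by
    show -F (gau γ U) = -F U
    rw [hi]
  have h2 := bc_le μ hs0 hs β hβ hK hFn hin Λ L hAL hAB U
  have e1 : exq μ β Λ (fun U => -F U) = -exq μ β Λ F := by
    unfold exq
    rw [← neg_div, ← integral_neg]
    congr 2
    funext U
    ring
  rw [e1] at h2
  have hFnb : BM fun U => -F U := BM.cont hF.cont.neg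
  rw [cint_sub_mul μ L hFnb hwb] at h2
  rw [cint_sub_mul μ L hFb hwb] at h1
  have e2 : cint μ (· ∈ L) (fun U => -F U * wt β Λ U) U = -cint μ (· ∈ L) (fun U => F U * wt β Λ U) U := by
    unfold cint
    rw [← integral_neg]
    congr 1
    funext V
    ring
  rw [e2] at h2
  have e3 : spec μ β L Λ F U - exq μ β Λ F
      = (cint μ (· ∈ L) (fun U => F U * wt β Λ U) U - exq μ β Λ F * cint μ (· ∈ L) (wt β Λ) U)
        / cint μ (· ∈ L) (wt β Λ) U := by
    unfold spec
    field_simp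
  rw [e3, abs_div, abs_of_pos hZ, div_le_iff₀ hZ, abs_le]
  constructor <;> linarith

/-- the links of `Λ` at distance less than `D` from `A` -/
def near (A : Finset Link) (Λ : Finset Plaq) (D : ℕ) : Finset Link :=
  (Λ.biUnion lk).filter fun e => ∃ a ∈ A, dist a.1 e.1 < (D : ℝ)

theorem gibbs_conv {ν : Measure (Link → S3)} [IsProbabilityMeasure ν] (hν : IsGibbs μ β ν)
    (Λ : Finset Plaq) {D : ℕ} (hD : ∀ p, p ∉ Λ → Apart D A (lk p)) :
    |exq μ β Λ F - ∫ U, F U ∂ν| ≤ 2 * K * A.card * (s / 2) ^ D := by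
  have hFb : BM F := BM.cont hF.cont
  rcases Nat.eq_zero_or_pos D with hD0 | hDpos
  · -- trivial bound
    subst hD0
    rw [pow_zero, mul_one]
    have hosc : ∀ U V : Link → S3, F U ≤ F V + 2 * K * A.card := by
      intro U V
      have h1 := (le_abs_self _).trans (hF U V)
      have h2 : ∑ e ∈ A, ‖(U e : ℍ[ℝ]) - V e‖ ≤ A.card * 2 := by
        rw [← nsmul_eq_mul]
        refine Finset.sum_le_card_nsmul _ _ _ fun e _ => ?_
        refine (norm_sub_le _ _).trans ?_
        rw [norm_coe', norm_coe']; norm_num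
      have h3 := mul_le_mul_of_nonneg_left h2 hK
      linarith
    have hw := wt_good β Λ
    have hwb : BM (wt β Λ) := ⟨hw.meas, hw.bdd⟩
    have hZ := int_wt_pos μ β Λ
    have k1 : ∀ V, exq μ β Λ F ≤ F V + 2 * K * A.card := by
      intro V
      unfold exq
      rw [div_le_iff₀ hZ, ← integral_const_mul]
      exact integral_mono ((hFb.mul hwb).integrable _) ((hwb.integrable _).const_mul _)
        fun U => mul_le_mul_of_nonneg_right (hosc U V) (wt_pos _ _ _).le
    have k2 : ∀ V, F V - 2 * K * A.card ≤ exq μ β Λ F := by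
      intro V
      unfold exq
      rw [le_div_iff₀ hZ, ← integral_const_mul]
      exact integral_mono ((hwb.integrable _).const_mul _) ((hFb.mul hwb).integrable _)
        fun U => mul_le_mul_of_nonneg_right (by linarith [hosc V U]) (wt_pos _ _ _).le
    have k3 : exq μ β Λ F - 2 * K * A.card ≤ ∫ U, F U ∂ν := by
      have := integral_mono (μ := ν) (integrable_const _) (hFb.integrable _)
        (fun V => (by linarith [k1 V] : exq μ β Λ F - 2 * K * A.card ≤ F V))
      simpa using this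
    have k4 : ∫ U, F U ∂ν ≤ exq μ β Λ F + 2 * K * A.card := by
      have := integral_mono (μ := ν) (hFb.integrable _) (integrable_const _)
        (fun V => (by linarith [k2 V] : F V ≤ exq μ β Λ F + 2 * K * A.card))
      simpa using this
    rw [abs_le]
    constructor <;> linarith
  · set L := near A Λ D with hL
    have hin : ∀ p : Plaq, ∀ e ∈ lk p, ∀ a ∈ A, dist a.1 e.1 < (D : ℝ) → p ∈ Λ := by
      intro p e he a ha hd
      by_contra hp
      exact absurd (hD p hp a ha e he) (not_le.2 hd)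
    have hQ : ∀ p, p ∉ Λ → Disjoint (lk p) L := by
      intro p hp
      refine Finset.disjoint_left.2 fun e he heL => ?_
      obtain ⟨-, a, ha, hd⟩ := Finset.mem_filter.1 heL
      exact hp (hin p e he a ha hd)
    have hAL : A ⊆ L := by
      intro a ha
      have hd0 : dist a.1 a.1 < (D : ℝ) := by
        rw [dist_self]; exact_mod_cast hDpos
      -- a plaquette containing `a`
      obtain ⟨p, hp⟩ : ∃ p : Plaq, a ∈ lk p := by
        obtain ⟨x, i⟩ := a
        by_cases h : i = 3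
        · exact ⟨⟨(x, 0, 3), show (0 : Fin 4) < 3 by decide⟩, mem_lk.2 (Or.inr (Or.inr (Or.inr (by
            rw [h]; rfl))))⟩
        · exact ⟨⟨(x, i, 3), lt_of_le_of_ne (Fin.le_last i) h⟩, mem_lk.2 (Or.inl rfl)⟩
      exact Finset.mem_filter.2 ⟨Finset.mem_biUnion.2 ⟨p, hin p a hp a ha hd0, hp⟩, a, ha, hd0⟩
    have hAB : Apart D A ((Λ.biUnion lk) \ L) := by
      intro a ha e he
      by_contra h
      rw [not_le] at h
      rw [Finset.mem_sdiff] at he
      exact he.2 (Finset.mem_filter.2 ⟨he.1, a, ha, h⟩)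
    have hFa : Lip K A (av μ F) := av_lip μ hF
    have h1 := hν L Λ hQ _ hFa.cont
    rw [gibbs_av μ hν hF.cont hF.dep] at h1
    rw [← exq_av μ β Λ hFb, h1]
    have h2 : ∀ U, |spec μ β L Λ (av μ F) U - exq μ β Λ (av μ F)| ≤ 2 * K * A.card * (s / 2) ^ D :=
      fun U => bc_abs μ hs0 hs β hβ hK hFa (av_inv μ hFb) Λ L hAL hAB U
    have hsb : BM (spec μ β L Λ (av μ F)) := BM.cont (cont_spec μ β L Λ hFa.cont)
    rw [abs_sub_comm]
    have e1 : ∫ U, spec μ β L Λ (av μ F) U ∂ν - exq μ β Λ (av μ F)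
        = ∫ U, (spec μ β L Λ (av μ F) U - exq μ β Λ (av μ F)) ∂ν := by
      rw [integral_sub (hsb.integrable _) (integrable_const _)]
      simp
    rw [e1]
    have := norm_integral_le_of_norm_le_const (μ := ν)
      (f := fun U => spec μ β L Λ (av μ F) U - exq μ β Λ (av μ F))
      (C := 2 * K * A.card * (s / 2) ^ D)
      (Filter.Eventually.of_forall fun U => by rw [Real.norm_eq_abs]; exact h2 U)
    rw [Real.norm_eq_abs, probReal_univ, mul_one] at this
    exact this

/-- clustering in finite volume for functions which need not be gauge invariant -/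
theorem cov_fin_gen (Λ : Finset Plaq) {B : Finset Link} {h : (Link → S3) → ℝ} (hh : BM h)
    (hhd : Dep B h) {D : ℕ} (hD : 2 ≤ D) (hAB : Apart D A B) :
    |exq μ β Λ (fun U => F U * h U) - exq μ β Λ F * exq μ β Λ h|
      ≤ 2 * K * A.card * (s / 2) ^ D * exq μ β Λ fun U => |h U| := by
  have hFb : BM F := BM.cont hF.cont
  have hg : Good B (av μ h) := ⟨(av_bm μ hh).meas, (av_bm μ hh).bdd, av_dep μ hhd, av_inv μ hh⟩
  have h1 := cov_fin4 μ hs0 hs β hβ hK (av_lip μ hF) (av_inv μ hFb) Λ hg hAB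
  rw [exq_av2 μ β Λ hFb hh hF.dep hhd hD hAB, exq_av μ β Λ hFb, exq_av μ β Λ hh] at h1
  refine h1.trans (mul_le_mul_of_nonneg_left ?_ (by positivity))
  have hw := wt_good β Λ
  have hZ := int_wt_pos μ β Λ
  unfold exq
  exact div_le_div_of_nonneg_right
    (av_abs μ hh ⟨hw.meas, hw.bdd⟩ hw.inv fun U => (wt_pos _ _ _).le) hZ.le

theorem gibbs_tendsto {ν : Measure (Link → S3)} [IsProbabilityMeasure ν] (hν : IsGibbs μ β ν) :
    Tendsto (fun n => exq μ β (LB n) F) atTop (𝓝 (∫ U, F U ∂ν)) := by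
  obtain ⟨M, hM⟩ := far_LB A
  rw [tendsto_iff_dist_tendsto_zero]
  have h1 : Tendsto (fun n : ℕ => (s / 2) ^ n) atTop (𝓝 0) :=
    tendsto_pow_atTop_nhds_zero_of_lt_one (by positivity) (by linarith)
  have h2 : Tendsto (fun n : ℕ => n - M) atTop atTop := tendsto_sub_atTop_nat M
  have h4 := (h1.comp h2).const_mul (2 * K * A.card)
  rw [mul_zero] at h4
  refine squeeze_zero (fun _ => dist_nonneg) (fun n => ?_) h4
  rw [Real.dist_eq]
  exact gibbs_conv μ hs0 hs β hβ hK hF hν (LB n) (fun p hp => hM n p hp)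

/-- clustering for the Gibbs measure -/
theorem gibbs_cov {ν : Measure (Link → S3)} [IsProbabilityMeasure ν] (hν : IsGibbs μ β ν)
    {B : Finset Link} {h : (Link → S3) → ℝ} {K' : ℝ} (hK' : 0 ≤ K') (hh : Lip K' B h) {D : ℕ}
    (hD : 2 ≤ D) (hAB : Apart D A B) :
    |∫ U, F U * h U ∂ν - (∫ U, F U ∂ν) * ∫ U, h U ∂ν|
      ≤ 2 * K * A.card * (s / 2) ^ D * ∫ U, |h U| ∂ν := by
  obtain ⟨K'', hK'', hFh⟩ := hF.mul hK hK' hh
  have l1 := gibbs_tendsto μ hs0 hs β hβ hK hF hν
  have l2 := gibbs_tendsto μ hs0 hs β hβ hK' hh hν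
  have l3 := gibbs_tendsto μ hs0 hs β hβ hK'' hFh hν
  have l4 := gibbs_tendsto μ hs0 hs β hβ hK' hh.abs hν
  refine le_of_tendsto_of_tendsto' ((l3.sub (l1.mul l2)).abs)
    (l4.const_mul (2 * K * A.card * (s / 2) ^ D)) fun n => ?_
  exact cov_fin_gen μ hs0 hs β hβ hK hF (LB n) (BM.cont hh.cont) hh.dep hD hAB

end

/-! ## uniqueness -/

/-- local Lipschitz functions -/
def LL (F : (Link → S3) → ℝ) : Prop := ∃ (K : ℝ) (A : Finset Link), 0 ≤ K ∧ Lip K A F

lemma Lip.mono_set {K : ℝ} (hK : 0 ≤ K) {A A' : Finset Link} (h : A ⊆ A') {F : (Link → S3) → ℝ}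
    (hF : Lip K A F) : Lip K A' F := fun U V =>
  (hF U V).trans (mul_le_mul_of_nonneg_left
    (Finset.sum_le_sum_of_subset_of_nonneg h fun _ _ _ => norm_nonneg _) hK)

lemma LL.add {F G : (Link → S3) → ℝ} (hF : LL F) (hG : LL G) : LL fun U => F U + G U := by
  obtain ⟨K, A, hK, hF⟩ := hF
  obtain ⟨K', A', hK', hG⟩ := hG
  refine ⟨K + K', A ∪ A', by positivity, fun U V => ?_⟩
  have h1 := Lip.mono_set hK Finset.subset_union_left hF (A' := A ∪ A') U V
  have h2 := Lip.mono_set hK' Finset.subset_union_right hG (A' := A ∪ A') U V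
  have e : F U + G U - (F V + G V) = (F U - F V) + (G U - G V) := by ring
  show |F U + G U - (F V + G V)| ≤ _
  rw [e]
  refine (abs_add_le _ _).trans ?_
  linarith

lemma LL.mul {F G : (Link → S3) → ℝ} (hF : LL F) (hG : LL G) : LL fun U => F U * G U := by
  obtain ⟨K, A, hK, hF⟩ := hF
  obtain ⟨K', A', hK', hG⟩ := hG
  obtain ⟨K'', hK'', h⟩ := hF.mul hK hK' hG
  exact ⟨K'', A ∪ A', hK'', h⟩

lemma LL.const (c : ℝ) : LL fun _ : Link → S3 => c :=
  ⟨0, ∅, le_rfl, fun U V => by simp⟩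

lemma LL.cont {F : (Link → S3) → ℝ} (hF : LL F) : Continuous F := by
  obtain ⟨K, A, hK, hF⟩ := hF
  exact hF.cont

open BoundedContinuousFunction in
/-- two probability measures with the same integrals of local Lipschitz functions are equal -/
theorem eq_of_LL {ν ν' : Measure (Link → S3)} [IsProbabilityMeasure ν] [IsProbabilityMeasure ν']
    (h : ∀ F : (Link → S3) → ℝ, LL F → ∫ U, F U ∂ν = ∫ U, F U ∂ν') : ν = ν' := by
  let 𝒜 : StarSubalgebra ℝ ((Link → S3) →ᵇ ℝ) :=
    { carrier := {g | LL (g : (Link → S3) → ℝ)}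
      mul_mem' := fun {a b} ha hb => LL.mul ha hb
      one_mem' := LL.const 1
      add_mem' := fun {a b} ha hb => LL.add ha hb
      zero_mem' := LL.const 0
      algebraMap_mem' := fun r => LL.const r
      star_mem' := fun {a} ha => by
        have : star a = a := by ext x; rfl
        rw [this]; exact ha }
  refine ext_of_forall_mem_subalgebra_integral_eq_of_polish (𝕜 := ℝ) (A := 𝒜) ?_ fun g hg => h g hg
  intro U V hUV
  obtain ⟨e, he⟩ := Function.ne_iff.1 hUV
  -- the function `‖U e - a‖`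
  have hL : LL fun W : Link → S3 => ‖(W e : ℍ[ℝ]) - U e‖ := by
    refine ⟨1, {e}, zero_le_one, fun W W' => ?_⟩
    rw [one_mul, Finset.sum_singleton]
    have := abs_norm_sub_norm_le ((W e : ℍ[ℝ]) - U e) ((W' e : ℍ[ℝ]) - U e)
    rwa [sub_sub_sub_cancel_right] at this
  let g : (Link → S3) →ᵇ ℝ := BoundedContinuousFunction.mkOfCompact ⟨_, hL.cont⟩
  refine ⟨fun W => ‖(W e : ℍ[ℝ]) - U e‖, ⟨g.toContinuousMap, ⟨g, hL, rfl⟩, rfl⟩, ?_⟩
  simp only [sub_self, norm_zero]
  intro h0
  have h1 := norm_eq_zero.1 h0.symm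
  exact he (Subtype.ext (sub_eq_zero.1 h1).symm)

end Pool.Agent.H859.YMG
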